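import Mathlib

/-! The geometric step: from local crossing bounds to a bound on the number of moves. -/

namespace Pool.Agent.QT

private theorem asm_three (l : List ℤ) (z1 z2 : ℤ) :
    l.length ≤ (l.filter fun p => decide (z1 < p) && decide (p ≤ z2)).length +
      (l.filter fun p => decide (p ≤ z1)).length + (l.filter fun p => decide (z2 < p)).length := by
  induction l with
  | nil => simp
  | cons x l ih =>
    rw [List.filter_cons, List.filter_cons, List.filter_cons, List.length_cons]
    by_cases h1 : z1 < x <;> by_cases h2 : x ≤ z2
    · have h3 : ¬ x ≤ z1 := by omega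
      have h4 : ¬ z2 < x := by omega
      simp only [h1, h2, h3, h4, decide_true, decide_false, Bool.and_self, if_true,
        Bool.false_eq_true, if_false, List.length_cons]
      omega
    · have h3 : ¬ x ≤ z1 := by omega
      have h4 : z2 < x := by omega
      simp only [h1, h2, h3, h4, decide_true, decide_false, Bool.and_false, if_true,
        Bool.false_eq_true, if_false, List.length_cons]
      omega
    · have h3 : x ≤ z1 := by omega
      have h4 : ¬ z2 < x := by omega
      simp only [h1, h2, h3, h4, decide_true, decide_false, Bool.false_and, if_true,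
        Bool.false_eq_true, if_false, List.length_cons]
      omega
    · have h3 : x ≤ z1 := by omega
      have h4 : z2 < x := by omega
      simp only [h1, h2, h3, h4, decide_true, decide_false, Bool.false_and, if_true,
        Bool.false_eq_true, if_false, List.length_cons]
      omega

private theorem asm_two (l : List ℤ) (z1 z2 : ℤ) (h : z2 ≤ z1) :
    l.length ≤ (l.filter fun p => decide (p ≤ z1)).length +
      (l.filter fun p => decide (z2 < p)).length := by
  induction l with
  | nil => simp
  | cons x l ih =>
    rw [List.filter_cons, List.filter_cons, List.length_cons]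
    by_cases h1 : x ≤ z1
    · by_cases h2 : z2 < x
      · simp only [h1, h2, decide_true, if_true, List.length_cons]
        omega
      · simp only [h1, h2, decide_true, decide_false, if_true, Bool.false_eq_true, if_false,
          List.length_cons]
        omega
    · have h2 : z2 < x := by omega
      simp only [h1, h2, decide_true, decide_false, if_true, Bool.false_eq_true, if_false,
        List.length_cons]
      omega

private theorem asm_bdd (P : List ℤ) : ∃ M : ℤ, ∀ p ∈ P, -M ≤ p ∧ p ≤ M := by
  induction P with
  | nil => exact ⟨0, by simp⟩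
  | cons x l ih =>
    obtain ⟨M, hM⟩ := ih
    refine ⟨|M| + |x|, ?_⟩
    intro p hp
    have h1 := abs_nonneg M
    have h2 := abs_nonneg x
    have h3 := le_abs_self M
    have h4 := le_abs_self x
    have h5 := neg_abs_le x
    rcases List.mem_cons.mp hp with h | h
    · subst h
      constructor <;> linarith
    · have := hM p h
      constructor <;> linarith [this.1, this.2]

theorem assemble (P : List ℤ) (c : ℤ → ℕ) (t D LA LB : ℕ) (hP : 0 < P.length) (hD : 0 < D)
    (hsum : ∀ Z : Finset ℤ, ∑ z ∈ Z, c z ≤ t)
    (hA : ∀ z : ℤ, P.length ≤ 4 * (P.filter fun p => decide (z < p)).length →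
      P.length ≤ 4 * (P.filter fun p => decide (p ≤ z)).length → LA ≤ c z)
    (hB : ∀ z1 z2 : ℤ, z1 < z2 → z2 ≤ z1 + 3 * D →
      P.length ≤ 4 * (P.filter fun p => decide (z1 < p) && decide (p ≤ z2)).length →
      LB ≤ c z1 + c z2)
    (h1 : t < D * LA) (h2 : 4 * t < D * LB) : False := by
  obtain ⟨M, hM⟩ := asm_bdd P
  -- the two thresholds
  obtain ⟨w1, hw1, hw1'⟩ := Int.exists_least_of_bdd
    (P := fun z => P.length ≤ 4 * (P.filter fun p => decide (p ≤ z)).length)
    ⟨-M, fun z hz => by
      by_contra hcon
      have h0 : (P.filter fun p => decide (p ≤ z)) = [] := by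
        rw [List.filter_eq_nil_iff]
        intro p hp
        have := (hM p hp).1
        simp only [decide_eq_true_eq]
        omega
      rw [h0] at hz
      simp only [List.length_nil] at hz
      omega⟩
    ⟨M, by
      have h0 : (P.filter fun p => decide (p ≤ M)) = P := by
        rw [List.filter_eq_self]
        intro p hp
        simp only [decide_eq_true_eq]
        exact (hM p hp).2
      rw [h0]
      omega⟩
  obtain ⟨w2, hw2, hw2'⟩ := Int.exists_greatest_of_bdd
    (P := fun z => P.length ≤ 4 * (P.filter fun p => decide (z < p)).length)
    ⟨M, fun z hz => by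
      by_contra hcon
      have h0 : (P.filter fun p => decide (z < p)) = [] := by
        rw [List.filter_eq_nil_iff]
        intro p hp
        have := (hM p hp).2
        simp only [decide_eq_true_eq]
        omega
      rw [h0] at hz
      simp only [List.length_nil] at hz
      omega⟩
    ⟨-M - 1, by
      have h0 : (P.filter fun p => decide (-M - 1 < p)) = P := by
        rw [List.filter_eq_self]
        intro p hp
        simp only [decide_eq_true_eq]
        have := (hM p hp).1
        omega
      rw [h0]
      omega⟩
  have hmonoB : ∀ z, w1 ≤ z → P.length ≤ 4 * (P.filter fun p => decide (p ≤ z)).length := by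
    intro z hz
    refine hw1.trans (Nat.mul_le_mul_left _ ?_)
    apply List.Sublist.length_le
    apply List.monotone_filter_right
    intro p hp
    simp only [decide_eq_true_eq] at hp ⊢
    omega
  have hmonoA : ∀ z, z ≤ w2 → P.length ≤ 4 * (P.filter fun p => decide (z < p)).length := by
    intro z hz
    refine hw2.trans (Nat.mul_le_mul_left _ ?_)
    apply List.Sublist.length_le
    apply List.monotone_filter_right
    intro p hp
    simp only [decide_eq_true_eq] at hp ⊢
    omega
  by_cases hcase : (D : ℤ) ≤ w2 - w1 + 1
  · -- many cells with many crossings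
    have h3 := hsum (Finset.Icc w1 (w1 + D - 1))
    have h4 : ∑ _z ∈ Finset.Icc w1 (w1 + D - 1), LA ≤ ∑ z ∈ Finset.Icc w1 (w1 + D - 1), c z := by
      apply Finset.sum_le_sum
      intro z hz
      rw [Finset.mem_Icc] at hz
      exact hA z (hmonoA z (by omega)) (hmonoB z hz.1)
    rw [Finset.sum_const, Int.card_Icc, smul_eq_mul] at h4
    have h5 : (w1 + D - 1 + 1 - w1).toNat = D := by omega
    rw [h5] at h4
    omega
  · -- two quiet cells
    have hq : ∀ w : ℤ, ∃ z ∈ Finset.Icc w (w + D - 1), 4 * c z < LB := by
      intro w
      by_contra hcon
      push Not at hcon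
      have h3 := hsum (Finset.Icc w (w + D - 1))
      have h4 : ∑ _z ∈ Finset.Icc w (w + D - 1), LB ≤
          ∑ z ∈ Finset.Icc w (w + D - 1), 4 * c z := Finset.sum_le_sum hcon
      rw [Finset.sum_const, Int.card_Icc, smul_eq_mul, ← Finset.mul_sum] at h4
      have h5 : (w + D - 1 + 1 - w).toNat = D := by omega
      rw [h5] at h4
      omega
    obtain ⟨z1, hz1, hc1⟩ := hq (w1 - D)
    obtain ⟨z2, hz2, hc2⟩ := hq (w2 + 1)
    rw [Finset.mem_Icc] at hz1 hz2
    have hn1 : ¬ (P.length ≤ 4 * (P.filter fun p => decide (p ≤ z1)).length) := by
      intro h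
      have := hw1' z1 h
      omega
    have hn2 : ¬ (P.length ≤ 4 * (P.filter fun p => decide (z2 < p)).length) := by
      intro h
      have := hw2' z2 h
      omega
    have hlt : z1 < z2 := by
      by_contra hcon
      have := asm_two P z1 z2 (by omega)
      omega
    have h3 := asm_three P z1 z2
    have h4 := hB z1 z2 hlt (by omega) (by omega)
    omega

end Pool.Agent.QT
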