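import Pool.Agent.QT.Comb

/-! Counting lists. -/

namespace Pool.Agent.QT


/-- lists of length at most `L` over a finite set -/
theorem card_lists {α : Type*} (s : Set α) (hs : s.Finite) (L : ℕ) :
    {l : List α | l.length ≤ L ∧ ∀ a ∈ l, a ∈ s}.Finite ∧
      {l : List α | l.length ≤ L ∧ ∀ a ∈ l, a ∈ s}.ncard ≤ (s.ncard + 1) ^ L := by
  induction L with
  | zero =>
    have h : {l : List α | l.length ≤ 0 ∧ ∀ a ∈ l, a ∈ s} = {[]} := by
      ext l
      simp only [Set.mem_ofPred_eq, Set.mem_singleton_iff, Nat.le_zero, List.length_eq_zero_iff]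
      constructor
      · exact fun h => h.1
      · rintro rfl
        simp
    rw [h]
    simp
  | succ L ih =>
    set A : Set (List α) := {l : List α | l.length ≤ L ∧ ∀ a ∈ l, a ∈ s} with hA
    have h : {l : List α | l.length ≤ L + 1 ∧ ∀ a ∈ l, a ∈ s} =
        {[]} ∪ (fun x : α × List α => x.1 :: x.2) '' (s ×ˢ A) := by
      ext l
      simp only [Set.mem_ofPred_eq, Set.mem_union, Set.mem_singleton_iff, Set.mem_image,
        Set.mem_prod, hA, Prod.exists]
      constructor
      · rintro ⟨h1, h2⟩
        cases l with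
        | nil => exact Or.inl rfl
        | cons a l =>
          right
          refine ⟨a, l, ⟨h2 a List.mem_cons_self, ?_, fun b hb => h2 b (List.mem_cons_of_mem _ hb)⟩,
            rfl⟩
          rw [List.length_cons] at h1
          omega
      · rintro (rfl | ⟨a, l, ⟨h1, h2, h3⟩, rfl⟩)
        · simp
        · refine ⟨by rw [List.length_cons]; omega, ?_⟩
          intro b hb
          rcases List.mem_cons.mp hb with h | h
          · rw [h]
            exact h1
          · exact h3 b h
    have hfin : (s ×ˢ A).Finite := hs.prod ih.1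
    rw [h]
    refine ⟨(Set.finite_singleton _).union (hfin.image _), ?_⟩
    refine (Set.ncard_union_le _ _).trans ?_
    have h1 : ((fun x : α × List α => x.1 :: x.2) '' (s ×ˢ A)).ncard ≤ s.ncard * A.ncard := by
      refine (Set.ncard_image_le hfin).trans ?_
      rw [Set.ncard_prod]
    rw [Set.ncard_singleton]
    have h2 : s.ncard * A.ncard ≤ s.ncard * (s.ncard + 1) ^ L := Nat.mul_le_mul_left _ ih.2
    have h3 : 1 ≤ (s.ncard + 1) ^ L := Nat.one_le_pow _ _ (by omega)
    calc 1 + ((fun x : α × List α => x.1 :: x.2) '' (s ×ˢ A)).ncard ≤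
          (s.ncard + 1) ^ L + s.ncard * (s.ncard + 1) ^ L := by omega
      _ = (s.ncard + 1) ^ (L + 1) := by ring

/-- binary lists of length at most `m` -/
theorem card_bits (m : ℕ) : {l : List Bool | l.length ≤ m}.Finite ∧
    {l : List Bool | l.length ≤ m}.ncard ≤ 2 ^ (m + 1) := by
  suffices h : {l : List Bool | l.length ≤ m}.Finite ∧
      {l : List Bool | l.length ≤ m}.ncard + 1 ≤ 2 ^ (m + 1) from ⟨h.1, by omega⟩
  induction m with
  | zero =>
    have h : {l : List Bool | l.length ≤ 0} = {[]} := by
      ext l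
      simp only [Set.mem_ofPred_eq, Set.mem_singleton_iff, Nat.le_zero, List.length_eq_zero_iff]
    rw [h]
    simp
  | succ m ih =>
    set A : Set (List Bool) := {l : List Bool | l.length ≤ m} with hA
    have h : {l : List Bool | l.length ≤ m + 1} =
        {[]} ∪ (fun x : Bool × List Bool => x.1 :: x.2) '' (Set.univ ×ˢ A) := by
      ext l
      simp only [Set.mem_ofPred_eq, Set.mem_union, Set.mem_singleton_iff, Set.mem_image,
        Set.mem_prod, hA, Prod.exists, Set.mem_univ, true_and]
      constructor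
      · intro h1
        cases l with
        | nil => exact Or.inl rfl
        | cons a l =>
          right
          refine ⟨a, l, ?_, rfl⟩
          rw [List.length_cons] at h1
          omega
      · rintro (rfl | ⟨a, l, h1, rfl⟩)
        · simp
        · rw [List.length_cons]
          omega
    have hfin : ((Set.univ : Set Bool) ×ˢ A).Finite := Set.finite_univ.prod ih.1
    rw [h]
    refine ⟨(Set.finite_singleton _).union (hfin.image _), ?_⟩
    have h0 := Set.ncard_union_le ({[]} : Set (List Bool))
      ((fun x : Bool × List Bool => x.1 :: x.2) '' (Set.univ ×ˢ A))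
    have h1 : ((fun x : Bool × List Bool => x.1 :: x.2) '' (Set.univ ×ˢ A)).ncard ≤
        2 * A.ncard := by
      refine (Set.ncard_image_le hfin).trans ?_
      rw [Set.ncard_prod, Set.ncard_univ]
      simp
    rw [Set.ncard_singleton] at h0
    have h3 := ih.2
    have h4 : 2 ^ (m + 1 + 1) = 2 * 2 ^ (m + 1) := by ring
    omega

/-- lists of length at most `L` with sum at most `K` -/
theorem card_compositions (L K : ℕ) : {l : List ℕ | l.length ≤ L ∧ l.sum ≤ K}.Finite ∧
    100 ^ K * {l : List ℕ | l.length ≤ L ∧ l.sum ≤ K}.ncard ≤ 102 ^ L * 101 ^ K := by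
  induction L generalizing K with
  | zero =>
    have h : {l : List ℕ | l.length ≤ 0 ∧ l.sum ≤ K} = {[]} := by
      ext l
      simp only [Set.mem_ofPred_eq, Set.mem_singleton_iff, Nat.le_zero, List.length_eq_zero_iff]
      constructor
      · exact fun h => h.1
      · rintro rfl
        simp
    rw [h, Set.ncard_singleton, pow_zero, one_mul, mul_one]
    exact ⟨Set.finite_singleton _, Nat.pow_le_pow_left (by norm_num) _⟩
  | succ L ih =>
    have h : {l : List ℕ | l.length ≤ L + 1 ∧ l.sum ≤ K} =
        {[]} ∪ ⋃ j ∈ Finset.range (K + 1), (fun l : List ℕ => j :: l) ''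
          {l : List ℕ | l.length ≤ L ∧ l.sum ≤ K - j} := by
      ext l
      simp only [Set.mem_ofPred_eq, Set.mem_union, Set.mem_singleton_iff, Set.mem_iUnion,
        Set.mem_image, Finset.mem_range, exists_prop]
      constructor
      · rintro ⟨h1, h2⟩
        cases l with
        | nil => exact Or.inl rfl
        | cons a l =>
          right
          rw [List.length_cons] at h1
          rw [List.sum_cons] at h2
          exact ⟨a, by omega, l, ⟨by omega, by omega⟩, rfl⟩
      · rintro (rfl | ⟨a, h1, l, ⟨h2, h3⟩, rfl⟩)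
        · simp
        · rw [List.length_cons, List.sum_cons]
          constructor <;> omega
    have hfin : ∀ j ∈ Finset.range (K + 1), ((fun l : List ℕ => j :: l) ''
        {l : List ℕ | l.length ≤ L ∧ l.sum ≤ K - j}).Finite := fun j _ => (ih (K - j)).1.image _
    rw [h]
    refine ⟨(Set.finite_singleton _).union
      ((Finset.range (K + 1)).finite_toSet.biUnion (fun j hj => hfin j hj)), ?_⟩
    have h1 := Set.ncard_union_le ({[]} : Set (List ℕ)) (⋃ j ∈ Finset.range (K + 1),
      (fun l : List ℕ => j :: l) '' {l : List ℕ | l.length ≤ L ∧ l.sum ≤ K - j})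
    have h2 : (⋃ j ∈ Finset.range (K + 1), (fun l : List ℕ => j :: l) ''
        {l : List ℕ | l.length ≤ L ∧ l.sum ≤ K - j}).ncard ≤
        ∑ j ∈ Finset.range (K + 1), ((fun l : List ℕ => j :: l) ''
          {l : List ℕ | l.length ≤ L ∧ l.sum ≤ K - j}).ncard :=
      Finset.set_ncard_biUnion_le _ _
    have h3 : ∑ j ∈ Finset.range (K + 1), 100 ^ K * ((fun l : List ℕ => j :: l) ''
          {l : List ℕ | l.length ≤ L ∧ l.sum ≤ K - j}).ncard ≤
        ∑ j ∈ Finset.range (K + 1), 102 ^ L * (100 ^ j * 101 ^ (K - j)) := by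
      apply Finset.sum_le_sum
      intro j hj
      rw [Finset.mem_range] at hj
      have e1 := (ih (K - j)).2
      have e2 := Set.ncard_image_le (f := fun l : List ℕ => j :: l) (ih (K - j)).1
      have e3 : 100 ^ K = 100 ^ j * 100 ^ (K - j) := by
        rw [← pow_add]
        congr 1
        omega
      rw [e3]
      calc 100 ^ j * 100 ^ (K - j) * ((fun l : List ℕ => j :: l) ''
            {l : List ℕ | l.length ≤ L ∧ l.sum ≤ K - j}).ncard ≤
            100 ^ j * 100 ^ (K - j) * {l : List ℕ | l.length ≤ L ∧ l.sum ≤ K - j}.ncard :=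
            Nat.mul_le_mul_left _ e2
        _ = 100 ^ j * (100 ^ (K - j) * {l : List ℕ | l.length ≤ L ∧ l.sum ≤ K - j}.ncard) := by
            ring
        _ ≤ 100 ^ j * (102 ^ L * 101 ^ (K - j)) := Nat.mul_le_mul_left _ e1
        _ = _ := by ring
    have hgeo : ∑ j ∈ Finset.range (K + 1), 100 ^ j * 101 ^ (K - j) + 100 ^ (K + 1) =
        101 ^ (K + 1) := by
      clear * -
      induction K with
      | zero => simp
      | succ K ih =>
        rw [Finset.sum_range_succ]
        have : ∑ j ∈ Finset.range (K + 1), 100 ^ j * 101 ^ (K + 1 - j) =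
            101 * ∑ j ∈ Finset.range (K + 1), 100 ^ j * 101 ^ (K - j) := by
          rw [Finset.mul_sum]
          refine Finset.sum_congr rfl fun j hj => ?_
          rw [Finset.mem_range] at hj
          have : K + 1 - j = (K - j) + 1 := by omega
          rw [this]
          ring
        rw [this, Nat.sub_self, pow_zero, mul_one]
        have e1 : 101 ^ (K + 1 + 1) = 101 * 101 ^ (K + 1) := by ring
        have e2 : 100 ^ (K + 1 + 1) = 100 * 100 ^ (K + 1) := by ring
        rw [e1, e2, ← ih]
        ring
    rw [Set.ncard_singleton] at h1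
    rw [← Finset.mul_sum, ← Finset.mul_sum] at h3
    have h4 : 100 ^ K * ({[]} ∪ ⋃ j ∈ Finset.range (K + 1), (fun l : List ℕ => j :: l) ''
        {l : List ℕ | l.length ≤ L ∧ l.sum ≤ K - j}).ncard ≤
        100 ^ K * (1 + ∑ j ∈ Finset.range (K + 1), ((fun l : List ℕ => j :: l) ''
          {l : List ℕ | l.length ≤ L ∧ l.sum ≤ K - j}).ncard) :=
      Nat.mul_le_mul_left _ (by omega)
    refine h4.trans ?_
    rw [mul_add, mul_one]
    refine (Nat.add_le_add_left h3 _).trans ?_
    have h5 : 1 ≤ 102 ^ L := Nat.one_le_pow _ _ (by norm_num)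
    have h6 : 100 ^ K ≤ 102 ^ L * 100 ^ (K + 1) := by
      calc 100 ^ K ≤ 100 ^ (K + 1) := Nat.pow_le_pow_right (by norm_num) (by omega)
        _ = 1 * 100 ^ (K + 1) := by ring
        _ ≤ _ := Nat.mul_le_mul_right _ h5
    calc 100 ^ K + 102 ^ L * ∑ j ∈ Finset.range (K + 1), 100 ^ j * 101 ^ (K - j) ≤
          102 ^ L * 100 ^ (K + 1) +
            102 ^ L * ∑ j ∈ Finset.range (K + 1), 100 ^ j * 101 ^ (K - j) :=
          Nat.add_le_add_right h6 _
      _ = 102 ^ L * (∑ j ∈ Finset.range (K + 1), 100 ^ j * 101 ^ (K - j) + 100 ^ (K + 1)) := by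
          ring
      _ = 102 ^ L * 101 ^ (K + 1) := by rw [hgeo]
      _ = 102 ^ L * 101 ^ K * 101 := by ring
      _ ≤ 102 ^ L * 101 ^ K * 102 := Nat.mul_le_mul_left _ (by norm_num)
      _ = 102 ^ (L + 1) * 101 ^ K := by ring

end Pool.Agent.QT
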