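import Pool.Agent.QT.CLSA
import Pool.Agent.QT.CNT

/-! The number of hard words with bad event A. -/

namespace Pool.Agent.QT

open QSym

variable {N : TapeMachine QSym} {K pad T : ℕ}

private theorem cda_part_append (p : Fin 4) (u v : List (Fin 4 × QSym)) :
    part p (u ++ v) = part p u ++ part p v := by
  simp [part]

private theorem cda_part_ph_self (p : Fin 4) (w : List QSym) : part p (ph p w) = w := by
  simp [part, ph, List.filter_map, Function.comp_def]

private theorem cda_part_ph_ne (p q : Fin 4) (h : p ≠ q) (w : List QSym) :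
    part p (ph q w) = [] := by
  simp only [part, ph, List.map_eq_nil_iff, List.filter_eq_nil_iff, List.mem_map]
  rintro x ⟨a, _, rfl⟩
  simp [Ne.symm h]

private theorem cda_part_two (r : ℕ) (y : List Bool) (g : List (List Bool)) :
    part 2 (annA K pad r y g) = giantW y g := by
  simp only [annA, cda_part_append, cda_part_ph_self]
  rw [cda_part_ph_ne 2 0 (by decide), cda_part_ph_ne 2 1 (by decide),
    cda_part_ph_ne 2 3 (by decide)]
  simp

private theorem cda_part_le (p : Fin 4) (v : List (Fin 4 × QSym)) :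
    (part p v).length ≤ v.length := by
  rw [part, List.length_map]
  exact List.length_filter_le _ _

private theorem cda_side_le {α : Type*} (b : Bool) (us : List (List α)) :
    (trueSide b us).length ≤ us.flatten.length := by
  induction us generalizing b with
  | nil => simp [trueSide]
  | cons u us ih =>
    have := ih (!b)
    simp only [trueSide, List.length_append, List.flatten_cons]
    cases b
    · simp at this ⊢; omega
    · simp at this ⊢; omega

private theorem cda_len (w : List QSym) : (evals w).length + (dvals w).length = w.length := by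
  induction w with
  | nil => rfl
  | cons a w ih =>
    cases a with
    | enq b => simp only [evals, dvals, List.length_cons]; omega
    | deq b => simp only [evals, dvals, List.length_cons]; omega

private theorem cda_sum (vs : List (List (Fin 4 × QSym))) :
    (vs.map fun v => (dvals (part 2 v)).length).sum = (dvals (part 2 vs.flatten)).length := by
  induction vs with
  | nil => simp [part, dvals]
  | cons v vs ih =>
    simp only [List.map_cons, List.sum_cons, List.flatten_cons, cda_part_append, dvals_append,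
      List.length_append, ih]

private theorem cda_ann_len (r : ℕ) (hr : r ≤ K) (ω : Om K) :
    (annA K pad r (yl ω) (gl ω)).length = 4 * K * K + 2 * K + pad := by
  have h1 : (annA K pad r (yl ω) (gl ω)).length = (hardW K pad (yl ω) (gl ω)).length := by
    simp only [annA, hardW, headW, ph, List.length_append, List.length_map, length_ringW, length_yl]
    obtain ⟨d, hd⟩ := Nat.exists_eq_add_of_le hr
    have h2 : K - r = d := by omega
    have h3 : K * (2 * K) = r * (2 * K) + d * (2 * K) := by
      conv_lhs => rw [hd]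
      rw [hd]
      ring
    rw [h2]
    omega
  rw [h1, length_hardW K pad _ _ (length_yl ω) (length_gl ω) (length_of_mem_gl ω)]

private theorem cda_msgs (z : ℤ) (s : Bool) (c : N.Cfg) (l : List (Option QSym × N.Cfg)) :
    N.msgs (half z s) c l = N.msgs (fun p => decide (z < p)) c l := by
  cases s with
  | false =>
    have h1 : half z false = fun p => decide (z < p) := by
      funext p
      simp [half]
    rw [h1]
  | true =>
    have h1 : half z true = fun p => !(decide (z < p)) := by
      funext p
      simp [half]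
    rw [h1]
    exact N.msgs_compl (fun p => decide (z < p)) c l

theorem card_A (hN : ∀ w, N.Accepts w ↔ w ∈ Fifo) (R : Runs N K pad T) (z : ℤ) (s : Bool)
    (L n : ℕ) (hn : n = 4 * K * K + 2 * K + pad) :
    100 ^ K * (XA R (half z s) L).ncard ≤
      (2 * Nat.card N.Q + 1) ^ L * 18 ^ L * (102 ^ L * 101 ^ K) *
        (L * (2 * n + 1) * (n + 1)) * (2 ^ (K - K / 4 + 1) * 2 ^ (K * K)) := by
  have hfinQ : Finite N.Q := N.finQ
  set S := half z s with hS
  have hex : ∀ ω : Om K, ω ∈ XA R S L → ∃ r j0 vs, HasAnn R S ω r j0 vs :=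
    fun ω hω => hω.2.2
  choose! r j0 vs hann using hex
  -- the finite sets
  set s1 : Set (N.Q × ℤ) := Set.univ ×ˢ {z, z + 1} with hs1
  have hs1f : s1.Finite := Set.Finite.prod Set.finite_univ (Set.toFinite _)
  have hs1c : s1.ncard = 2 * Nat.card N.Q := by
    rw [hs1, Set.ncard_prod, Set.ncard_univ, Set.ncard_pair (by omega), mul_comm]
  obtain ⟨hA1f, hA1c⟩ := card_lists s1 hs1f L
  obtain ⟨hA2f, hA2c⟩ := card_lists (Set.univ : Set (Option (Fin 4 × QSym)))
    Set.finite_univ L
  have hu : (Set.univ : Set (Option (Fin 4 × QSym))).ncard = 17 := by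
    rw [Set.ncard_univ, Nat.card_eq_fintype_card]
    rfl
  rw [hu] at hA2c
  rw [hs1c] at hA1c
  obtain ⟨hA3f, hA3c⟩ := card_compositions L K
  obtain ⟨hA7f, hA7c⟩ := card_bits (K - K / 4)
  set A1 := {l : List (N.Q × ℤ) | l.length ≤ L ∧ ∀ a ∈ l, a ∈ s1} with hA1
  set A2 := {l : List (Option (Fin 4 × QSym)) | l.length ≤ L ∧ ∀ a ∈ l, a ∈ Set.univ} with hA2
  set A3 := {l : List ℕ | l.length ≤ L ∧ l.sum ≤ K} with hA3
  set A7 := {l : List Bool | l.length ≤ K - K / 4} with hA7
  set A4 : Set ℕ := ((Finset.range L : Finset ℕ) : Set ℕ) with hA4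
  set A5 : Set ℤ := ((Finset.Icc (-(n : ℤ)) n : Finset ℤ) : Set ℤ) with hA5
  set A6 : Set ℕ := ((Finset.range (n + 1) : Finset ℕ) : Set ℕ) with hA6
  set A8 : Set (Fin K → Fin K → Bool) := Set.univ with hA8
  have hA4c : A4.ncard = L := by rw [hA4, Set.ncard_coe_finset, Finset.card_range]
  have hA6c : A6.ncard = n + 1 := by rw [hA6, Set.ncard_coe_finset, Finset.card_range]
  have hA5c : A5.ncard = 2 * n + 1 := by
    rw [hA5, Set.ncard_coe_finset, Int.card_Icc]
    omega
  have hA8c : A8.ncard = 2 ^ (K * K) := by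
    rw [hA8, Set.ncard_univ, Nat.card_eq_fintype_card]
    simp [pow_mul]
  set f : Om K → List (N.Q × ℤ) × List (Option (Fin 4 × QSym)) × List ℕ × ℕ × ℤ × ℕ ×
      List Bool × (Fin K → Fin K → Bool) := fun ω =>
    (N.msgs S N.init (R.path ω), (vs ω).map List.head?,
      (vs ω).map (fun v => (dvals (part 2 v)).length), j0 ω,
      net (part 0 (trueSide (S 0) (vs ω))), (dvals (part 1 (trueSide (S 0) (vs ω)))).length,
      dvals (part 2 (trueSide (!S 0) (vs ω))), ω.2) with hf
  have hlen : ∀ ω ∈ XA R S L, (vs ω).length ≤ L := by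
    intro ω hω
    have h1 := congrArg List.length (hann ω hω).2
    rw [List.length_map, List.length_map, N.blocks_length] at h1
    have h2 := hω.1
    omega
  have hflen : ∀ ω ∈ XA R S L, (vs ω).flatten.length = n := by
    intro ω hω
    rw [(hann ω hω).1.flat, cda_ann_len _ (hann ω hω).1.le, hn]
  have htot : ∀ ω ∈ XA R S L, (dvals (part 2 (vs ω).flatten)).length = K := by
    intro ω hω
    rw [(hann ω hω).1.flat, cda_part_two, dvals_giantW _ _ (by rw [length_yl, length_gl]),
      length_yl]
  have hmaps : ∀ ω ∈ XA R S L, f ω ∈ A1 ×ˢ A2 ×ˢ A3 ×ˢ A4 ×ˢ A5 ×ˢ A6 ×ˢ A7 ×ˢ A8 := by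
    intro ω hω
    simp only [hf, Set.mem_prod]
    refine ⟨⟨hω.1.le, ?_⟩, ⟨?_, fun a _ => Set.mem_univ a⟩, ⟨?_, ?_⟩, ?_, ?_, ?_, ?_,
      Set.mem_univ _⟩
    · intro a ha
      rw [hS, cda_msgs] at ha
      have h1 := N.msgs_pos z N.init (R.path ω) (R.isPath ω) a ha
      rw [hs1]
      refine ⟨Set.mem_univ _, ?_⟩
      simpa using h1
    · rw [List.length_map]; exact hlen ω hω
    · rw [List.length_map]; exact hlen ω hω
    · rw [cda_sum, htot ω hω]
    · obtain ⟨V1, a, b, V2, h1, h2, _, _⟩ := (hann ω hω).1.cut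
      have h3 := congrArg List.length h1
      simp only [List.length_append, List.length_cons, h2] at h3
      have h4 := hlen ω hω
      rw [hA4, Finset.mem_coe, Finset.mem_range]
      omega
    · have h1 := cda_len (part 0 (trueSide (S 0) (vs ω)))
      have h2 := cda_part_le 0 (trueSide (S 0) (vs ω))
      have h3 := cda_side_le (S 0) (vs ω)
      have h4 := hflen ω hω
      rw [hA5, Finset.mem_coe, Finset.mem_Icc, net]
      omega
    · have h1 := cda_len (part 1 (trueSide (S 0) (vs ω)))
      have h2 := cda_part_le 1 (trueSide (S 0) (vs ω))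
      have h3 := cda_side_le (S 0) (vs ω)
      have h4 := hflen ω hω
      rw [hA6, Finset.mem_coe, Finset.mem_range]
      omega
    · have h1 := count_ann R S ω (r ω) (j0 ω) (vs ω) (hann ω hω)
      have h2 := hω.2.1
      have h3 := flatten_sides (fun v : List (Fin 4 × QSym) => (dvals (part 2 v)).length)
        (by simp [part, dvals])
        (fun u v => by simp only [cda_part_append, dvals_append, List.length_append]) (S 0) (vs ω)
      simp only [htot ω hω] at h3
      rw [hA7, Set.mem_ofPred_eq]
      omega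
  have hinj : Set.InjOn f (XA R S L) := by
    intro ω hω ω' hω' he
    simp only [hf, Prod.mk.injEq] at he
    obtain ⟨e1, e2, e3, e4, e5, e6, e7, e8⟩ := he
    have h1 := hann ω hω
    have h2 := hann ω' hω'
    rw [← e4] at h2
    have h3 := class_A hN R S ω ω' (r ω) (r ω') (j0 ω) (vs ω) (vs ω') h1 h2 e1 e2 e5 e6 e3 e7
    have h4 : ω.1 = ω'.1 := List.ofFn_injective h3
    exact Prod.ext h4 e8
  have hPf : (A1 ×ˢ A2 ×ˢ A3 ×ˢ A4 ×ˢ A5 ×ˢ A6 ×ˢ A7 ×ˢ A8).Finite := by
    refine hA1f.prod (hA2f.prod (hA3f.prod (Set.Finite.prod ?_ (Set.Finite.prod ?_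
      (Set.Finite.prod ?_ (hA7f.prod ?_))))))
    · exact Finset.finite_toSet _
    · exact Finset.finite_toSet _
    · exact Finset.finite_toSet _
    · exact Set.finite_univ
  have hmain := Set.ncard_le_ncard_of_injOn f hmaps hinj hPf
  simp only [Set.ncard_prod, hA4c, hA5c, hA6c, hA8c] at hmain
  calc 100 ^ K * (XA R S L).ncard
      ≤ 100 ^ K * (A1.ncard * (A2.ncard * (A3.ncard * (L * ((2 * n + 1) * ((n + 1) *
          (A7.ncard * 2 ^ (K * K)))))))) := Nat.mul_le_mul_left _ hmain
    _ = A1.ncard * A2.ncard * (100 ^ K * A3.ncard) * (L * (2 * n + 1) * (n + 1)) *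
          (A7.ncard * 2 ^ (K * K)) := by ring
    _ ≤ _ := by
        have hA2c' : A2.ncard ≤ 18 ^ L := hA2c
        gcongr

end Pool.Agent.QT
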