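import Pool.Agent.QT.CLSB
import Pool.Agent.QT.CNT

/-! The number of hard words with bad event B. -/

namespace Pool.Agent.QT

open QSym

variable {N : TapeMachine QSym} {K pad T : ℕ}

private theorem cdb_part_append (p : Fin 4) (u v : List (Fin 4 × QSym)) :
    part p (u ++ v) = part p u ++ part p v := by
  simp [part]

private theorem cdb_part_ph_self (p : Fin 4) (w : List QSym) : part p (ph p w) = w := by
  simp [part, ph, List.filter_map, Function.comp_def]

private theorem cdb_part_ph_ne (p q : Fin 4) (h : p ≠ q) (w : List QSym) :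
    part p (ph q w) = [] := by
  simp only [part, ph, List.map_eq_nil_iff, List.filter_eq_nil_iff, List.mem_map]
  rintro x ⟨a, _, rfl⟩
  simp [Ne.symm h]

private theorem cdb_part_two (y : List Bool) (g : List (List Bool)) :
    part 2 (annB K y g) = giantW y g := by
  simp only [annB, cdb_part_append, cdb_part_ph_self]
  rw [cdb_part_ph_ne 2 0 (by decide)]
  simp

private theorem cdb_glen (ω : Om K) : (gl ω).flatten.length = K * K := by
  rw [List.length_flatten]
  have h4 : (gl ω).map List.length = List.replicate K K := by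
    apply List.ext_getElem
    · simp [length_gl]
    · intro i hi1 hi2
      rw [List.getElem_map, List.getElem_replicate]
      exact length_of_mem_gl ω _ (List.getElem_mem _)
  rw [h4]
  simp

private theorem cdb_ann_len (ω : Om K) :
    (annB K (yl ω) (gl ω)).length = K + K * (2 * K) + (K + K * K) := by
  simp only [annB, ph, List.length_append, List.length_map, length_ringW, length_yl]
  rw [length_giantW _ _ (by rw [length_yl, length_gl]), length_yl, cdb_glen]

private theorem cdb_mem_len {α : Type*} (L : List (List α)) (v : List α) (h : v ∈ L) :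
    v.length ≤ L.flatten.length := by
  obtain ⟨V1, V2, rfl⟩ := List.append_of_mem h
  simp only [List.flatten_append, List.flatten_cons, List.length_append]
  omega

theorem card_B (hN : ∀ w, N.Accepts w ↔ w ∈ Fifo) (R : Runs N K pad T) (z1 z2 : ℤ)
    (L n m : ℕ) (hL : 8 * L ≤ K) (hn : n = 4 * K * K + 2 * K + pad) (hm : z2 ≤ z1 + m) :
    (XB R (itv z1 z2) L).ncard ≤
      Nat.card N.Q * (2 * T + 1) * Nat.card N.G ^ m * (4 * Nat.card N.Q + 1) ^ L *
        (n + 2) ^ L * (2 ^ K * 2 ^ (K * K - K * K / 8 + 1)) := by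
  have hfinQ : Finite N.Q := N.finQ
  have hfinG : Finite N.G := N.finG
  set S := itv z1 z2 with hS
  -- first parts of the paths, and annotations
  have hsplit : ∀ ω : Om K, ∃ l1 l2, R.path ω = l1 ++ l2 ∧
      N.pword l1 = headW K (yl ω) (gl ω) ∧ N.pword l2 = tailW pad (gl ω) := fun ω =>
    N.path_split (R.path ω) _ _ (R.word ω)
  choose l1 l2 hl hw hw2 using hsplit
  choose vs hv1 hv2 hv3 using fun ω => exists_annB R S ω (l1 ω) (l2 ω) (hl ω) (hw ω)
  have hpath : ∀ ω, N.IsPath N.init (l1 ω) := by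
    intro ω
    have h1 := R.isPath ω
    rw [hl ω, N.isPath_append] at h1
    exact h1.1
  -- the finite sets
  set s1 : Set (N.Q × ℤ) :=
    Set.univ ×ˢ ((({z1, z1 + 1, z2, z2 + 1} : Finset ℤ)) : Set ℤ) with hs1
  have hs1f : s1.Finite := Set.Finite.prod Set.finite_univ (Finset.finite_toSet _)
  have hs1c : s1.ncard ≤ 4 * Nat.card N.Q := by
    rw [hs1, Set.ncard_prod, Set.ncard_univ, Set.ncard_coe_finset, mul_comm]
    exact Nat.mul_le_mul_right _ Finset.card_le_four
  obtain ⟨hA1f, hA1c⟩ := card_lists s1 hs1f L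
  set s2 : Set ℕ := ((Finset.range (n + 1) : Finset ℕ) : Set ℕ) with hs2
  have hs2c : s2.ncard = n + 1 := by rw [hs2, Set.ncard_coe_finset, Finset.card_range]
  obtain ⟨hA2f, hA2c⟩ := card_lists s2 (Finset.finite_toSet _) L
  rw [hs2c] at hA2c
  obtain ⟨hA7f, hA7c⟩ := card_bits (K * K - K * K / 8)
  set A1 := {l : List (N.Q × ℤ) | l.length ≤ L ∧ ∀ a ∈ l, a ∈ s1} with hA1
  set A2 := {l : List ℕ | l.length ≤ L ∧ ∀ a ∈ l, a ∈ s2} with hA2
  set A7 := {l : List Bool | l.length ≤ K * K - K * K / 8} with hA7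
  set A0 : Set N.Q := Set.univ with hA0
  set A3 : Set ℤ := ((Finset.Icc (-(T : ℤ)) T : Finset ℤ) : Set ℤ) with hA3
  set A4 : Set (Fin m → N.G) := Set.univ with hA4
  set A5 : Set (Fin K → Bool) := Set.univ with hA5
  have hA0c : A0.ncard = Nat.card N.Q := by rw [hA0, Set.ncard_univ]
  have hA3c : A3.ncard = 2 * T + 1 := by
    rw [hA3, Set.ncard_coe_finset, Int.card_Icc]
    omega
  have hA4c : A4.ncard = Nat.card N.G ^ m := by
    rw [hA4, Set.ncard_univ, Nat.card_fun]
    simp
  have hA5c : A5.ncard = 2 ^ K := by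
    rw [hA5, Set.ncard_univ, Nat.card_eq_fintype_card]
    simp
  set f : Om K → N.Q × ℤ × (Fin m → N.G) × List (N.Q × ℤ) × List ℕ × (Fin K → Bool) ×
      List Bool := fun ω =>
    ((N.endc N.init (l1 ω)).q, (N.endc N.init (l1 ω)).pos,
      (fun i : Fin m => (N.endc N.init (l1 ω)).tape (z1 + 1 + (i : ℕ))),
      N.msgs S N.init (l1 ω), (vs ω).map List.length, ω.1,
      evals (part 2 (trueSide (!S 0) (vs ω)))) with hf
  have hmsg : ∀ ω ∈ XB R S L, (N.msgs S N.init (l1 ω)).length < L := by
    intro ω hω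
    have h1 := hω.1
    rw [hl ω, N.msgs_append_length] at h1
    omega
  have hlen : ∀ ω ∈ XB R S L, (vs ω).length ≤ L := by
    intro ω hω
    have h1 := congrArg List.length (hv1 ω)
    rw [List.length_map, List.length_map, N.blocks_length] at h1
    have h2 := hmsg ω hω
    omega
  have hmaps : ∀ ω ∈ XB R S L, f ω ∈ A0 ×ˢ A3 ×ˢ A4 ×ˢ A1 ×ˢ A2 ×ˢ A5 ×ˢ A7 := by
    intro ω hω
    simp only [hf, Set.mem_prod]
    refine ⟨Set.mem_univ _, ?_, Set.mem_univ _, ⟨(hmsg ω hω).le, ?_⟩, ⟨?_, ?_⟩, Set.mem_univ _, ?_⟩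
    · have h1 := (N.pos_bound N.init (l1 ω) (hpath ω)).1
      have h2 : (l1 ω).length ≤ T := by
        have h3 := R.len ω
        rw [hl ω, List.length_append] at h3
        omega
      have h4 : N.init.pos = 0 := rfl
      rw [h4, sub_zero] at h1
      have h5 := abs_le.mp h1
      rw [hA3, Finset.mem_coe, Finset.mem_Icc]
      omega
    · intro a ha
      have h1 := N.msgs_pos_interval z1 z2 N.init (l1 ω) (hpath ω) a ha
      rw [hs1]
      refine ⟨Set.mem_univ _, ?_⟩
      simpa using h1
    · rw [List.length_map]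
      exact hlen ω hω
    · intro a ha
      rw [List.mem_map] at ha
      obtain ⟨v, hv, rfl⟩ := ha
      have h1 := cdb_mem_len _ v hv
      rw [hv2 ω, cdb_ann_len] at h1
      rw [hs2, Finset.mem_coe, Finset.mem_range, hn]
      nlinarith
    · have h1 := annB_enq ω (S 0) (vs ω) (hv2 ω)
      rw [hv3 ω] at h1
      have h2 := hω.2
      have h3 := flatten_sides (fun v : List (Fin 4 × QSym) => (evals (part 2 v)).length)
        (by simp [part, evals])
        (fun u v => by simp only [cdb_part_append, evals_append, List.length_append]) (S 0) (vs ω)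
      rw [hv2 ω] at h3
      simp only [cdb_part_two, evals_giantW (yl ω) (gl ω) (by rw [length_yl, length_gl]),
        cdb_glen] at h3
      have h4 : K * (vs ω).length ≤ K * L := Nat.mul_le_mul_left _ (hlen ω hω)
      have h5 : K * (8 * L) ≤ K * K := Nat.mul_le_mul_left _ hL
      have h6 : K * K ≤ K * (4 * ((gpos K (N.reads N.init (R.path ω))).filter S).length) :=
        Nat.mul_le_mul_left _ h2
      have h7 : K * (8 * L) = 8 * (K * L) := by ring
      have h8 : K * (4 * ((gpos K (N.reads N.init (R.path ω))).filter S).length) =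
          4 * (K * ((gpos K (N.reads N.init (R.path ω))).filter S).length) := by ring
      rw [hA7, Set.mem_ofPred_eq]
      omega
  have hinj : Set.InjOn f (XB R S L) := by
    intro ω hω ω' hω' he
    simp only [hf, Prod.mk.injEq] at he
    obtain ⟨e1, e2, e3, e4, e5, e6, e7⟩ := he
    have ht : ∀ z, S z = true →
        (N.endc N.init (l1 ω)).tape z = (N.endc N.init (l1 ω')).tape z := by
      intro z hz
      rw [hS] at hz
      simp only [itv, Bool.and_eq_true, decide_eq_true_eq] at hz
      have h1 := congrFun e3 ⟨(z - z1 - 1).toNat, by omega⟩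
      simp only at h1
      have h2 : z1 + 1 + (((z - z1 - 1).toNat : ℕ) : ℤ) = z := by omega
      rw [h2] at h1
      exact h1
    have h3 := class_B hN R S ω ω' (l1 ω) (l2 ω) (l1 ω') (l2 ω') (hl ω) (hw ω) (hl ω') (hw ω')
      (vs ω) (vs ω') (hv1 ω) (hv2 ω) (hv1 ω') (hv2 ω') e4 e5 e1 e2 ht e7
    have h4 : ω.2 = ω'.2 := by
      have h5 := List.ofFn_injective h3
      funext i
      exact List.ofFn_injective (congrFun h5 i)
    exact Prod.ext e6 h4
  have hPf : (A0 ×ˢ A3 ×ˢ A4 ×ˢ A1 ×ˢ A2 ×ˢ A5 ×ˢ A7).Finite := by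
    refine Set.finite_univ.prod (Set.Finite.prod (Finset.finite_toSet _) (Set.finite_univ.prod
      (hA1f.prod (hA2f.prod (Set.finite_univ.prod hA7f)))))
  have hmain := Set.ncard_le_ncard_of_injOn f hmaps hinj hPf
  simp only [Set.ncard_prod, hA0c, hA3c, hA4c, hA5c] at hmain
  refine hmain.trans ?_
  have hA1c' : A1.ncard ≤ (4 * Nat.card N.Q + 1) ^ L :=
    hA1c.trans (Nat.pow_le_pow_left (by omega) _)
  have hA2c' : A2.ncard ≤ (n + 2) ^ L := hA2c
  calc Nat.card N.Q * ((2 * T + 1) * (Nat.card N.G ^ m * (A1.ncard * (A2.ncard *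
        (2 ^ K * A7.ncard))))) =
        Nat.card N.Q * (2 * T + 1) * Nat.card N.G ^ m * A1.ncard * A2.ncard *
          (2 ^ K * A7.ncard) := by ring
    _ ≤ _ := by gcongr

end Pool.Agent.QT
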