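import Pool.Agent.QT.Defs

/-! Basic facts on the FIFO language and on the hard words. -/

namespace Pool.Agent.QT

open QSym

theorem qrun_append (C : List Bool) (u v : List QSym) :
    qrun C (u ++ v) = (qrun C u).bind fun C' => qrun C' v := by
  induction u generalizing C with
  | nil => rfl
  | cons a u ih =>
    simp only [List.cons_append, qrun, Option.bind_assoc]
    congr 1
    funext C'
    exact ih C'

theorem fifo_eq (w : List QSym) (C C' : List Bool) (h : qrun C w = some C') :
    C ++ evals w = dvals w ++ C' := by
  induction w generalizing C with
  | nil =>
    simp only [qrun, Option.some.injEq] at h
    simp [evals, dvals, h]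
  | cons a w ih =>
    simp only [qrun] at h
    cases a with
    | enq b =>
      simp only [qstep, Option.bind_some] at h
      have := ih _ h
      simpa [evals, dvals] using this
    | deq b =>
      cases C with
      | nil => simp [qstep] at h
      | cons c C =>
        simp only [qstep] at h
        by_cases hc : c = b
        · rw [if_pos hc] at h
          simp only [Option.bind_some] at h
          have := ih _ h
          simp [evals, dvals, hc, this]
        · rw [if_neg hc] at h
          simp at h

theorem evals_append (u v : List QSym) : evals (u ++ v) = evals u ++ evals v := by
  induction u with
  | nil => rfl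
  | cons a u ih => cases a <;> simp [evals, ih]

theorem dvals_append (u v : List QSym) : dvals (u ++ v) = dvals u ++ dvals v := by
  induction u with
  | nil => rfl
  | cons a u ih => cases a <;> simp [dvals, ih]

theorem evals_map_enq (y : List Bool) : evals (y.map enq) = y := by
  induction y with
  | nil => rfl
  | cons a u ih => simp [evals, ih]

theorem dvals_map_enq (y : List Bool) : dvals (y.map enq) = [] := by
  induction y with
  | nil => rfl
  | cons a u ih => simp [dvals, ih]

theorem evals_map_deq (y : List Bool) : evals (y.map deq) = [] := by
  induction y with
  | nil => rfl
  | cons a u ih => simp [evals, ih]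

theorem dvals_map_deq (y : List Bool) : dvals (y.map deq) = y := by
  induction y with
  | nil => rfl
  | cons a u ih => simp [dvals, ih]

theorem evals_rdW (y : List Bool) : evals (rdW y) = y := by
  induction y with
  | nil => rfl
  | cons a u ih =>
    simp only [rdW, List.flatMap_cons, evals_append] at ih ⊢
    rw [ih]; rfl

theorem dvals_rdW (y : List Bool) : dvals (rdW y) = y := by
  induction y with
  | nil => rfl
  | cons a u ih =>
    simp only [rdW, List.flatMap_cons, dvals_append] at ih ⊢
    rw [ih]; rfl

theorem evals_ringW (j : ℕ) (y : List Bool) : evals (ringW j y) = (List.replicate j y).flatten := by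
  induction j with
  | zero => rfl
  | succ j ih =>
    simp only [ringW, List.replicate_succ, List.flatten_cons, evals_append] at ih ⊢
    rw [ih, evals_rdW]

theorem dvals_ringW (j : ℕ) (y : List Bool) : dvals (ringW j y) = (List.replicate j y).flatten := by
  induction j with
  | zero => rfl
  | succ j ih =>
    simp only [ringW, List.replicate_succ, List.flatten_cons, dvals_append] at ih ⊢
    rw [ih, dvals_rdW]

theorem evals_giantW (y : List Bool) (g : List (List Bool)) (h : y.length = g.length) :
    evals (giantW y g) = g.flatten := by
  induction y generalizing g with
  | nil =>
    cases g with
    | nil => rfl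
    | cons a l => simp at h
  | cons b y ih =>
    cases g with
    | nil => simp at h
    | cons u g =>
      simp only [List.length_cons, add_left_inj] at h
      have := ih g h
      simp only [giantW, List.zipWith_cons_cons, List.flatten_cons, evals_append] at this ⊢
      rw [this]
      simp only [evals, evals_map_enq]

theorem dvals_giantW (y : List Bool) (g : List (List Bool)) (h : y.length = g.length) :
    dvals (giantW y g) = y := by
  induction y generalizing g with
  | nil =>
    cases g with
    | nil => rfl
    | cons a l => simp at h
  | cons b y ih =>
    cases g with
    | nil => simp at h
    | cons u g =>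
      simp only [List.length_cons, add_left_inj] at h
      have := ih g h
      simp only [giantW, List.zipWith_cons_cons, List.flatten_cons, dvals_append] at this ⊢
      rw [this]
      simp only [dvals, dvals_map_enq, List.cons_append, List.nil_append]

theorem length_rdW (y : List Bool) : (rdW y).length = 2 * y.length := by
  induction y with
  | nil => rfl
  | cons a u ih =>
    simp only [rdW, List.flatMap_cons, List.length_append, List.length_cons, List.length_nil]
      at ih ⊢
    rw [ih]; ring

theorem length_ringW (j : ℕ) (y : List Bool) : (ringW j y).length = j * (2 * y.length) := by
  induction j with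
  | zero => simp [ringW]
  | succ j ih =>
    simp only [ringW, List.replicate_succ, List.flatten_cons, List.length_append] at ih ⊢
    rw [ih, length_rdW]; ring

theorem length_giantW (y : List Bool) (g : List (List Bool)) (h : y.length = g.length) :
    (giantW y g).length = y.length + g.flatten.length := by
  induction y generalizing g with
  | nil =>
    cases g with
    | nil => rfl
    | cons a l => simp at h
  | cons b y ih =>
    cases g with
    | nil => simp at h
    | cons u g =>
      simp only [List.length_cons, add_left_inj] at h
      have := ih g h
      simp only [giantW, List.zipWith_cons_cons, List.flatten_cons, List.length_append,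
        List.length_cons, List.length_map] at this ⊢
      rw [this]; ring

theorem length_hardW (K pad : ℕ) (y : List Bool) (g : List (List Bool)) (hy : y.length = K)
    (hg : g.length = K) (hgs : ∀ u ∈ g, u.length = K) :
    (hardW K pad y g).length = 4 * K * K + 2 * K + pad := by
  have hgl : g.flatten.length = K * K := by
    rw [List.length_flatten]
    have : g.map List.length = List.replicate K K := by
      rw [List.eq_replicate_iff]
      refine ⟨by simp [hg], ?_⟩
      intro b hb
      obtain ⟨u, hu, rfl⟩ := List.mem_map.1 hb
      exact hgs u hu
    rw [this]; simp
  simp only [hardW, headW, tailW, List.length_append, List.length_map, length_ringW,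
    length_giantW y g (by rw [hy, hg]), List.length_replicate, hgl, hy]
  ring

private theorem FIFO_enq (C y : List Bool) : qrun C (y.map enq) = some (C ++ y) := by
  induction y generalizing C with
  | nil => simp [qrun]
  | cons a u ih =>
    simp only [List.map_cons, qrun, qstep, Option.bind_some]
    rw [ih]; simp

private theorem FIFO_deq (y C : List Bool) : qrun (y ++ C) (y.map deq) = some C := by
  induction y with
  | nil => simp [qrun]
  | cons a u ih =>
    simp only [List.map_cons, qrun, qstep, List.cons_append, if_true, Option.bind_some]
    exact ih

private theorem FIFO_rd (y C : List Bool) : qrun (y ++ C) (rdW y) = some (C ++ y) := by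
  induction y generalizing C with
  | nil => simp [rdW, qrun]
  | cons a u ih =>
    have e : rdW (a :: u) = deq a :: enq a :: rdW u := rfl
    rw [e]
    simp only [qrun, qstep, List.cons_append, if_true, Option.bind_some]
    have := ih (C ++ [a])
    rw [List.append_assoc] 
    rw [this]; simp

private theorem FIFO_ring (j : ℕ) (y : List Bool) : qrun y (ringW j y) = some y := by
  induction j with
  | zero => simp [ringW, qrun]
  | succ j ih =>
    have e : ringW (j + 1) y = rdW y ++ ringW j y := by
      simp [ringW, List.replicate_succ]
    rw [e, qrun_append]
    have := FIFO_rd y []
    simp only [List.append_nil, List.nil_append] at this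
    rw [this]
    simpa using ih

private theorem FIFO_giant (y : List Bool) (g : List (List Bool)) (h : y.length = g.length)
    (C : List Bool) : qrun (y ++ C) (giantW y g) = some (C ++ g.flatten) := by
  induction y generalizing g C with
  | nil =>
    cases g with
    | nil => simp [giantW, qrun]
    | cons a l => simp at h
  | cons b y ih =>
    cases g with
    | nil => simp at h
    | cons u g =>
      simp only [List.length_cons, add_left_inj] at h
      have e : giantW (b :: y) (u :: g) = deq b :: (u.map enq ++ giantW y g) := by
        simp [giantW]
      rw [e]
      simp only [qrun, qstep, List.cons_append, if_true, Option.bind_some]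
      rw [qrun_append, FIFO_enq]
      simp only [Option.bind_some]
      have := ih g h (C ++ u)
      rw [← List.append_assoc] at this
      rw [this]
      simp

/-- the hard words are legal -/
theorem hardW_mem (K pad : ℕ) (y : List Bool) (g : List (List Bool)) (hy : y.length = K)
    (hg : g.length = K) : hardW K pad y g ∈ Fifo := by
  refine ⟨List.replicate pad false, ?_⟩
  unfold hardW headW tailW
  rw [qrun_append, qrun_append, qrun_append, FIFO_enq]
  simp only [List.nil_append, Option.bind_some]
  rw [FIFO_ring]
  simp only [Option.bind_some]
  have h1 := FIFO_giant y g (by rw [hy, hg]) []
  simp only [List.append_nil, List.nil_append] at h1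
  rw [h1]
  simp only [Option.bind_some]
  rw [qrun_append]
  have h2 := FIFO_deq g.flatten []
  simp only [List.append_nil] at h2
  rw [h2]
  simp only [Option.bind_some]
  have h3 : List.replicate pad (enq false) = (List.replicate pad false).map enq := by simp
  rw [h3, FIFO_enq]
  simp

end Pool.Agent.QT
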