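import Pool.Agent.QT.LISTSA
import Pool.Agent.QT.FIFO

/-! Chains, annotation, intact rotation, factors of the long round. -/

namespace Pool.Agent.QT

open QSym

private theorem LISTSB_head_mixb {α : Type*} (b : Bool) (us vs : List (List α))
    (hh : us.map List.head? = vs.map List.head?) :
    (mixb b us vs).map List.head? = us.map List.head? := by
  induction us generalizing b vs with
  | nil => cases b <;> cases vs <;> simp [mixb]
  | cons u us ih =>
    cases vs with
    | nil => simp at hh
    | cons v vs =>
      simp only [List.map_cons, List.cons.injEq] at hh
      simp only [mixb, List.map_cons, ih (!b) vs hh.2]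
      cases b
      · rfl
      · simp [hh.1]

private theorem LISTSB_head_flatten {α : Type*} (us vs : List (List α))
    (hh : us.map List.head? = vs.map List.head?) : us.flatten.head? = vs.flatten.head? := by
  induction us generalizing vs with
  | nil =>
    cases vs with
    | nil => rfl
    | cons v vs => simp at hh
  | cons u us ih =>
    cases vs with
    | nil => simp at hh
    | cons v vs =>
      simp only [List.map_cons, List.cons.injEq] at hh
      have := ih vs hh.2
      simp only [List.flatten_cons, List.head?_append, this, hh.1]

/-- mixing two chains with the same first symbols of all blocks gives a chain -/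
theorem chain_mixb {α : Type*} (R : α → α → Prop) (b : Bool) (us vs : List (List α))
    (hu : us.flatten.IsChain R) (hv : vs.flatten.IsChain R)
    (hh : us.map List.head? = vs.map List.head?) :
    (mixb b us vs).flatten.IsChain R := by
  induction us generalizing b vs with
  | nil => cases b <;> cases vs <;> simp [mixb]
  | cons u us ih =>
    cases vs with
    | nil => cases b <;> simp [mixb]
    | cons v vs =>
      simp only [List.map_cons, List.cons.injEq] at hh
      rw [List.flatten_cons, List.isChain_append] at hu hv
      have hh1 : (mixb (!b) us vs).flatten.head? = us.flatten.head? :=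
        LISTSB_head_flatten _ _ (LISTSB_head_mixb (!b) us vs hh.2)
      have hh2 : us.flatten.head? = vs.flatten.head? := LISTSB_head_flatten _ _ hh.2
      have h3 := ih (!b) vs hu.2.1 hv.2.1 hh.2
      simp only [mixb, List.flatten_cons]
      rw [List.isChain_append]
      cases b
      · refine ⟨hu.1, h3, ?_⟩
        rw [hh1]
        exact hu.2.2
      · refine ⟨hv.1, h3, ?_⟩
        rw [hh1, hh2]
        exact hv.2.2

/-- annotation of blocks -/
theorem exists_ann {α β : Type*} (f : β → α) (us : List (List α)) (W : List β)
    (h : W.map f = us.flatten) : ∃ vs : List (List β), vs.map (List.map f) = us ∧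
      vs.flatten = W := by
  induction us generalizing W with
  | nil =>
    simp only [List.flatten_nil, List.map_eq_nil_iff] at h
    exact ⟨[], rfl, by simp [h]⟩
  | cons u us ih =>
    rw [List.flatten_cons, List.map_eq_append_iff] at h
    obtain ⟨W1, W2, rfl, h1, h2⟩ := h
    obtain ⟨vs, h3, h4⟩ := ih W2 h2
    exact ⟨W1 :: vs, by simp [h1, h3], by simp [h4]⟩

/-- fewer than `K` cuts leave one of `K` consecutive copies of a nonempty word intact -/
theorem unbroken {α : Type*} (pre rd rest : List α) (hrd : rd ≠ []) (K : ℕ)
    (us : List (List α)) (hK : us.length ≤ K) (hus : us ≠ [])
    (h : us.flatten = pre ++ (List.replicate K rd).flatten ++ rest) :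
    ∃ r < K, ∃ V1 a b V2, us = V1 ++ (a ++ rd ++ b) :: V2 ∧
      V1.flatten ++ a = pre ++ (List.replicate r rd).flatten := by
  induction us generalizing pre K with
  | nil => exact absurd rfl hus
  | cons u us ih =>
    obtain ⟨K', rfl⟩ : ∃ K', K = K' + 1 := ⟨K - 1, by simp only [List.length_cons] at hK; omega⟩
    have h' : u ++ us.flatten = (pre ++ rd) ++ ((List.replicate K' rd).flatten ++ rest) := by
      rw [List.flatten_cons] at h
      rw [h, List.replicate_succ, List.flatten_cons]
      simp [List.append_assoc]
    rcases le_or_gt (pre ++ rd).length u.length with hlen | hlen
    · rw [List.append_eq_append_iff] at h'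
      rcases h' with ⟨a', h1, h2⟩ | ⟨c', h1, h2⟩
      · have ha : a' = [] := by
          have := congrArg List.length h1
          simp only [List.length_append] at this hlen
          exact List.length_eq_zero_iff.1 (by omega)
        subst ha
        rw [List.append_nil] at h1
        exact ⟨0, by omega, [], pre, [], us, by simp [h1], by simp⟩
      · exact ⟨0, by omega, [], pre, c', us, by simp [h1], by simp⟩
    · rw [List.append_eq_append_iff] at h'
      have hp : ∃ a', pre ++ rd = u ++ a' ∧
          us.flatten = a' ++ ((List.replicate K' rd).flatten ++ rest) := by
        rcases h' with ⟨a', h1, h2⟩ | ⟨c', h1, h2⟩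
        · exact ⟨a', h1, h2⟩
        · exfalso
          have := congrArg List.length h1
          simp only [List.length_append] at this hlen
          omega
      obtain ⟨a', h1, h2⟩ := hp
      have hane : a' ≠ [] := by
        rintro rfl
        rw [List.append_nil] at h1
        rw [h1] at hlen
        exact lt_irrefl _ hlen
      have husne : us ≠ [] := by
        rintro rfl
        simp only [List.flatten_nil] at h2
        have := h2.symm
        rw [List.append_eq_nil_iff] at this
        exact hane this.1
      obtain ⟨r, hr, V1, a, b, V2, h3, h4⟩ := ih a' K'
        (by simp only [List.length_cons] at hK; omega) husne (by rw [h2, List.append_assoc])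
      refine ⟨r + 1, by omega, u :: V1, a, b, V2, by rw [h3]; rfl, ?_⟩
      rw [List.flatten_cons, List.append_assoc, h4, List.replicate_succ, List.flatten_cons,
        ← List.append_assoc, ← List.append_assoc, h1]

/-- two lists with equal block lengths and equal concatenations over both sides are equal -/
theorem sides_inj {α : Type*} (b : Bool) (us vs : List (List α))
    (hl : us.map List.length = vs.map List.length) (h1 : trueSide b us = trueSide b vs)
    (h2 : trueSide (!b) us = trueSide (!b) vs) : us = vs := by
  induction us generalizing b vs with
  | nil =>
    cases vs with
    | nil => rfl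
    | cons v vs => simp at hl
  | cons u us ih =>
    cases vs with
    | nil => simp at hl
    | cons v vs =>
      simp only [List.map_cons, List.cons.injEq] at hl
      simp only [trueSide, Bool.not_not] at h1 h2
      cases b
      · simp only [Bool.false_eq_true, if_false, List.nil_append, Bool.not_false, if_true]
          at h1 h2
        obtain ⟨h3, h4⟩ := List.append_inj h2 hl.1
        rw [h3, ih true vs hl.2 h1 h4]
      · simp only [Bool.false_eq_true, if_false, List.nil_append, Bool.not_true, if_true]
          at h1 h2
        obtain ⟨h3, h4⟩ := List.append_inj h1 hl.1
        rw [h3, ih false vs hl.2 h4 h2]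

private theorem LISTSB_giant_cons (b : Bool) (y : List Bool) (u : List Bool)
    (g : List (List Bool)) :
    giantW (b :: y) (u :: g) = (deq b :: u.map enq) ++ giantW y g := by
  simp [giantW]

private theorem LISTSB_prefix (s : ℕ) (y : List Bool) (g : List (List Bool))
    (hg : ∀ u ∈ g, u.length = s) (u q : List QSym) (h : giantW y g = u ++ q) :
    s * (dvals u).length ≤ (evals u).length + s := by
  induction y generalizing g u with
  | nil =>
    have : u = [] := by
      have h' : u ++ q = [] := by rw [← h]; simp [giantW]
      exact (List.append_eq_nil_iff.1 h').1
    simp [this, dvals]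
  | cons b y ih =>
    cases g with
    | nil =>
      have : u = [] := by
        have h' : u ++ q = [] := by rw [← h]; simp [giantW]
        exact (List.append_eq_nil_iff.1 h').1
      simp [this, dvals]
    | cons g0 g =>
      rw [LISTSB_giant_cons] at h
      have hH1 : dvals (deq b :: g0.map enq) = [b] := by simp [dvals, dvals_map_enq]
      have hH2 : evals (deq b :: g0.map enq) = g0 := by simp [evals, evals_map_enq]
      rcases List.append_eq_append_iff.1 h with ⟨a', h1, h2⟩ | ⟨c', h1, h2⟩
      · have := ih g (fun v hv => hg v (List.mem_cons_of_mem _ hv)) a' h2
        rw [h1, dvals_append, evals_append, hH1, hH2, List.length_append, List.length_append,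
          hg g0 (by simp), List.length_singleton]
        nlinarith
      · have h3 : (dvals u).length ≤ 1 := by
          have := congrArg (fun l => (dvals l).length) h1
          simp only [dvals_append, hH1, List.length_append, List.length_singleton] at this
          omega
        calc s * (dvals u).length ≤ s * 1 := Nat.mul_le_mul_left _ h3
          _ ≤ _ := by omega

/-- a factor of the long round contains many `enq` symbols -/
theorem giant_factor (s : ℕ) (y : List Bool) (g : List (List Bool))
    (hg : ∀ u ∈ g, u.length = s) (p u q : List QSym) (h : giantW y g = p ++ u ++ q) :
    s * (dvals u).length ≤ (evals u).length + s := by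
  induction y generalizing g p with
  | nil =>
    have : u = [] := by
      have h' : p ++ (u ++ q) = [] := by rw [← List.append_assoc, ← h]; simp [giantW]
      exact (List.append_eq_nil_iff.1 (List.append_eq_nil_iff.1 h').2).1
    simp [this, dvals]
  | cons b y ih =>
    cases g with
    | nil =>
      have : u = [] := by
        have h' : p ++ (u ++ q) = [] := by rw [← List.append_assoc, ← h]; simp [giantW]
        exact (List.append_eq_nil_iff.1 (List.append_eq_nil_iff.1 h').2).1
      simp [this, dvals]
    | cons g0 g =>
      have hh := h
      rw [LISTSB_giant_cons, List.append_assoc] at h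
      have hg' : ∀ v ∈ g, v.length = s := fun v hv => hg v (List.mem_cons_of_mem _ hv)
      rcases List.append_eq_append_iff.1 h with ⟨a', h1, h2⟩ | ⟨c', h1, h2⟩
      · exact ih g hg' a' (by rw [h2, List.append_assoc])
      · -- h1 : H = p ++ c', h2 : u ++ q = c' ++ giantW y g
        cases p with
        | nil =>
          apply LISTSB_prefix s (b :: y) (g0 :: g) hg u q
          simpa using hh
        | cons x p =>
          simp only [List.cons_append, List.cons.injEq] at h1
          have hc0 : dvals c' = [] := by
            have := congrArg dvals h1.2
            rw [dvals_append, dvals_map_enq] at this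
            exact (List.append_eq_nil_iff.1 this.symm).2
          rcases List.append_eq_append_iff.1 h2 with ⟨a', h3, h4⟩ | ⟨d', h3, h4⟩
          · -- c' = u ++ a'
            have : dvals u = [] := by
              rw [h3, dvals_append] at hc0
              exact (List.append_eq_nil_iff.1 hc0).1
            simp [this]
          · -- u = c' ++ d'
            have := LISTSB_prefix s y g hg' d' q h4
            rw [h3, dvals_append, evals_append, hc0, List.nil_append, List.length_append]
            omega

end Pool.Agent.QT
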