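import Pool.Agent.QT.FIFO
import Pool.Agent.QT.LISTSB

/-! The combinatorial core of the crossing bound. -/

namespace Pool.Agent.QT

open QSym

private def cStep : QSym → QSym → Prop
  | deq v, enq v' => v = v'
  | enq _, deq _ => True
  | _, _ => False

private def cDeq : QSym → Prop
  | deq _ => True
  | enq _ => False

private def cR (x y : Fin 4 × QSym) : Prop :=
  x.1 ≤ y.1 ∧ (y.1 = 1 → (x.1 = 1 → cStep x.2 y.2) ∧ (x.1 = 0 → cDeq y.2)) ∧
    (x.1 = 1 → 2 ≤ y.1 → ¬ cDeq x.2)

private theorem ringW_eq (j : ℕ) (y : List Bool) :
    ringW j y = rdW (List.replicate j y).flatten := by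
  induction j with
  | zero => simp [ringW, rdW]
  | succ j ih =>
    have h1 : ringW (j + 1) y = rdW y ++ ringW j y := by simp [ringW, List.replicate_succ]
    rw [h1, ih]
    simp [rdW, List.replicate_succ]

private theorem ph_head (p : Fin 4) (w : List QSym) (z : Fin 4 × QSym)
    (h : z ∈ (ph p w).head?) : z.1 = p := by
  have h1 : z ∈ ph p w := List.mem_of_mem_head? h
  simp only [ph, List.mem_map] at h1
  obtain ⟨a, _, rfl⟩ := h1
  rfl

private theorem ph_last (p : Fin 4) (w : List QSym) (z : Fin 4 × QSym)
    (h : z ∈ (ph p w).getLast?) : z.1 = p := by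
  have h1 : z ∈ ph p w := List.mem_of_mem_getLast? h
  simp only [ph, List.mem_map] at h1
  obtain ⟨a, _, rfl⟩ := h1
  rfl

private theorem ph_chain (p : Fin 4) (hp : p ≠ 1) (w : List QSym) : (ph p w).IsChain cR := by
  unfold ph
  rw [List.isChain_map]
  induction w with
  | nil => exact List.IsChain.nil
  | cons a w ih =>
    cases w with
    | nil => exact List.IsChain.singleton _
    | cons b w =>
      refine List.IsChain.cons_cons ?_ ih
      refine ⟨le_rfl, fun h => absurd h hp, fun h => absurd h hp⟩

private theorem ph_rd_chain (z : List Bool) : (ph 1 (rdW z)).IsChain cR := by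
  induction z with
  | nil => exact List.IsChain.nil
  | cons v z ih =>
    have h1 : ph 1 (rdW (v :: z)) = (1, deq v) :: (1, enq v) :: ph 1 (rdW z) := by
      simp [ph, rdW]
    rw [h1]
    refine List.IsChain.cons_cons ?_ ?_
    · exact ⟨le_rfl, fun _ => ⟨fun _ => rfl, fun h => absurd h one_ne_zero⟩,
        fun _ h => absurd h (by simp)⟩
    · cases z with
      | nil => exact List.IsChain.singleton _
      | cons u z =>
        have h2 : ph 1 (rdW (u :: z)) = (1, deq u) :: (1, enq u) :: ph 1 (rdW z) := by
          simp [ph, rdW]
        rw [h2] at ih ⊢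
        refine List.IsChain.cons_cons ?_ ih
        exact ⟨le_rfl, fun _ => ⟨fun _ => trivial, fun h => absurd h one_ne_zero⟩,
          fun _ h => absurd h (by simp)⟩

private theorem rd_head (z : List Bool) (x : Fin 4 × QSym) (h : x ∈ (ph 1 (rdW z)).head?) :
    cDeq x.2 := by
  cases z with
  | nil => simp [ph, rdW] at h
  | cons v z =>
    have h1 : ph 1 (rdW (v :: z)) = (1, deq v) :: (1, enq v) :: ph 1 (rdW z) := by
      simp [ph, rdW]
    rw [h1] at h
    simp only [List.head?_cons, Option.mem_def, Option.some.injEq] at h
    subst h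
    trivial

private theorem rd_last (z : List Bool) (x : Fin 4 × QSym)
    (h : x ∈ (ph 1 (rdW z)).getLast?) : ¬ cDeq x.2 := by
  induction z with
  | nil => simp [ph, rdW] at h
  | cons v z ih =>
    have h1 : ph 1 (rdW (v :: z)) = [(1, deq v), (1, enq v)] ++ ph 1 (rdW z) := by
      simp [ph, rdW]
    rw [h1] at h
    cases z with
    | nil =>
      simp only [ph, rdW, List.flatMap_nil, List.map_nil, List.append_nil] at h
      simp only [List.getLast?_cons_cons, List.getLast?_singleton, Option.mem_def,
        Option.some.injEq] at h
      subst h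
      exact fun h => h
    | cons u z =>
      apply ih
      have h2 : ph 1 (rdW (u :: z)) = (1, deq u) :: (1, enq u) :: ph 1 (rdW z) := by
        simp [ph, rdW]
      rw [h2] at h ⊢
      rw [List.getLast?_append_of_ne_nil _ (by simp)] at h
      exact h

private theorem annA_chain (K pad r : ℕ) (y : List Bool) (g : List (List Bool)) :
    (annA K pad r y g).IsChain cR := by
  unfold annA
  rw [ringW_eq (K - r) y, List.append_assoc, List.append_assoc]
  set z := (List.replicate (K - r) y).flatten
  have h23 : (ph 2 (giantW y g) ++ ph 3 (tailW pad g)).IsChain cR := by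
    rw [List.isChain_append]
    refine ⟨ph_chain 2 (by decide) _, ph_chain 3 (by decide) _, ?_⟩
    intro a ha b hb
    have h1 := ph_last _ _ _ ha
    have h2 := ph_head _ _ _ hb
    refine ⟨by rw [h1, h2]; decide, fun h => ?_, fun h => ?_⟩
    · rw [h2] at h; exact absurd h (by decide)
    · rw [h1] at h; exact absurd h (by decide)
  have hd23 : ∀ b ∈ (ph 2 (giantW y g) ++ ph 3 (tailW pad g)).head?, 2 ≤ b.1 := by
    intro b hb
    have h1 : b ∈ ph 2 (giantW y g) ++ ph 3 (tailW pad g) := List.mem_of_mem_head? hb
    simp only [ph, List.mem_append, List.mem_map] at h1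
    rcases h1 with ⟨a, _, rfl⟩ | ⟨a, _, rfl⟩
    · exact (by decide : (2 : Fin 4) ≤ 2)
    · exact (by decide : (2 : Fin 4) ≤ 3)
  have h123 : (ph 1 (rdW z) ++ (ph 2 (giantW y g) ++ ph 3 (tailW pad g))).IsChain cR := by
    rw [List.isChain_append]
    refine ⟨ph_rd_chain z, h23, ?_⟩
    intro a ha b hb
    have h1 := ph_last _ _ _ ha
    have h2 := hd23 b hb
    refine ⟨?_, fun h => ?_, fun _ _ => rd_last z a ha⟩
    · rw [h1]; exact le_trans (by decide) h2
    · rw [h] at h2; exact absurd h2 (by decide)
  rw [List.isChain_append]
  refine ⟨ph_chain 0 (by decide) _, h123, ?_⟩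
  intro a ha b hb
  have h1 := ph_last _ _ _ ha
  refine ⟨by rw [h1]; exact Fin.zero_le _, fun h => ⟨fun h' => ?_, fun _ => ?_⟩, fun h => ?_⟩
  · rw [h1] at h'; exact absurd h' (by decide)
  · rw [List.head?_append] at hb
    cases hz : (ph 1 (rdW z)).head? with
    | none =>
      rw [hz] at hb
      simp only [Option.none_or] at hb
      have h2 := hd23 b hb
      rw [h] at h2
      exact absurd h2 (by decide)
    | some c =>
      rw [hz] at hb
      simp only [Option.some_or, Option.mem_def, Option.some.injEq] at hb
      subst hb
      exact rd_head z _ hz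
  · rw [h1] at h; exact absurd h (by decide)

private theorem part_append (p : Fin 4) (u v : List (Fin 4 × QSym)) :
    part p (u ++ v) = part p u ++ part p v := by
  simp [part]

private theorem part_nil (p : Fin 4) : part p [] = [] := by
  simp [part]

private theorem part_ph_self (p : Fin 4) (w : List QSym) : part p (ph p w) = w := by
  induction w with
  | nil => rfl
  | cons a w ih =>
    have h1 : ph p (a :: w) = [(p, a)] ++ ph p w := rfl
    rw [h1, part_append, ih]
    simp [part]

private theorem part_ph_ne (p q : Fin 4) (h : p ≠ q) (w : List QSym) : part p (ph q w) = [] := by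
  simp only [part, ph, List.map_eq_nil_iff, List.filter_eq_nil_iff, List.mem_map]
  rintro x ⟨a, _, rfl⟩
  simp [Ne.symm h]

private theorem part_none (p : Fin 4) (w : List (Fin 4 × QSym)) (h : ∀ e ∈ w, e.1 ≠ p) :
    part p w = [] := by
  simp only [part, List.map_eq_nil_iff, List.filter_eq_nil_iff]
  intro x hx
  simp [h x hx]

private theorem part_cons (p : Fin 4) (x : Fin 4 × QSym) (m : List (Fin 4 × QSym)) :
    part p (x :: m) = (if x.1 = p then [x.2] else []) ++ part p m := by
  by_cases h : x.1 = p <;> simp [part, h]

private theorem sorted_split (m : List (Fin 4 × QSym))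
    (h : m.Pairwise fun x y => x.1 ≤ y.1) :
    m = ph 0 (part 0 m) ++ (ph 1 (part 1 m) ++ (ph 2 (part 2 m) ++ ph 3 (part 3 m))) := by
  induction m with
  | nil => simp [part, ph]
  | cons x m ih =>
    rw [List.pairwise_cons] at h
    have ih' := ih h.2
    obtain ⟨p, a⟩ := x
    have hno : ∀ q : Fin 4, q < p → part q m = [] := by
      intro q hq
      apply part_none
      intro e he
      exact (lt_of_lt_of_le hq (h.1 e he)).ne'
    simp only [part_cons]
    fin_cases p
    · simp only [ph, List.map_append, List.append_assoc] at ih' ⊢
      simp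
      exact ih'
    · rw [hno 0 (by decide)] at ih' ⊢
      simp only [ph, List.map_append, List.append_assoc] at ih' ⊢
      simp at ih' ⊢
      exact ih'
    · rw [hno 0 (by decide), hno 1 (by decide)] at ih' ⊢
      simp only [ph, List.map_append, List.append_assoc] at ih' ⊢
      simp at ih' ⊢
      exact ih'
    · rw [hno 0 (by decide), hno 1 (by decide), hno 2 (by decide)] at ih' ⊢
      simp only [ph, List.map_append, List.append_assoc] at ih' ⊢
      simp at ih' ⊢
      exact ih'

private theorem struct_aux (z : Fin 4 × QSym) (rest : List (Fin 4 × QSym)) (hz : 2 ≤ z.1) :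
    ∀ (n : ℕ) (B : List QSym) (x : Fin 4 × QSym), B.length ≤ n →
      (x.1 = 0 ∨ (x.1 = 1 ∧ ¬ cDeq x.2)) → (x :: (ph 1 B ++ z :: rest)).IsChain cR →
      ∃ ws, B = rdW ws := by
  intro n
  induction n with
  | zero =>
    intro B x hB _ _
    have : B = [] := List.length_eq_zero_iff.mp (Nat.le_zero.mp hB)
    exact ⟨[], by simp [this, rdW]⟩
  | succ n ih =>
    intro B x hB hx hc
    cases B with
    | nil => exact ⟨[], by simp [rdW]⟩
    | cons b1 B =>
      have h1 : ph 1 (b1 :: B) = (1, b1) :: ph 1 B := rfl
      rw [h1, List.cons_append, List.isChain_cons_cons] at hc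
      obtain ⟨hc1, hc2⟩ := hc
      have hb1 : cDeq b1 := by
        rcases hx with hx | ⟨hx, hx'⟩
        · exact (hc1.2.1 rfl).2 hx
        · have := (hc1.2.1 rfl).1 hx
          obtain ⟨x1, x2⟩ := x
          cases x2 with
          | deq v => exact absurd trivial hx'
          | enq v =>
            cases b1 with
            | deq _ => trivial
            | enq _ => exact absurd this (fun h => h)
      cases b1 with
      | enq v => exact absurd hb1 (fun h => h)
      | deq v =>
        cases B with
        | nil =>
          have h2 : ph 1 ([] : List QSym) = [] := rfl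
          rw [h2, List.nil_append, List.isChain_cons_cons] at hc2
          exact absurd hb1 (hc2.1.2.2 rfl hz)
        | cons b2 B =>
          have h3 : ph 1 (b2 :: B) = (1, b2) :: ph 1 B := rfl
          rw [h3, List.cons_append, List.isChain_cons_cons] at hc2
          obtain ⟨hc3, hc4⟩ := hc2
          have h4 := (hc3.2.1 rfl).1 rfl
          cases b2 with
          | deq v' => exact absurd h4 (fun h => h)
          | enq v' =>
            have h5 : v = v' := h4
            subst h5
            obtain ⟨ws, hws⟩ := ih B (1, enq v) (by
              simp only [List.length_cons] at hB; omega) (Or.inr ⟨rfl, fun h => h⟩) hc4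
            exact ⟨v :: ws, by rw [hws]; simp [rdW]⟩

private theorem struct_rd (A B C D : List QSym) (hA : A ≠ []) (hC : C ≠ [])
    (hc : (ph 0 A ++ (ph 1 B ++ (ph 2 C ++ ph 3 D))).IsChain cR) : ∃ ws, B = rdW ws := by
  obtain ⟨A', a, rfl⟩ : ∃ A' a, A = A' ++ [a] :=
    ⟨A.dropLast, A.getLast hA, (List.dropLast_append_getLast hA).symm⟩
  obtain ⟨c, C', rfl⟩ : ∃ c C', C = c :: C' := by
    cases C with
    | nil => exact absurd rfl hC
    | cons c C' => exact ⟨c, C', rfl⟩
  have h1 : ph 0 (A' ++ [a]) ++ (ph 1 B ++ (ph 2 (c :: C') ++ ph 3 D)) =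
      ph 0 A' ++ ((0, a) :: (ph 1 B ++ (2, c) :: (ph 2 C' ++ ph 3 D))) := by
    simp [ph]
  rw [h1, List.isChain_append] at hc
  exact struct_aux (2, c) _ (le_refl (2 : Fin 4)) B.length B (0, a) le_rfl (Or.inl rfl) hc.2.1

private theorem addSide_eq {α : Type*} (f : List α → ℕ)
    (ha : ∀ u v, f (u ++ v) = f u + f v) (b : Bool) (us vs : List (List α))
    (h : us.map f = vs.map f) : f (trueSide b us) = f (trueSide b vs) := by
  induction us generalizing b vs with
  | nil =>
    cases vs with
    | nil => rfl
    | cons v vs => simp at h
  | cons u us ih =>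
    cases vs with
    | nil => simp at h
    | cons v vs =>
      simp only [List.map_cons, List.cons.injEq] at h
      simp only [trueSide, ha]
      rw [ih (!b) vs h.2]
      cases b
      · simp
      · simp [h.1]

private theorem mix_map_eq {α : Type*} (f : List α → ℕ) (b : Bool) (us vs : List (List α))
    (h : us.map f = vs.map f) : (mixb b us vs).map f = us.map f := by
  induction us generalizing b vs with
  | nil =>
    cases vs with
    | nil => rfl
    | cons v vs => simp at h
  | cons u us ih =>
    cases vs with
    | nil => simp at h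
    | cons v vs =>
      simp only [List.map_cons, List.cons.injEq] at h
      simp only [mixb, List.map_cons]
      rw [ih (!b) vs h.2]
      cases b
      · simp
      · simp [h.1]

private theorem hom_flatten {α β : Type*} (f : List α → List β) (h0 : f [] = [])
    (ha : ∀ u v, f (u ++ v) = f u ++ f v) (us : List (List α)) :
    f us.flatten = (us.map f).flatten := by
  induction us with
  | nil => simp [h0]
  | cons u us ih => simp [ha, ih]

private theorem hom_side {α β : Type*} (f : List α → List β) (h0 : f [] = [])
    (ha : ∀ u v, f (u ++ v) = f u ++ f v) (b : Bool) (us : List (List α)) :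
    f (trueSide b us) = trueSide b (us.map f) := by
  induction us generalizing b with
  | nil => simp [trueSide, h0]
  | cons u us ih =>
    simp only [trueSide, List.map_cons, ha, ih (!b)]
    cases b <;> simp [h0]

private theorem shift_eq (y : List Bool) : ∀ (n : ℕ) (w C : List Bool),
    w.length = n * y.length → y ++ w = w ++ C → C = y := by
  intro n
  induction n with
  | zero =>
    intro w C hw h
    have : w = [] := List.length_eq_zero_iff.mp (by simpa using hw)
    subst this
    simpa using h.symm
  | succ n ih =>
    intro w C hw h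
    have hle : y.length ≤ w.length := by rw [hw]; nlinarith
    have h1 : w.take y.length = y := by
      have := congrArg (List.take y.length) h
      rw [List.take_left, List.take_append_of_le_length hle] at this
      exact this.symm
    obtain ⟨w', hw'⟩ : ∃ w', w = y ++ w' := ⟨w.drop y.length, by
      conv_lhs => rw [← List.take_append_drop y.length w, h1]⟩
    subst hw'
    rw [List.append_assoc y w' C] at h
    have h2 := List.append_cancel_left h
    refine ih w' C ?_ h2
    rw [List.length_append] at hw
    have : (n + 1) * y.length = n * y.length + y.length := by ring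
    omega

private theorem last_eq (X y U C : List Bool) (h : X ++ y = U ++ C) (hl : C.length = y.length) :
    C = y := by
  have h1 : X.length = U.length := by
    have := congrArg List.length h
    simp only [List.length_append] at this
    omega
  exact (List.append_inj h h1).2.symm

private theorem net_add (u v : List QSym) : net (u ++ v) = net u + net v := by
  simp only [net, evals_append, dvals_append, List.length_append]
  push_cast
  ring

private theorem net_nil : net [] = 0 := by simp [net, evals, dvals]

theorem coreA {K pad : ℕ} {b0 : Bool} {y y' : List Bool} {g g' : List (List Bool)} {r r' j0 : ℕ}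
    {vs vs' : List (List (Fin 4 × QSym))}
    (hy : y.length = K) (hy' : y'.length = K) (hg : g.length = K) (hg' : g'.length = K)
    (h : AnnBlocks K pad b0 y g r j0 vs) (h' : AnnBlocks K pad b0 y' g' r' j0 vs')
    (heads : vs.map List.head? = vs'.map List.head?)
    (hnet : net (part 0 (trueSide b0 vs)) = net (part 0 (trueSide b0 vs')))
    (hrot : (dvals (part 1 (trueSide b0 vs))).length = (dvals (part 1 (trueSide b0 vs'))).length)
    (hcnt : vs.map (fun v => (dvals (part 2 v)).length) =
      vs'.map (fun v => (dvals (part 2 v)).length))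
    (hmem : (mixb b0 vs vs').flatten.map Prod.snd ∈ Fifo) :
    dvals (part 2 (trueSide b0 vs)) = dvals (part 2 (trueSide b0 vs')) := by
  have hlen : vs.length = vs'.length := by
    have := congrArg List.length heads
    simpa using this
  have hK : 1 ≤ K := le_trans h.pos h.le
  set m := (mixb b0 vs vs').flatten with hm
  -- the mixture is a chain
  have hchain : m.IsChain cR := by
    apply chain_mixb cR b0 vs vs' _ _ heads
    · rw [h.flat]; exact annA_chain _ _ _ _ _
    · rw [h'.flat]; exact annA_chain _ _ _ _ _
  have hsort : m.Pairwise fun x y => x.1 ≤ y.1 := by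
    have h1 : m.IsChain fun x y => x.1 ≤ y.1 := hchain.imp fun _ _ hab => hab.1
    have : IsTrans (Fin 4 × QSym) (fun x y => x.1 ≤ y.1) := ⟨fun _ _ _ hab hbc => le_trans hab hbc⟩
    exact List.isChain_iff_pairwise.mp h1
  have hsplit := sorted_split m hsort
  -- parts of the flattened blocks of the first word
  have fp0 : part 0 vs.flatten = y.map enq ++ ringW r y := by
    rw [h.flat]
    simp only [annA, part_append, part_ph_self]
    rw [part_ph_ne 0 1 (by decide), part_ph_ne 0 2 (by decide), part_ph_ne 0 3 (by decide)]
    simp
  have fp1 : part 1 vs.flatten = ringW (K - r) y := by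
    rw [h.flat]
    simp only [annA, part_append, part_ph_self]
    rw [part_ph_ne 1 0 (by decide), part_ph_ne 1 2 (by decide), part_ph_ne 1 3 (by decide)]
    simp
  have fp2 : part 2 vs.flatten = giantW y g := by
    rw [h.flat]
    simp only [annA, part_append, part_ph_self]
    rw [part_ph_ne 2 0 (by decide), part_ph_ne 2 1 (by decide), part_ph_ne 2 3 (by decide)]
    simp
  -- additive quantities
  have hN0 : net (part 0 m) = K := by
    have e1 := flatten_sides (fun v => net (part 0 v)) (by simp [part_nil, net_nil])
      (fun u v => by rw [part_append, net_add]) b0 (mixb b0 vs vs')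
    have e2 := flatten_sides (fun v => net (part 0 v)) (by simp [part_nil, net_nil])
      (fun u v => by rw [part_append, net_add]) b0 vs
    simp only [trueSide_mixb b0 vs vs' hlen, falseSide_mixb b0 vs vs' hlen] at e1
    rw [hm, e1, ← hnet, ← e2, fp0, net, evals_append, dvals_append, evals_map_enq, dvals_map_enq,
      evals_ringW, dvals_ringW, ← hy]
    simp
  have hD1 : (dvals (part 1 m)).length = (K - r) * K := by
    have e1 := flatten_sides (fun v => (dvals (part 1 v)).length) (by simp [part_nil, dvals])
      (fun u v => by rw [part_append, dvals_append, List.length_append]) b0 (mixb b0 vs vs')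
    have e2 := flatten_sides (fun v => (dvals (part 1 v)).length) (by simp [part_nil, dvals])
      (fun u v => by rw [part_append, dvals_append, List.length_append]) b0 vs
    simp only [trueSide_mixb b0 vs vs' hlen, falseSide_mixb b0 vs vs' hlen] at e1
    rw [hm, e1, ← hrot, ← e2, fp1, dvals_ringW, List.length_flatten]
    simp [hy]
  have hD2 : (dvals (part 2 m)).length = K := by
    have e0 : (dvals (part 2 (trueSide b0 vs))).length =
        (dvals (part 2 (trueSide b0 vs'))).length :=
      addSide_eq (fun v => (dvals (part 2 v)).length)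
        (fun u v => by rw [part_append, dvals_append, List.length_append]) b0 vs vs' hcnt
    have e1 := flatten_sides (fun v => (dvals (part 2 v)).length) (by simp [part_nil, dvals])
      (fun u v => by rw [part_append, dvals_append, List.length_append]) b0 (mixb b0 vs vs')
    have e2 := flatten_sides (fun v => (dvals (part 2 v)).length) (by simp [part_nil, dvals])
      (fun u v => by rw [part_append, dvals_append, List.length_append]) b0 vs
    simp only [trueSide_mixb b0 vs vs' hlen, falseSide_mixb b0 vs vs' hlen] at e1
    rw [hm, e1, ← e0, ← e2, fp2, dvals_giantW y g (by rw [hy, hg]), hy]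
  -- part 0 ends with an intact rotation
  obtain ⟨X, hX⟩ : ∃ X, part 0 m = X ++ rdW y := by
    obtain ⟨V1, a, b, V2, hvs, hV1, hb, hV2⟩ := h.cut
    obtain ⟨V1', a', b', V2', hvs', hV1', hb', hV2'⟩ := h'.cut
    have hmix : mixb b0 vs vs' = mixb b0 V1 V1' ++
        (a ++ ph 0 (rdW y) ++ b) :: mixb true V2 V2' := by
      rw [hvs, hvs', mixb_append b0 V1 _ V1' _ (by rw [hV1, hV1']), hV1, h.side]
      rfl
    refine ⟨part 0 ((mixb b0 V1 V1').flatten ++ a), ?_⟩
    have hz1 : part 0 b = [] := part_none 0 b hb
    have hz2 : part 0 (mixb true V2 V2').flatten = [] := by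
      apply part_none
      intro e he
      rw [List.mem_flatten] at he
      obtain ⟨B, hB, heB⟩ := he
      rcases mixb_mem _ _ _ _ hB with hB | hB
      · exact hV2 B hB e heB
      · exact hV2' B hB e heB
    rw [hm, hmix]
    simp only [List.flatten_append, List.flatten_cons, part_append, part_ph_self, hz1, hz2,
      List.append_nil, List.append_assoc]
  have hrd : rdW y ≠ [] := by
    intro h0
    have h1 := length_rdW y
    rw [h0, hy] at h1
    have h2 : 0 = 2 * K := h1
    omega
  have hA : part 0 m ≠ [] := by
    rw [hX]
    simp [hrd]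
  have hC : part 2 m ≠ [] := by
    intro h0
    rw [h0] at hD2
    have : K = 0 := hD2.symm
    omega
  have hc' := hchain
  rw [hsplit] at hc'
  obtain ⟨ws, hws⟩ := struct_rd _ _ _ _ hA hC hc'
  -- the run
  have hsnd : m.map Prod.snd = part 0 m ++ (part 1 m ++ (part 2 m ++ part 3 m)) := by
    conv_lhs => rw [hsplit]
    simp [ph, Function.comp_def]
  obtain ⟨C, hrun⟩ := hmem
  rw [hsnd, qrun_append] at hrun
  obtain ⟨C1, hr1, hrun⟩ := Option.bind_eq_some_iff.mp hrun
  rw [qrun_append] at hrun
  obtain ⟨C2, hr2, hrun⟩ := Option.bind_eq_some_iff.mp hrun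
  rw [qrun_append] at hrun
  obtain ⟨C3, hr3, hrun⟩ := Option.bind_eq_some_iff.mp hrun
  have f1 := fifo_eq _ _ _ hr1
  have f2 := fifo_eq _ _ _ hr2
  have f3 := fifo_eq _ _ _ hr3
  -- content after phase 0
  have hC1 : C1 = y := by
    have hl1 : C1.length = y.length := by
      have e1 := congrArg List.length f1
      simp only [List.nil_append, List.length_append] at e1
      have e2 : ((evals (part 0 m)).length : ℤ) - (dvals (part 0 m)).length = K := hN0
      rw [hy]
      omega
    rw [List.nil_append, hX, evals_append, evals_rdW, dvals_append, dvals_rdW] at f1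
    exact last_eq _ _ _ _ f1 hl1
  subst hC1
  -- content after phase 1
  have hC2 : C2 = C1 := by
    rw [hws, evals_rdW, dvals_rdW] at f2
    rw [hws, dvals_rdW] at hD1
    refine shift_eq C1 (K - r) ws C2 ?_ f2
    rw [hD1, hy]
  subst hC2
  have hd : dvals (part 2 m) = C2 := by
    have e1 : (dvals (part 2 m)).length = C2.length := by rw [hD2, hy]
    exact ((List.append_inj f3.symm e1).1)
  -- blockwise comparison
  have hd' : dvals (part 2 m) = dvals (part 2 vs.flatten) := by
    rw [hd, fp2, dvals_giantW _ _ (by rw [hy, hg])]
  have hom0 : dvals (part 2 []) = [] := by simp [part_nil, dvals]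
  have homa : ∀ u v : List (Fin 4 × QSym), dvals (part 2 (u ++ v)) =
      dvals (part 2 u) ++ dvals (part 2 v) := fun u v => by rw [part_append, dvals_append]
  have hblocks : (mixb b0 vs vs').map (fun v => dvals (part 2 v)) =
      vs.map (fun v => dvals (part 2 v)) := by
    rw [List.eq_iff_flatten_eq]
    constructor
    · rw [← hom_flatten (fun v => dvals (part 2 v)) hom0 homa,
        ← hom_flatten (fun v => dvals (part 2 v)) hom0 homa]
      exact hd'
    · rw [List.map_map, List.map_map]
      exact mix_map_eq (fun v => (dvals (part 2 v)).length) b0 vs vs' hcnt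
  have e1 := hom_side (fun v => dvals (part 2 v)) hom0 homa b0 (mixb b0 vs vs')
  have e2 := hom_side (fun v => dvals (part 2 v)) hom0 homa b0 vs
  rw [hblocks, ← e2, trueSide_mixb b0 vs vs' hlen] at e1
  exact e1.symm

end Pool.Agent.QT
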