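import Pool.Agent.QT.PATHA

/-! Positions and numbers of messages. -/

namespace Pool.Agent.QT

namespace TapeMachine

variable {A : Type} (M : TapeMachine A)

private theorem pathb_step {c : M.Cfg} {a : Option A} {c' : M.Cfg} (h : M.Step c a c') :
    c.pos - 1 ≤ c'.pos ∧ c'.pos ≤ c.pos + 1 := by
  obtain ⟨d, h1, h2, _⟩ := h
  have h3 := M.step_move h1
  omega

/-- positions of the messages for a half line -/
theorem msgs_pos (z : ℤ) (c : M.Cfg) (l : List (Option A × M.Cfg)) (hl : M.IsPath c l)
    (m : M.Q × ℤ) (hm : m ∈ M.msgs (fun p => decide (z < p)) c l) : m.2 = z ∨ m.2 = z + 1 := by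
  induction l generalizing c with
  | nil => simp [msgs] at hm
  | cons x l ih =>
    obtain ⟨h1, h2⟩ := hl
    have h3 := M.pathb_step h1
    simp only [msgs] at hm
    split_ifs at hm with h4
    · exact ih x.2 h2 hm
    · rcases List.mem_cons.mp hm with rfl | hm
      · simp only [decide_eq_decide] at h4
        simp only
        omega
      · exact ih x.2 h2 hm

/-- positions of the messages for an interval -/
theorem msgs_pos_interval (z1 z2 : ℤ) (c : M.Cfg) (l : List (Option A × M.Cfg))
    (hl : M.IsPath c l) (m : M.Q × ℤ)
    (hm : m ∈ M.msgs (fun p => decide (z1 < p) && decide (p ≤ z2)) c l) :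
    m.2 = z1 ∨ m.2 = z1 + 1 ∨ m.2 = z2 ∨ m.2 = z2 + 1 := by
  induction l generalizing c with
  | nil => simp [msgs] at hm
  | cons x l ih =>
    obtain ⟨h1, h2⟩ := hl
    have h3 := M.pathb_step h1
    simp only [msgs] at hm
    split_ifs at hm with h4
    · exact ih x.2 h2 hm
    · rcases List.mem_cons.mp hm with rfl | hm
      · simp only [← Bool.decide_and, decide_eq_decide] at h4
        simp only
        omega
      · exact ih x.2 h2 hm

/-- an interval is crossed at most as often as its two end points -/
theorem msgs_interval_le (z1 z2 : ℤ) (c : M.Cfg) (l : List (Option A × M.Cfg)) :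
    (M.msgs (fun p => decide (z1 < p) && decide (p ≤ z2)) c l).length ≤
      (M.msgs (fun p => decide (z1 < p)) c l).length +
        (M.msgs (fun p => decide (z2 < p)) c l).length := by
  induction l generalizing c with
  | nil => simp [msgs]
  | cons x l ih =>
    have h := ih x.2
    simp only [msgs]
    split_ifs with h1 h2 h3 h4 h5 h6 <;> (try simp only [List.length_cons]) <;>
      first
      | omega
      | (exfalso
         simp only [← Bool.decide_and, decide_eq_decide] at *
         omega)

/-- the total number of crossings is at most the number of moves -/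
theorem sum_msgs_le (Z : Finset ℤ) (c : M.Cfg) (l : List (Option A × M.Cfg))
    (hl : M.IsPath c l) :
    ∑ z ∈ Z, (M.msgs (fun p => decide (z < p)) c l).length ≤ l.length := by
  induction l generalizing c with
  | nil => simp [msgs]
  | cons x l ih =>
    obtain ⟨h1, h2⟩ := hl
    have h3 := M.pathb_step h1
    have h := ih x.2 h2
    have h4 : ∀ z ∈ Z, (M.msgs (fun p => decide (z < p)) c (x :: l)).length ≤
        (if z = min c.pos x.2.pos then 1 else 0) +
          (M.msgs (fun p => decide (z < p)) x.2 l).length := by
      intro z _
      simp only [msgs]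
      split_ifs with h5 h6 h7
      · omega
      · omega
      · simp only [List.length_cons]; omega
      · exfalso
        simp only [decide_eq_decide] at h5
        omega
    calc ∑ z ∈ Z, (M.msgs (fun p => decide (z < p)) c (x :: l)).length
        ≤ ∑ z ∈ Z, ((if z = min c.pos x.2.pos then 1 else 0) +
          (M.msgs (fun p => decide (z < p)) x.2 l).length) := Finset.sum_le_sum h4
      _ = (∑ z ∈ Z, if z = min c.pos x.2.pos then 1 else 0) +
          ∑ z ∈ Z, (M.msgs (fun p => decide (z < p)) x.2 l).length := Finset.sum_add_distrib
      _ ≤ 1 + l.length := by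
          refine add_le_add ?_ h
          rw [Finset.sum_ite_eq']
          split_ifs <;> omega
      _ = (x :: l).length := by rw [List.length_cons]; omega

/-- the head stays within distance `l.length` of its first position -/
theorem pos_bound (c : M.Cfg) (l : List (Option A × M.Cfg)) (hl : M.IsPath c l) :
    |(M.endc c l).pos - c.pos| ≤ l.length ∧ ∀ e ∈ M.reads c l, |e.1 - c.pos| ≤ l.length := by
  induction l generalizing c with
  | nil => simp [endc, reads]
  | cons x l ih =>
    obtain ⟨h1, h2⟩ := hl
    have h3 := M.pathb_step h1
    obtain ⟨h4, h5⟩ := ih x.2 h2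
    have h6 : |x.2.pos - c.pos| ≤ 1 := by rw [abs_le]; omega
    constructor
    · simp only [endc, List.length_cons]
      push_cast
      rw [abs_le] at *
      omega
    · intro e he
      simp only [reads, List.mem_append, List.mem_map] at he
      rcases he with ⟨a, _, rfl⟩ | he
      · simp only [sub_self, abs_zero, List.length_cons]
        positivity
      · have h7 := h5 e he
        simp only [List.length_cons]
        push_cast
        rw [abs_le] at *
        omega

end TapeMachine

end Pool.Agent.QT
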