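import Pool.Agent.QT.Runs
import Pool.Agent.QT.PATHB
import Pool.Agent.QT.FIFO
import Pool.Agent.QT.LISTSB

/-! Existence of annotations, and counting of events. -/

namespace Pool.Agent.QT

open QSym

variable {N : TapeMachine QSym} {K pad T : ℕ}

theorem length_yl (ω : Om K) : (yl ω).length = K := by
  simp [yl]

theorem length_gl (ω : Om K) : (gl ω).length = K := by
  simp [gl]

theorem length_of_mem_gl (ω : Om K) : ∀ u ∈ gl ω, u.length = K := by
  intro u hu
  simp only [gl, List.mem_ofFn] at hu
  obtain ⟨i, rfl⟩ := hu
  simp

private theorem exa_snd_ph (p : Fin 4) (w : List QSym) : (ph p w).map Prod.snd = w := by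
  simp [ph, Function.comp_def]

private theorem exa_snd_annA (r : ℕ) (hr : r ≤ K) (y : List Bool) (g : List (List Bool)) :
    (annA K pad r y g).map Prod.snd = hardW K pad y g := by
  have h1 : ringW K y = ringW r y ++ ringW (K - r) y := by
    unfold ringW
    rw [← List.flatten_append, List.replicate_append_replicate, Nat.add_sub_cancel' hr]
  simp only [annA, List.map_append, exa_snd_ph, hardW, headW, h1, List.append_assoc]

private theorem exa_ringW_succ (j : ℕ) (y : List Bool) : ringW (j + 1) y = ringW j y ++ rdW y := by
  unfold ringW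
  rw [List.replicate_succ', List.flatten_append]
  simp

private theorem exa_word_blocks (R : Runs N K pad T) (S : ℤ → Bool) (ω : Om K) :
    ((N.blocks S N.init (R.path ω)).map (List.map Prod.snd)).flatten =
      hardW K pad (yl ω) (gl ω) := by
  rw [← R.word ω, ← N.reads_snd N.init, ← N.blocks_flatten S, List.map_flatten]

/-- with fewer than `K` crossings some rotation is read on one side -/
theorem exists_ann_half (R : Runs N K pad T) (z : ℤ) (ω : Om K)
    (h : (N.msgs (half z false) N.init (R.path ω)).length < K) :
    ∃ s r j0 vs, HasAnn R (half z s) ω r j0 vs := by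
  set us := (N.blocks (half z false) N.init (R.path ω)).map (List.map Prod.snd) with hus
  have hlen : us.length = (N.msgs (half z false) N.init (R.path ω)).length + 1 := by
    rw [hus, List.length_map, N.blocks_length]
  have hne : us ≠ [] := by
    intro h0
    rw [h0] at hlen
    simp at hlen
  have hfl : us.flatten = (yl ω).map enq ++ (List.replicate K (rdW (yl ω))).flatten ++
      (giantW (yl ω) (gl ω) ++ tailW pad (gl ω)) := by
    rw [hus, exa_word_blocks R (half z false) ω]
    simp only [hardW, headW, ringW, List.append_assoc]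
  have hrd : rdW (yl ω) ≠ [] := by
    intro h0
    have h1 := length_rdW (yl ω)
    rw [h0, length_yl] at h1
    have h2 : 0 = 2 * K := h1
    omega
  obtain ⟨r0, hr0, V1, a, b, V2, hV, hVa⟩ := unbroken ((yl ω).map enq) (rdW (yl ω))
    (giantW (yl ω) (gl ω) ++ tailW pad (gl ω)) hrd K us (by omega) hne hfl
  set s : Bool := decide (z < 0) ^^ decide (V1.length % 2 = 1) with hs
  have hblocks : N.blocks (half z s) N.init (R.path ω) =
      N.blocks (half z false) N.init (R.path ω) := by
    have h1 : half z true = fun p => !(half z false p) := by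
      funext p
      simp [half]
    cases s with
    | false => rfl
    | true => rw [h1, N.blocks_compl]
  -- annotation
  obtain ⟨vs, hvs1, hvs2⟩ := exists_ann (Prod.snd : Fin 4 × QSym → QSym) us
    (annA K pad (r0 + 1) (yl ω) (gl ω))
    (by rw [exa_snd_annA (r0 + 1) hr0, hus, exa_word_blocks R (half z false) ω])
  refine ⟨s, r0 + 1, V1.length, vs, ⟨by omega, hr0, hvs2, ?_, ?_⟩, by rw [hvs1, hblocks]⟩
  · rw [hs]
    simp only [half]
    cases decide (z < 0) <;> cases decide (V1.length % 2 = 1) <;> rfl
  · rw [hV] at hvs1
    obtain ⟨V1', W', hvs3, hV1', hW'⟩ := List.map_eq_append_iff.mp hvs1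
    obtain ⟨B', V2', rfl, hB', hV2'⟩ := List.map_eq_cons_iff.mp hW'
    obtain ⟨ar', b', rfl, har', hb'⟩ := List.map_eq_append_iff.mp hB'
    obtain ⟨a', rd', rfl, ha', hrd'⟩ := List.map_eq_append_iff.mp har'
    have hfl2 : (V1'.flatten ++ a') ++ (rd' ++ (b' ++ V2'.flatten)) =
        ph 0 ((yl ω).map enq ++ ringW r0 (yl ω)) ++ (ph 0 (rdW (yl ω)) ++
          (ph 1 (ringW (K - (r0 + 1)) (yl ω)) ++ ph 2 (giantW (yl ω) (gl ω)) ++
            ph 3 (tailW pad (gl ω)))) := by
      have h1 := hvs2
      rw [hvs3] at h1
      simp only [annA, exa_ringW_succ, ph, List.map_append, List.flatten_append,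
        List.flatten_cons, List.append_assoc] at h1 ⊢
      exact h1
    have hl1 : (V1'.flatten ++ a').length =
        (ph 0 ((yl ω).map enq ++ ringW r0 (yl ω))).length := by
      have h1 : ((V1'.flatten ++ a').map Prod.snd) = V1.flatten ++ a := by
        rw [List.map_append, List.map_flatten, hV1', ha']
      have h2 := congrArg List.length h1
      rw [List.length_map] at h2
      rw [h2, hVa]
      simp [ph, ringW]
    obtain ⟨he1, he2⟩ := List.append_inj hfl2 hl1
    have hl2 : rd'.length = (ph 0 (rdW (yl ω))).length := by
      have h2 := congrArg List.length hrd'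
      rw [List.length_map] at h2
      rw [h2]
      simp [ph]
    obtain ⟨he3, he4⟩ := List.append_inj he2 hl2
    have hne0 : ∀ e ∈ b' ++ V2'.flatten, e.1 ≠ 0 := by
      intro e he
      rw [he4] at he
      simp only [ph, List.mem_append, List.mem_map] at he
      rcases he with (⟨x, _, rfl⟩ | ⟨x, _, rfl⟩) | ⟨x, _, rfl⟩
      · exact one_ne_zero
      · exact (by decide : (2 : Fin 4) ≠ 0)
      · exact (by decide : (3 : Fin 4) ≠ 0)
    refine ⟨V1', a', b', V2', ?_, ?_, ?_, ?_⟩
    · rw [hvs3, he3]
    · have h2 := congrArg List.length hV1'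
      rw [List.length_map] at h2
      exact h2
    · intro e he
      exact hne0 e (List.mem_append_left _ he)
    · intro B hB e he
      exact hne0 e (List.mem_append_right _ (List.mem_flatten.mpr ⟨B, hB, he⟩))

private theorem exa_zip1 {α β γ : Type*} (f : α → γ) (g : β → γ) (u : List α) (v : List β)
    (h : u.map f = v.map g) : ∃ w : List (α × β), w.map Prod.fst = u ∧ w.map Prod.snd = v ∧
      ∀ t ∈ w, f t.1 = g t.2 := by
  induction u generalizing v with
  | nil =>
    cases v with
    | nil => exact ⟨[], rfl, rfl, by simp⟩
    | cons y v => simp at h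
  | cons x u ih =>
    cases v with
    | nil => simp at h
    | cons y v =>
      simp only [List.map_cons, List.cons.injEq] at h
      obtain ⟨w, h1, h2, h3⟩ := ih v h.2
      refine ⟨(x, y) :: w, by simp [h1], by simp [h2], ?_⟩
      intro t ht
      rcases List.mem_cons.mp ht with rfl | ht
      · exact h.1
      · exact h3 t ht

private theorem exa_zip2 {α β γ : Type*} (f : α → γ) (g : β → γ) (us : List (List α))
    (vs : List (List β)) (h : us.map (List.map f) = vs.map (List.map g)) :
    ∃ ws : List (List (α × β)), ws.map (List.map Prod.fst) = us ∧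
      ws.map (List.map Prod.snd) = vs ∧ ∀ w ∈ ws, ∀ t ∈ w, f t.1 = g t.2 := by
  induction us generalizing vs with
  | nil =>
    cases vs with
    | nil => exact ⟨[], rfl, rfl, by simp⟩
    | cons y v => simp at h
  | cons x u ih =>
    cases vs with
    | nil => simp at h
    | cons y v =>
      simp only [List.map_cons, List.cons.injEq] at h
      obtain ⟨ws, h1, h2, h3⟩ := ih v h.2
      obtain ⟨w, h4, h5, h6⟩ := exa_zip1 f g x y h.1
      refine ⟨w :: ws, by simp [h1, h4], by simp [h2, h5], ?_⟩
      intro t ht
      rcases List.mem_cons.mp ht with rfl | ht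
      · exact h6
      · exact h3 t ht

private theorem exa_side {α : Type*} (p : α → Bool) (ws : List (List α)) :
    ∀ (b : Bool), (∀ (i : ℕ) (B : List α), ws[i]? = some B → ∀ e ∈ B,
      p e = (b ^^ decide (i % 2 = 1))) → trueSide b ws = ws.flatten.filter p := by
  induction ws with
  | nil => intro b _; rfl
  | cons u ws ih =>
    intro b h
    have h0 : ∀ e ∈ u, p e = b := by
      intro e he
      have := h 0 u rfl e he
      simpa using this
    have h1 : trueSide (!b) ws = ws.flatten.filter p := by
      apply ih
      intro i B hB e he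
      have h2 := h (i + 1) B (by simpa using hB) e he
      rw [h2]
      have h3 : decide ((i + 1) % 2 = 1) = !decide (i % 2 = 1) := by
        rcases Nat.mod_two_eq_zero_or_one i with h4 | h4
        · have : (i + 1) % 2 = 1 := by omega
          simp [h4, this]
        · have : (i + 1) % 2 = 0 := by omega
          simp [h4, this]
      rw [h3]
      cases b <;> simp
    simp only [trueSide, List.flatten_cons, List.filter_append, h1]
    congr 1
    cases b with
    | false =>
      symm
      simp only [Bool.false_eq_true, if_false]
      rw [List.filter_eq_nil_iff]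
      intro e he
      rw [h0 e he]
      simp
    | true =>
      symm
      simp only [if_true]
      rw [List.filter_eq_self]
      exact h0

private theorem exa_dvals (v : List QSym) : (dvals v).length = (v.filter isDeq).length := by
  induction v with
  | nil => rfl
  | cons a v ih =>
    cases a with
    | enq b => simp [dvals, isDeq, ih]
    | deq b => simp [dvals, isDeq, ih]

/-- the number of `deq` symbols of the long round read inside `S`, in terms of an annotation -/
theorem count_ann (R : Runs N K pad T) (S : ℤ → Bool) (ω : Om K) (r j0 : ℕ)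
    (vs : List (List (Fin 4 × QSym))) (h : HasAnn R S ω r j0 vs) :
    (dvals (part 2 (trueSide (S 0) vs))).length =
      ((gpos K (N.reads N.init (R.path ω))).filter S).length := by
  obtain ⟨hA, hB⟩ := h
  obtain ⟨ws, h1, h2, h3⟩ := exa_zip2 (Prod.snd : ℤ × QSym → QSym)
    (Prod.snd : Fin 4 × QSym → QSym) (N.blocks S N.init (R.path ω)) vs hB.symm
  have hp : N.init.pos = 0 := rfl
  have hside : trueSide (S 0) ws = ws.flatten.filter fun t => S t.1.1 := by
    apply exa_side
    intro i B hB e he
    have h4 : (N.blocks S N.init (R.path ω))[i]? = some (B.map Prod.fst) := by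
      rw [← h1, List.getElem?_map, hB]
      rfl
    have h5 := N.blocks_side S N.init (R.path ω) i (B.map Prod.fst) h4 e.1
      (List.mem_map.mpr ⟨e, he, rfl⟩)
    rw [hp] at h5
    exact h5
  have hvs : trueSide (S 0) vs = (ws.flatten.filter fun t => S t.1.1).map Prod.snd := by
    rw [← h2, trueSide_map, hside]
  have hflat : ws.flatten.map Prod.snd = annA K pad r (yl ω) (gl ω) := by
    rw [List.map_flatten, h2, hA.flat]
  have hreads : N.reads N.init (R.path ω) = ws.flatten.map Prod.fst := by
    rw [List.map_flatten, h1, N.blocks_flatten]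
  have hsym : ∀ t ∈ ws.flatten, t.1.2 = t.2.2 := by
    intro t ht
    rw [List.mem_flatten] at ht
    obtain ⟨w, hw, htw⟩ := ht
    exact h3 w hw t htw
  set F := ws.flatten with hF
  set A := K + K * (2 * K) with hAdef
  set B := K + K * K with hBdef
  have hgl : (gl ω).flatten.length = K * K := by
    rw [List.length_flatten]
    have h4 : (gl ω).map List.length = List.replicate K K := by
      apply List.ext_getElem
      · simp [length_gl]
      · intro i hi1 hi2
        rw [List.getElem_map, List.getElem_replicate]
        exact length_of_mem_gl ω _ (List.getElem_mem _)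
    rw [h4]
    simp
  have hlen01 : (ph 0 ((yl ω).map enq ++ ringW r (yl ω)) ++
      ph 1 (ringW (K - r) (yl ω))).length = A := by
    simp only [ph, List.length_append, List.length_map, length_ringW, length_yl]
    obtain ⟨d, hd⟩ := Nat.exists_eq_add_of_le hA.le
    have : K - r = d := by omega
    rw [this, hAdef]
    have : K * (2 * K) = (r + d) * (2 * K) := by rw [← hd]
    rw [this]
    ring
  have hlen2 : (ph 2 (giantW (yl ω) (gl ω))).length = B := by
    simp only [ph, List.length_map]
    rw [length_giantW _ _ (by rw [length_yl, length_gl]), length_yl, hgl]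
  -- cut the list
  have e01 : (F.take A).map Prod.snd = ph 0 ((yl ω).map enq ++ ringW r (yl ω)) ++
      ph 1 (ringW (K - r) (yl ω)) := by
    rw [List.map_take, hflat]
    unfold annA
    rw [List.append_assoc (_ ++ _) _ _, List.take_append_of_le_length (by rw [hlen01]),
      List.take_of_length_le (by rw [hlen01])]
  have e23 : (F.drop A).map Prod.snd = ph 2 (giantW (yl ω) (gl ω)) ++ ph 3 (tailW pad (gl ω)) := by
    rw [List.map_drop, hflat]
    unfold annA
    rw [List.append_assoc (_ ++ _) _ _, List.drop_append_of_le_length (by rw [hlen01]),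
      List.drop_of_length_le (by rw [hlen01]), List.nil_append]
  have e2 : ((F.drop A).take B).map Prod.snd = ph 2 (giantW (yl ω) (gl ω)) := by
    rw [List.map_take, e23, List.take_append_of_le_length (by rw [hlen2]),
      List.take_of_length_le (by rw [hlen2])]
  have e3 : ((F.drop A).drop B).map Prod.snd = ph 3 (tailW pad (gl ω)) := by
    rw [List.map_drop, e23, List.drop_append_of_le_length (by rw [hlen2]),
      List.drop_of_length_le (by rw [hlen2]), List.nil_append]
  have hcut : F = F.take A ++ ((F.drop A).take B ++ (F.drop A).drop B) := by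
    rw [List.take_append_drop, List.take_append_drop]
  have p01 : ∀ t ∈ F.take A, t.2.1 ≠ 2 := by
    intro t ht
    have h4 : t.2 ∈ (F.take A).map Prod.snd := List.mem_map.mpr ⟨t, ht, rfl⟩
    rw [e01] at h4
    simp only [ph, List.mem_append, List.mem_map] at h4
    rcases h4 with ⟨x, _, hx⟩ | ⟨x, _, hx⟩
    · rw [← hx]; exact (by decide : (0 : Fin 4) ≠ 2)
    · rw [← hx]; exact (by decide : (1 : Fin 4) ≠ 2)
  have p2 : ∀ t ∈ (F.drop A).take B, t.2.1 = 2 := by
    intro t ht
    have h4 : t.2 ∈ ((F.drop A).take B).map Prod.snd := List.mem_map.mpr ⟨t, ht, rfl⟩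
    rw [e2] at h4
    simp only [ph, List.mem_map] at h4
    obtain ⟨x, _, hx⟩ := h4
    rw [← hx]
  have p3 : ∀ t ∈ (F.drop A).drop B, t.2.1 ≠ 2 := by
    intro t ht
    have h4 : t.2 ∈ ((F.drop A).drop B).map Prod.snd := List.mem_map.mpr ⟨t, ht, rfl⟩
    rw [e3] at h4
    simp only [ph, List.mem_map] at h4
    obtain ⟨x, _, hx⟩ := h4
    rw [← hx]
    exact (by decide : (3 : Fin 4) ≠ 2)
  -- both sides count the same positions
  have hL : (dvals (part 2 (trueSide (S 0) vs))).length =
      (F.filter fun t => S t.1.1 && (decide (t.2.1 = 2) && isDeq t.2.2)).length := by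
    rw [exa_dvals, hvs, part]
    simp only [List.filter_map, List.length_map, List.filter_filter]
    congr 1
    apply List.filter_congr
    intro t _
    simp only [Function.comp_apply]
    cases S t.1.1 <;> cases isDeq t.2.2 <;> simp
  have hM : (F.filter fun t => S t.1.1 && (decide (t.2.1 = 2) && isDeq t.2.2)) =
      ((F.drop A).take B).filter fun t => S t.1.1 && isDeq t.1.2 := by
    conv_lhs => rw [hcut]
    rw [List.filter_append, List.filter_append]
    have q1 : ((F.take A).filter fun t => S t.1.1 && (decide (t.2.1 = 2) && isDeq t.2.2)) = [] := by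
      rw [List.filter_eq_nil_iff]
      intro t ht
      simp [p01 t ht]
    have q3 : (((F.drop A).drop B).filter fun t =>
        S t.1.1 && (decide (t.2.1 = 2) && isDeq t.2.2)) = [] := by
      rw [List.filter_eq_nil_iff]
      intro t ht
      simp [p3 t ht]
    rw [q1, q3, List.nil_append, List.append_nil]
    apply List.filter_congr
    intro t ht
    have h4 : t ∈ F := List.mem_of_mem_drop (List.mem_of_mem_take ht)
    rw [hsym t h4, p2 t ht]
    simp
  rw [hL, hM, hreads, gpos]
  simp only [← List.map_drop, ← List.map_take]
  simp only [List.filter_map, List.length_map, List.filter_filter]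
  congr 1

end Pool.Agent.QT
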