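import Pool.Agent.QT.Cut

/-! Cut and paste. -/

namespace Pool.Agent.QT

namespace TapeMachine

variable {A : Type} (M : TapeMachine A)

private theorem MIX_blocks_ne (S : ℤ → Bool) (c : M.Cfg) (l : List (Option A × M.Cfg)) :
    M.blocks S c l ≠ [] := by
  cases l with
  | nil => simp [blocks]
  | cons x l =>
    simp only [blocks]
    split_ifs with h
    · split <;> simp
    · simp

private theorem MIX_blocks_same (S : ℤ → Bool) (c : M.Cfg) (x : Option A × M.Cfg)
    (l : List (Option A × M.Cfg)) (h : S c.pos = S x.2.pos) :
    ∃ b bs, M.blocks S x.2 l = b :: bs ∧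
      M.blocks S c (x :: l) = ((x.1.toList.map fun a => (c.pos, a)) ++ b) :: bs := by
  rcases hb : M.blocks S x.2 l with _ | ⟨b, bs⟩
  · exact absurd hb (MIX_blocks_ne M S x.2 l)
  · refine ⟨b, bs, rfl, ?_⟩
    simp only [blocks, h, if_true, hb]

private theorem MIX_blocks_cross (S : ℤ → Bool) (c : M.Cfg) (x : Option A × M.Cfg)
    (l : List (Option A × M.Cfg)) (h : S c.pos ≠ S x.2.pos) :
    M.blocks S c (x :: l) = (x.1.toList.map fun a => (c.pos, a)) :: M.blocks S x.2 l := by
  simp only [blocks, h, if_false]

private theorem MIX_blocks_compl (S : ℤ → Bool) (c : M.Cfg) (l : List (Option A × M.Cfg)) :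
    M.blocks (fun z => !S z) c l = M.blocks S c l := by
  induction l generalizing c with
  | nil => rfl
  | cons x l ih =>
    by_cases h : S c.pos = S x.2.pos
    · obtain ⟨b, bs, h1, h2⟩ := MIX_blocks_same M S c x l h
      obtain ⟨b', bs', h1', h2'⟩ := MIX_blocks_same M (fun z => !S z) c x l (by simp [h])
      rw [ih] at h1'
      rw [h1] at h1'
      simp only [List.cons.injEq] at h1'
      rw [h2, h2', h1'.1, h1'.2]
    · rw [MIX_blocks_cross M S c x l h,
        MIX_blocks_cross M (fun z => !S z) c x l (by simpa using h), ih]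

private theorem MIX_msgs_compl (S : ℤ → Bool) (c : M.Cfg) (l : List (Option A × M.Cfg)) :
    M.msgs (fun z => !S z) c l = M.msgs S c l := by
  induction l generalizing c with
  | nil => rfl
  | cons x l ih =>
    simp only [msgs, ih]
    by_cases h : S c.pos = S x.2.pos
    · simp [h]
    · have : ¬ ((!S c.pos) = (!S x.2.pos)) := by simpa using h
      rw [if_neg h, if_neg this]

private theorem MIX_mixb_symm {α : Type*} (b : Bool) (us vs : List (List α)) :
    mixb (!b) vs us = mixb b us vs := by
  induction us generalizing b vs with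
  | nil => cases b <;> cases vs <;> simp [mixb]
  | cons u us ih =>
    cases vs with
    | nil => cases b <;> simp [mixb]
    | cons v vs =>
      simp only [mixb, ih (!b) vs]
      cases b <;> rfl

private theorem MIX_mixc_symm (S : ℤ → Bool) (c1 c2 : M.Cfg) (hs : S c1.pos = S c2.pos) :
    M.mixc (fun z => !S z) c2 c1 = M.mixc S c1 c2 := by
  unfold mixc
  ext z
  · simp only [← hs]
    cases S c1.pos <;> simp
  · simp only [← hs]
    cases S c1.pos <;> simp
  · cases hz : S z <;> simp [hz]

private def MIX_goal (S : ℤ → Bool) (c1 c2 : M.Cfg) (l1 l2 : List (Option A × M.Cfg)) : Prop :=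
  S (M.endc c1 l1).pos = S (M.endc c2 l2).pos ∧
    ∃ l3, M.IsPath (M.mixc S c1 c2) l3 ∧
      M.pword l3 =
        ((mixb (S c1.pos) (M.blocks S c1 l1) (M.blocks S c2 l2)).flatten).map Prod.snd ∧
      M.endc (M.mixc S c1 c2) l3 = M.mixc S (M.endc c1 l1) (M.endc c2 l2)

private theorem MIX_goal_symm (S : ℤ → Bool) (c1 c2 : M.Cfg) (l1 l2 : List (Option A × M.Cfg))
    (hs : S c1.pos = S c2.pos) (h : MIX_goal M (fun z => !S z) c2 c1 l2 l1) :
    MIX_goal M S c1 c2 l1 l2 := by
  obtain ⟨h1, l3, h2, h3, h4⟩ := h
  have h1' : S (M.endc c1 l1).pos = S (M.endc c2 l2).pos := by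
    have : (!S (M.endc c2 l2).pos) = (!S (M.endc c1 l1).pos) := h1
    simpa using this.symm
  refine ⟨h1', l3, ?_, ?_, ?_⟩
  · rwa [MIX_mixc_symm M S c1 c2 hs] at h2
  · rw [h3, MIX_blocks_compl, MIX_blocks_compl, ← MIX_mixb_symm (S c1.pos), hs]
  · rwa [MIX_mixc_symm M S c1 c2 hs, MIX_mixc_symm M S _ _ h1'] at h4

/-- one more symbol at the front of a word -/
private theorem MIX_pword_cons (x : Option A × M.Cfg) (l : List (Option A × M.Cfg)) :
    M.pword (x :: l) = x.1.toList ++ M.pword l := by
  obtain ⟨a, c⟩ := x
  cases a <;> simp [pword]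

private theorem MIX_main (n : ℕ) : ∀ (S : ℤ → Bool) (c1 c2 : M.Cfg)
    (l1 l2 : List (Option A × M.Cfg)), l1.length + l2.length = n →
    M.IsPath c1 l1 → M.IsPath c2 l2 → S c1.pos = S c2.pos →
    M.msgs S c1 l1 = M.msgs S c2 l2 → MIX_goal M S c1 c2 l1 l2 := by
  induction n using Nat.strong_induction_on with
  | _ n ih =>
  -- the case of an active first path
  have key : ∀ (S : ℤ → Bool) (c1 c2 : M.Cfg)
      (l1 l2 : List (Option A × M.Cfg)), l1.length + l2.length = n →
      M.IsPath c1 l1 → M.IsPath c2 l2 → S c1.pos = S c2.pos →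
      M.msgs S c1 l1 = M.msgs S c2 l2 → S c1.pos = false → MIX_goal M S c1 c2 l1 l2 := by
    intro S c1 c2 l1 l2 hn h1 h2 hs hm hf
    have hf2 : S c2.pos = false := by rw [← hs, hf]
    -- the passive path makes a step without crossing
    by_cases hp : ∃ x2 l2', l2 = x2 :: l2' ∧ S c2.pos = S x2.2.pos
    · obtain ⟨x2, l2', rfl, hx⟩ := hp
      have hm' : M.msgs S c1 l1 = M.msgs S x2.2 l2' := by
        rw [hm]; simp only [msgs, hx, if_true]
      obtain ⟨g1, l3, g2, g3, g4⟩ := ih (l1.length + l2'.length)
        (by simp only [List.length_cons] at hn; omega) S c1 x2.2 l1 l2' rfl h1 h2.2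
        (by rw [hs, hx]) hm'
      have hmix : M.mixc S c1 x2.2 = M.mixc S c1 c2 := by
        obtain ⟨d, _, _, h2t⟩ := h2.1
        unfold mixc
        ext z
        · simp [hf]
        · simp [hf]
        · simp only
          cases hz : S z
          · rfl
          · simp only [if_true]
            apply h2t
            rintro rfl
            rw [hf2] at hz
            exact absurd hz (by simp)
      obtain ⟨b, bs, e1, e2⟩ := MIX_blocks_same M S c2 x2 l2' hx
      refine ⟨g1, l3, ?_, ?_, ?_⟩
      · rwa [hmix] at g2
      · rw [g3, e2, e1]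
        rcases hb : M.blocks S c1 l1 with _ | ⟨u, us⟩
        · exact absurd hb (MIX_blocks_ne M S c1 l1)
        · simp only [mixb, hf, Bool.false_eq_true, if_false]
      · rwa [hmix] at g4
    · cases l1 with
      | nil =>
        cases l2 with
        | nil =>
          refine ⟨hs, [], trivial, ?_, rfl⟩
          simp [pword, blocks, mixb]
        | cons x2 l2' =>
          exfalso
          by_cases hx : S c2.pos = S x2.2.pos
          · exact hp ⟨x2, l2', rfl, hx⟩
          · simp only [msgs, hx, if_false] at hm
            exact absurd hm (by simp)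
      | cons x1 l1' =>
        by_cases hx : S c1.pos = S x1.2.pos
        · have hm' : M.msgs S x1.2 l1' = M.msgs S c2 l2 := by
            rw [← hm]; simp only [msgs, hx, if_true]
          obtain ⟨g1, l3, g2, g3, g4⟩ := ih (l1'.length + l2.length)
            (by simp only [List.length_cons] at hn; omega) S x1.2 c2 l1' l2 rfl h1.2 h2
            (by rw [← hx, hs]) hm'
          have hstep : M.Step (M.mixc S c1 c2) x1.1 (M.mixc S x1.2 c2) := by
            obtain ⟨d, hd1, hd2, hd3⟩ := h1.1
            have hfx : S x1.2.pos = false := by rw [← hx, hf]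
            refine ⟨d, ?_, ?_, ?_⟩
            · simp only [mixc, hf, hfx, Bool.false_eq_true, if_false]
              exact hd1
            · simp only [mixc, hf, hfx, Bool.false_eq_true, if_false]
              exact hd2
            · intro z hz
              simp only [mixc, hf, Bool.false_eq_true, if_false] at hz ⊢
              cases hSz : S z
              · simp only [Bool.false_eq_true, if_false]
                exact hd3 z hz
              · rfl
          obtain ⟨b, bs, e1, e2⟩ := MIX_blocks_same M S c1 x1 l1' hx
          refine ⟨g1, (x1.1, M.mixc S x1.2 c2) :: l3, ⟨hstep, g2⟩, ?_, g4⟩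
          rw [MIX_pword_cons, g3, e2, e1, ← hx, hf]
          rcases hb : M.blocks S c2 l2 with _ | ⟨u, us⟩
          · exact absurd hb (MIX_blocks_ne M S c2 l2)
          · simp [mixb, List.map_append, Function.comp_def]
        · -- crossing
          have hne : M.msgs S c1 (x1 :: l1') = (x1.2.q, x1.2.pos) :: M.msgs S x1.2 l1' := by
            simp only [msgs, hx, if_false]
          cases l2 with
          | nil =>
            exfalso
            rw [hne] at hm
            simp [msgs] at hm
          | cons x2 l2' =>
            have hx2 : S c2.pos ≠ S x2.2.pos := by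
              intro h
              exact hp ⟨x2, l2', rfl, h⟩
            have hne2 : M.msgs S c2 (x2 :: l2') = (x2.2.q, x2.2.pos) :: M.msgs S x2.2 l2' := by
              simp only [msgs, hx2, if_false]
            rw [hne, hne2] at hm
            simp only [List.cons.injEq, Prod.mk.injEq] at hm
            obtain ⟨⟨hq, hpos⟩, hm'⟩ := hm
            obtain ⟨g1, l3, g2, g3, g4⟩ := ih (l1'.length + l2'.length)
              (by simp only [List.length_cons] at hn; omega) S x1.2 x2.2 l1' l2' rfl h1.2 h2.2
              (by rw [hpos]) hm'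
            have hfx : S x1.2.pos = true := by
              rw [hf] at hx
              cases h : S x1.2.pos
              · exact absurd h.symm hx
              · rfl
            have hstep : M.Step (M.mixc S c1 c2) x1.1 (M.mixc S x1.2 x2.2) := by
              obtain ⟨d, hd1, hd2, hd3⟩ := h1.1
              obtain ⟨d', _, _, hd3'⟩ := h2.1
              refine ⟨d, ?_, ?_, ?_⟩
              · simp only [mixc, hf, hfx, Bool.false_eq_true, if_false, if_true]
                rw [← hq]
                exact hd1
              · simp only [mixc, hf, hfx, Bool.false_eq_true, if_false, if_true]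
                rw [← hpos]
                exact hd2
              · intro z hz
                simp only [mixc, hf, Bool.false_eq_true, if_false] at hz ⊢
                cases hSz : S z
                · simp only [Bool.false_eq_true, if_false]
                  exact hd3 z hz
                · simp only [if_true]
                  apply hd3'
                  rintro rfl
                  rw [hf2] at hSz
                  exact absurd hSz (by simp)
            refine ⟨g1, (x1.1, M.mixc S x1.2 x2.2) :: l3, ⟨hstep, g2⟩, ?_, g4⟩
            rw [MIX_pword_cons, g3, MIX_blocks_cross M S c1 x1 l1' hx,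
              MIX_blocks_cross M S c2 x2 l2' hx2, hfx, hf]
            simp [mixb, List.map_append, Function.comp_def]
  intro S c1 c2 l1 l2 hn h1 h2 hs hm
  cases hf : S c1.pos
  · exact key S c1 c2 l1 l2 hn h1 h2 hs hm hf
  · apply MIX_goal_symm M S c1 c2 l1 l2 hs
    apply key (fun z => !S z) c2 c1 l2 l1 (by omega) h2 h1
    · simp [hs]
    · rw [MIX_msgs_compl, MIX_msgs_compl, hm]
    · simp [← hs, hf]

/-- Cut and paste along an arbitrary set `S` of tape cells: two paths with the same messages can be
mixed; the mixed path reads the mixed word. -/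
theorem mix_path (S : ℤ → Bool) (c1 c2 : M.Cfg) (l1 l2 : List (Option A × M.Cfg))
    (h1 : M.IsPath c1 l1) (h2 : M.IsPath c2 l2) (hs : S c1.pos = S c2.pos)
    (hm : M.msgs S c1 l1 = M.msgs S c2 l2) :
    S (M.endc c1 l1).pos = S (M.endc c2 l2).pos ∧
    ∃ l3, M.IsPath (M.mixc S c1 c2) l3 ∧
      M.pword l3 =
        ((mixb (S c1.pos) (M.blocks S c1 l1) (M.blocks S c2 l2)).flatten).map Prod.snd ∧
      M.endc (M.mixc S c1 c2) l3 = M.mixc S (M.endc c1 l1) (M.endc c2 l2) :=
  MIX_main M _ S c1 c2 l1 l2 rfl h1 h2 hs hm

end TapeMachine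

end Pool.Agent.QT
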