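import Pool.Agent.QT.Runs
import Pool.Agent.QT.MIX
import Pool.Agent.QT.COREA
import Pool.Agent.QT.EXA

/-! Words in the same class agree. -/

namespace Pool.Agent.QT

open QSym

variable {N : TapeMachine QSym} {K pad T : ℕ}

private theorem clsa_trueSide {α β : Type*} (F : List α → List β) (h0 : F [] = [])
    (ha : ∀ u v, F (u ++ v) = F u ++ F v) (b : Bool) (us : List (List α)) :
    trueSide b (us.map F) = F (trueSide b us) := by
  induction us generalizing b with
  | nil => cases b <;> simp [trueSide, h0]
  | cons u us ih =>
    simp only [List.map_cons, trueSide, ha, ih]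
    cases b
    · simp [h0]
    · simp

private theorem clsa_flatten {α β : Type*} (F : List α → List β) (h0 : F [] = [])
    (ha : ∀ u v, F (u ++ v) = F u ++ F v) (us : List (List α)) :
    (us.map F).flatten = F us.flatten := by
  induction us with
  | nil => simp [h0]
  | cons u us ih => simp only [List.map_cons, List.flatten_cons, ha, ih]

private theorem clsa_part_append (p : Fin 4) (u v : List (Fin 4 × QSym)) :
    part p (u ++ v) = part p u ++ part p v := by
  simp [part]

private theorem clsa_part_ph_self (p : Fin 4) (w : List QSym) : part p (ph p w) = w := by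
  induction w with
  | nil => rfl
  | cons a w ih => simpa [part, ph] using ih

private theorem clsa_part_ph_ne (p q : Fin 4) (hpq : q ≠ p) (w : List QSym) :
    part p (ph q w) = [] := by
  induction w with
  | nil => rfl
  | cons a w ih => simp [part, ph, hpq]

private theorem clsa_part_ann (K pad r : ℕ) (y : List Bool) (g : List (List Bool)) :
    part 2 (annA K pad r y g) = giantW y g := by
  unfold annA
  rw [clsa_part_append, clsa_part_append, clsa_part_append, clsa_part_ph_self,
    clsa_part_ph_ne 2 0 (by decide), clsa_part_ph_ne 2 1 (by decide),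
    clsa_part_ph_ne 2 3 (by decide)]
  simp

private theorem clsa_mix_init (S : ℤ → Bool) : N.mixc S N.init N.init = N.init := by
  unfold TapeMachine.mixc TapeMachine.init
  simp

theorem class_A (hN : ∀ w, N.Accepts w ↔ w ∈ Fifo) (R : Runs N K pad T) (S : ℤ → Bool)
    (ω ω' : Om K) (r r' j0 : ℕ) (vs vs' : List (List (Fin 4 × QSym)))
    (h : HasAnn R S ω r j0 vs) (h' : HasAnn R S ω' r' j0 vs')
    (hm : N.msgs S N.init (R.path ω) = N.msgs S N.init (R.path ω'))
    (heads : vs.map List.head? = vs'.map List.head?)
    (hnet : net (part 0 (trueSide (S 0) vs)) = net (part 0 (trueSide (S 0) vs')))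
    (hrot : (dvals (part 1 (trueSide (S 0) vs))).length =
      (dvals (part 1 (trueSide (S 0) vs'))).length)
    (hcnt : vs.map (fun v => (dvals (part 2 v)).length) =
      vs'.map (fun v => (dvals (part 2 v)).length))
    (hfalse : dvals (part 2 (trueSide (!S 0) vs)) = dvals (part 2 (trueSide (!S 0) vs'))) :
    yl ω = yl ω' := by
  obtain ⟨hA, hB⟩ := h
  obtain ⟨hA', hB'⟩ := h'
  obtain ⟨-, l3, hp, hword, hend⟩ := N.mix_path S N.init N.init (R.path ω) (R.path ω')
    (R.isPath ω) (R.isPath ω') rfl hm
  rw [clsa_mix_init] at hp hend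
  have hpos : (N.init).pos = 0 := rfl
  rw [hpos] at hword
  have hacc : (N.endc N.init l3).q ∈ N.acc := by
    rw [hend]
    unfold TapeMachine.mixc
    show (if S (N.endc N.init (R.path ω)).pos then (N.endc N.init (R.path ω')).q
      else (N.endc N.init (R.path ω)).q) ∈ N.acc
    split_ifs
    · exact R.acc ω'
    · exact R.acc ω
  have hmem : N.pword l3 ∈ Fifo := by
    rw [← hN]
    exact ⟨l3.length, N.endc N.init l3,
      (N.reach_iff _ _ _ _).mpr ⟨l3, hp, rfl, rfl, rfl⟩, hacc⟩
  rw [hword, List.map_flatten, mixb_map, ← hB, ← hB', ← mixb_map, ← List.map_flatten] at hmem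
  have hy := length_yl ω
  have hy' := length_yl ω'
  have hg := length_gl ω
  have hg' := length_gl ω'
  have hcore := coreA hy hy' hg hg' hA hA' heads hnet hrot hcnt hmem
  -- block by block
  set F : List (Fin 4 × QSym) → List Bool := fun v => dvals (part 2 v) with hF
  have hF0 : F [] = [] := rfl
  have hFa : ∀ u v, F (u ++ v) = F u ++ F v := by
    intro u v
    simp only [hF]
    rw [clsa_part_append, dvals_append]
  have hinj : vs.map F = vs'.map F := by
    apply sides_inj (S 0)
    · rw [List.map_map, List.map_map]
      exact hcnt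
    · rw [clsa_trueSide F hF0 hFa, clsa_trueSide F hF0 hFa]
      exact hcore
    · rw [clsa_trueSide F hF0 hFa, clsa_trueSide F hF0 hFa]
      exact hfalse
  have hfl := congrArg List.flatten hinj
  rw [clsa_flatten F hF0 hFa, clsa_flatten F hF0 hFa, hA.flat, hA'.flat] at hfl
  simp only [hF] at hfl
  rw [clsa_part_ann, clsa_part_ann, dvals_giantW _ _ (by rw [hy, hg]),
    dvals_giantW _ _ (by rw [hy', hg'])] at hfl
  exact hfl

end Pool.Agent.QT
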