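import Pool.Agent.QT.FIFO
import Pool.Agent.QT.LISTSB

/-! The combinatorial core of the capacity bound. -/

namespace Pool.Agent.QT

open QSym

/-- the kind of a symbol -/
private def coreB_kind : QSym → Bool
  | enq _ => false
  | deq _ => true

private def coreB_shape (v : List (Fin 4 × QSym)) : List (Fin 4 × Bool) :=
  v.map fun e => (e.1, coreB_kind e.2)

private theorem coreB_shape_append (u v : List (Fin 4 × QSym)) :
    coreB_shape (u ++ v) = coreB_shape u ++ coreB_shape v := by
  simp [coreB_shape]

private theorem coreB_shape_flatten (L : List (List (Fin 4 × QSym))) :
    coreB_shape L.flatten = (L.map coreB_shape).flatten := by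
  induction L with
  | nil => rfl
  | cons a L ih => simp [coreB_shape_append, ih]

private theorem coreB_kind_enq (y y' : List Bool) (h : y.length = y'.length) :
    (y.map enq).map coreB_kind = (y'.map enq).map coreB_kind := by
  induction y generalizing y' with
  | nil =>
    cases y' with
    | nil => rfl
    | cons a l => simp at h
  | cons b y ih =>
    cases y' with
    | nil => simp at h
    | cons a l =>
      simp only [List.length_cons, add_left_inj] at h
      simp only [List.map_cons, ih l h, coreB_kind]

private theorem coreB_kind_rd (y y' : List Bool) (h : y.length = y'.length) :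
    (rdW y).map coreB_kind = (rdW y').map coreB_kind := by
  induction y generalizing y' with
  | nil =>
    cases y' with
    | nil => rfl
    | cons a l => simp at h
  | cons b y ih =>
    cases y' with
    | nil => simp at h
    | cons a l =>
      simp only [List.length_cons, add_left_inj] at h
      have := ih l h
      simp only [rdW, List.flatMap_cons, List.map_append, List.map_cons, List.map_nil, coreB_kind]
        at this ⊢
      rw [this]

private theorem coreB_kind_ring (j : ℕ) (y y' : List Bool) (h : y.length = y'.length) :
    (ringW j y).map coreB_kind = (ringW j y').map coreB_kind := by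
  induction j with
  | zero => rfl
  | succ j ih =>
    simp only [ringW, List.replicate_succ, List.flatten_cons, List.map_append] at ih ⊢
    rw [ih, coreB_kind_rd y y' h]

private theorem coreB_kind_giant (s : ℕ) (y y' : List Bool) (g g' : List (List Bool))
    (h : y.length = y'.length) (hg : y.length = g.length) (hg' : y'.length = g'.length)
    (hs : ∀ u ∈ g, u.length = s) (hs' : ∀ u ∈ g', u.length = s) :
    (giantW y g).map coreB_kind = (giantW y' g').map coreB_kind := by
  induction y generalizing y' g g' with
  | nil =>
    cases y' with
    | nil => simp [giantW]
    | cons a l => simp at h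
  | cons b y ih =>
    cases y' with
    | nil => simp at h
    | cons a l =>
      cases g with
      | nil => simp at hg
      | cons u g =>
        cases g' with
        | nil => simp at hg'
        | cons u' g' =>
          simp only [List.length_cons, add_left_inj] at h hg hg'
          have h1 := ih l g g' h hg hg' (fun v hv => hs v (List.mem_cons_of_mem _ hv))
            (fun v hv => hs' v (List.mem_cons_of_mem _ hv))
          have h2 : u.length = u'.length := by
            rw [hs u (by simp), hs' u' (by simp)]
          simp only [giantW, List.zipWith_cons_cons, List.flatten_cons, List.map_append,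
            List.map_cons] at h1 ⊢
          rw [h1]
          have h3 := coreB_kind_enq u u' h2
          rw [h3]
          simp only [coreB_kind]

private theorem coreB_shape_ph (p : Fin 4) (w w' : List QSym)
    (h : w.map coreB_kind = w'.map coreB_kind) :
    coreB_shape (ph p w) = coreB_shape (ph p w') := by
  have : ∀ v : List QSym, coreB_shape (ph p v) = (v.map coreB_kind).map fun k => (p, k) := by
    intro v
    simp [coreB_shape, ph, List.map_map, Function.comp_def]
  rw [this, this, h]

private theorem coreB_shape_annB {K : ℕ} {y y' : List Bool} {g g' : List (List Bool)}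
    (hy : y.length = K) (hy' : y'.length = K) (hg : g.length = K) (hg' : g'.length = K)
    (hgs : ∀ u ∈ g, u.length = K) (hgs' : ∀ u ∈ g', u.length = K) :
    coreB_shape (annB K y g) = coreB_shape (annB K y' g') := by
  have h : y.length = y'.length := by rw [hy, hy']
  unfold annB
  rw [coreB_shape_append, coreB_shape_append]
  congr 1
  · apply coreB_shape_ph
    rw [List.map_append, List.map_append, coreB_kind_enq y y' h, coreB_kind_ring K y y' h]
  · apply coreB_shape_ph
    exact coreB_kind_giant K y y' g g' h (by rw [hy, hg]) (by rw [hy', hg']) hgs hgs'

private theorem coreB_mixb_self {α : Type*} (b : Bool) (us : List (List α)) :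
    mixb b us us = us := by
  induction us generalizing b with
  | nil => cases b <;> rfl
  | cons u us ih => simp [mixb, ih]

private theorem coreB_mixb_map {α β : Type*} (f : List α → β) (b : Bool)
    (us vs : List (List α)) (h : us.map f = vs.map f) :
    (mixb b us vs).map f = us.map f := by
  induction us generalizing b vs with
  | nil => cases b <;> simp [mixb]
  | cons u us ih =>
    cases vs with
    | nil => simp at h
    | cons v vs =>
      simp only [List.map_cons, List.cons.injEq] at h
      simp only [mixb, List.map_cons, ih (!b) vs h.2]
      cases b
      · rfl
      · simp [h.1]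

/-- the additive function -/
private def coreB_F (v : List (Fin 4 × QSym)) : List Bool := evals (part 2 v)

private theorem coreB_part_append (p : Fin 4) (u v : List (Fin 4 × QSym)) :
    part p (u ++ v) = part p u ++ part p v := by
  simp [part]

private theorem coreB_F_append (u v : List (Fin 4 × QSym)) :
    coreB_F (u ++ v) = coreB_F u ++ coreB_F v := by
  rw [coreB_F, coreB_part_append, evals_append]; rfl

private theorem coreB_F_nil : coreB_F [] = [] := rfl

private theorem coreB_F_flatten (L : List (List (Fin 4 × QSym))) :
    coreB_F L.flatten = (L.map coreB_F).flatten := by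
  induction L with
  | nil => rfl
  | cons a L ih => simp [coreB_F_append, ih]

private theorem coreB_F_trueSide (b : Bool) (L : List (List (Fin 4 × QSym))) :
    coreB_F (trueSide b L) = trueSide b (L.map coreB_F) := by
  induction L generalizing b with
  | nil => cases b <;> rfl
  | cons a L ih =>
    simp only [trueSide, List.map_cons, coreB_F_append, ih]
    cases b
    · simp [coreB_F_nil]
    · simp

/-- lengths are determined by the shape -/
private theorem coreB_len_evals (w w' : List QSym) (h : w.map coreB_kind = w'.map coreB_kind) :
    (evals w).length = (evals w').length ∧ (dvals w).length = (dvals w').length := by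
  induction w generalizing w' with
  | nil =>
    cases w' with
    | nil => exact ⟨rfl, rfl⟩
    | cons a l => simp at h
  | cons a w ih =>
    cases w' with
    | nil => simp at h
    | cons a' w' =>
      simp only [List.map_cons, List.cons.injEq] at h
      obtain ⟨h1, h2⟩ := ih w' h.2
      cases a <;> cases a' <;> simp [coreB_kind] at h <;> simp [evals, dvals, h1, h2]

private theorem coreB_part_shape (p : Fin 4) (v v' : List (Fin 4 × QSym))
    (h : coreB_shape v = coreB_shape v') :
    (part p v).map coreB_kind = (part p v').map coreB_kind := by
  have : ∀ v : List (Fin 4 × QSym), (part p v).map coreB_kind =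
      ((coreB_shape v).filter fun e => e.1 = p).map Prod.snd := by
    intro v
    induction v with
    | nil => rfl
    | cons a v ih =>
      simp only [part, coreB_shape, List.map_cons, List.filter_cons] at ih ⊢
      by_cases hp : a.1 = p
      · simp only [hp, decide_true, if_true, List.map_cons, ih]
      · simp only [hp, decide_false, Bool.false_eq_true, if_false, ih]
  rw [this, this, h]

private theorem coreB_len_F (v v' : List (Fin 4 × QSym)) (h : coreB_shape v = coreB_shape v') :
    (coreB_F v).length = (coreB_F v').length :=
  (coreB_len_evals _ _ (coreB_part_shape 2 v v' h)).1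

private theorem coreB_part_ph_self (p : Fin 4) (w : List QSym) : part p (ph p w) = w := by
  induction w with
  | nil => rfl
  | cons a w ih => simpa [part, ph] using ih

private theorem coreB_part_ph_ne (p q : Fin 4) (hpq : q ≠ p) (w : List QSym) :
    part p (ph q w) = [] := by
  induction w with
  | nil => rfl
  | cons a w ih => simp [part, ph, hpq]

theorem coreB {K pad : ℕ} {b0 : Bool} {y y' : List Bool} {g g' : List (List Bool)}
    {vs vs' : List (List (Fin 4 × QSym))}
    (hy : y.length = K) (hy' : y'.length = K) (hg : g.length = K) (hg' : g'.length = K)
    (hgs : ∀ u ∈ g, u.length = K) (hgs' : ∀ u ∈ g', u.length = K)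
    (h : vs.flatten = annB K y g) (h' : vs'.flatten = annB K y' g')
    (hlen : vs.map List.length = vs'.map List.length)
    (hmem : (mixb b0 vs vs').flatten.map Prod.snd ++ tailW pad g ∈ Fifo) :
    evals (part 2 (trueSide b0 vs)) = evals (part 2 (trueSide b0 vs')) := by
  have hvl : vs.length = vs'.length := by
    simpa using congrArg List.length hlen
  -- block by block equality of shapes
  have hsh : vs.map coreB_shape = vs'.map coreB_shape := by
    rw [List.eq_iff_flatten_eq]
    constructor
    · rw [← coreB_shape_flatten, ← coreB_shape_flatten, h, h',
        coreB_shape_annB hy hy' hg hg' hgs hgs']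
    · have e : ∀ us : List (List (Fin 4 × QSym)),
          (us.map coreB_shape).map List.length = us.map List.length := by
        intro us
        simp [List.map_map, Function.comp_def, coreB_shape]
      rw [e, e, hlen]
  set m := mixb b0 vs vs' with hm
  have hmsh : m.map coreB_shape = vs.map coreB_shape := coreB_mixb_map _ _ _ _ hsh
  have hmf : coreB_shape m.flatten = coreB_shape (annB K y g) := by
    rw [coreB_shape_flatten, hmsh, ← coreB_shape_flatten, h]
  -- split the mixture
  set w0 := y.map enq ++ ringW K y with hw0
  set n0 := w0.length with hn0
  have hann : annB K y g = ph 0 w0 ++ ph 2 (giantW y g) := rfl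
  have hAB : m.flatten = m.flatten.take n0 ++ m.flatten.drop n0 := (List.take_append_drop _ _).symm
  set A := m.flatten.take n0 with hA
  set B := m.flatten.drop n0 with hB
  have hshA : coreB_shape A = coreB_shape (ph 0 w0) := by
    have : coreB_shape A = (coreB_shape m.flatten).take n0 := by
      simp [coreB_shape, hA, List.map_take]
    rw [this, hmf, hann, coreB_shape_append]
    have hl : (coreB_shape (ph 0 w0)).length = n0 := by simp [coreB_shape, ph, hn0]
    rw [List.take_append_of_le_length (by rw [hl]), ← hl, List.take_length]
  have hshB : coreB_shape B = coreB_shape (ph 2 (giantW y g)) := by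
    have : coreB_shape B = (coreB_shape m.flatten).drop n0 := by
      simp [coreB_shape, hB, List.map_drop]
    rw [this, hmf, hann, coreB_shape_append]
    have hl : (coreB_shape (ph 0 w0)).length = n0 := by simp [coreB_shape, ph, hn0]
    rw [← hl, List.drop_left']
    rfl
  -- all phases in A are 0, in B are 2
  have hkeyph : ∀ (p : Fin 4) (v : List (Fin 4 × QSym)) (w : List QSym),
      coreB_shape v = coreB_shape (ph p w) → v = ph p (v.map Prod.snd) ∧
        (v.map Prod.snd).map coreB_kind = w.map coreB_kind := by
    intro p v
    induction v with
    | nil =>
      intro w hv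
      cases w with
      | nil => exact ⟨rfl, rfl⟩
      | cons a w => simp [coreB_shape, ph] at hv
    | cons a v ih =>
      intro w hv
      cases w with
      | nil => simp [coreB_shape, ph] at hv
      | cons b w =>
        simp only [coreB_shape, ph, List.map_cons, List.cons.injEq, Prod.mk.injEq] at hv
        obtain ⟨i1, i2⟩ := ih w (by simpa [coreB_shape, ph] using hv.2)
        constructor
        · simp only [ph, List.map_cons] at i1 ⊢
          rw [← i1]
          congr 1
          exact Prod.ext hv.1.1 rfl
        · simp only [List.map_cons, i2, hv.1.2]
  obtain ⟨hA1, hA2⟩ := hkeyph 0 A w0 hshA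
  obtain ⟨hB1, hB2⟩ := hkeyph 2 B (giantW y g) hshB
  obtain ⟨C, hC⟩ := hmem
  have hfe := fifo_eq _ _ _ hC
  have hgl : g.flatten.length = K * K := by
    rw [List.length_flatten]
    have : g.map List.length = List.replicate K K := by
      rw [List.eq_replicate_iff]
      refine ⟨by simp [hg], ?_⟩
      intro b hb
      obtain ⟨u, hu, rfl⟩ := List.mem_map.1 hb
      exact hgs u hu
    rw [this]; simp
  obtain ⟨lA1, lA2⟩ := coreB_len_evals _ _ hA2
  obtain ⟨lB1, lB2⟩ := coreB_len_evals _ _ hB2
  have hrep : ((List.replicate K y).flatten).length = K * K := by
    rw [List.length_flatten]; simp [hy]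
  have eA1 : (evals (A.map Prod.snd)).length = K + K * K := by
    rw [lA1, hw0, evals_append, evals_map_enq, evals_ringW, List.length_append, hrep, hy]
  have eA2 : (dvals (A.map Prod.snd)).length = K * K := by
    rw [lA2, hw0, dvals_append, dvals_map_enq, dvals_ringW, List.length_append, hrep]; simp
  have eB1 : (evals (B.map Prod.snd)).length = K * K := by
    rw [lB1, evals_giantW y g (by rw [hy, hg]), hgl]
  have eB2 : (dvals (B.map Prod.snd)).length = K := by
    rw [lB2, dvals_giantW y g (by rw [hy, hg]), hy]
  have hmw : m.flatten.map Prod.snd = A.map Prod.snd ++ B.map Prod.snd := by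
    rw [← List.map_append, ← hAB]
  have hFm : coreB_F m.flatten = evals (B.map Prod.snd) := by
    rw [hAB, coreB_F_append]
    have f1 : coreB_F A = [] := by
      rw [hA1, coreB_F, coreB_part_ph_ne 2 0 (by decide)]; rfl
    have f2 : coreB_F B = evals (B.map Prod.snd) := by
      conv_lhs => rw [hB1, coreB_F, coreB_part_ph_self]
    rw [f1, f2]; rfl
  have hBg : evals (B.map Prod.snd) = g.flatten := by
    rw [hmw, evals_append, evals_append, dvals_append, dvals_append] at hfe
    have ht : dvals (tailW pad g) = g.flatten := by
      rw [tailW, dvals_append, dvals_map_deq]
      have : ∀ n, dvals (List.replicate n (enq false)) = [] := by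
        intro n
        induction n with
        | zero => rfl
        | succ n ih => rw [List.replicate_succ, dvals, ih]
      rw [this]; simp
    rw [ht] at hfe
    simp only [List.nil_append] at hfe
    have hfe' : evals (A.map Prod.snd) ++ (evals (B.map Prod.snd) ++ evals (tailW pad g)) =
        (dvals (A.map Prod.snd) ++ dvals (B.map Prod.snd)) ++ (g.flatten ++ C) := by
      simpa [List.append_assoc] using hfe
    have h1 := List.append_inj hfe' (by rw [List.length_append, eA1, eA2, eB2]; ring)
    have h2 := List.append_inj h1.2 (by rw [eB1, hgl])
    exact h2.1
  have hFv : coreB_F vs.flatten = g.flatten := by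
    rw [h, hann, coreB_F_append]
    have f1 : coreB_F (ph 0 w0) = [] := by
      rw [coreB_F, coreB_part_ph_ne 2 0 (by decide)]; rfl
    have f2 : coreB_F (ph 2 (giantW y g)) = g.flatten := by
      rw [coreB_F, coreB_part_ph_self, evals_giantW y g (by rw [hy, hg])]
    rw [f1, f2]; rfl
  have hblock : m.map coreB_F = vs.map coreB_F := by
    rw [List.eq_iff_flatten_eq]
    constructor
    · rw [← coreB_F_flatten, ← coreB_F_flatten, hFm, hBg, hFv]
    · -- lengths determined by shapes
      have : ∀ us us' : List (List (Fin 4 × QSym)), us.map coreB_shape = us'.map coreB_shape →
          (us.map coreB_F).map List.length = (us'.map coreB_F).map List.length := by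
        intro us
        induction us with
        | nil =>
          intro us' hu
          cases us' with
          | nil => rfl
          | cons a l => simp at hu
        | cons u us ih =>
          intro us' hu
          cases us' with
          | nil => simp at hu
          | cons a l =>
            simp only [List.map_cons, List.cons.injEq] at hu
            simp only [List.map_cons, ih l hu.2, coreB_len_F u a hu.1]
      exact this _ _ hmsh
  have h1 : coreB_F (trueSide b0 m) = coreB_F (trueSide b0 vs) := by
    rw [coreB_F_trueSide, coreB_F_trueSide, hblock]
  rw [hm, trueSide_mixb _ _ _ hvl] at h1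
  exact h1.symm

end Pool.Agent.QT
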