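import Pool.Agent.QT.EXA

/-! Annotation of a first part of the path. -/

namespace Pool.Agent.QT

open QSym

variable {N : TapeMachine QSym} {K pad T : ℕ}

private theorem exb_snd_ph (p : Fin 4) (w : List QSym) : (ph p w).map Prod.snd = w := by
  simp [ph, Function.comp_def]

private theorem exb_zip1 {α β γ : Type*} (f : α → γ) (g : β → γ) (u : List α) (v : List β)
    (h : u.map f = v.map g) : ∃ w : List (α × β), w.map Prod.fst = u ∧ w.map Prod.snd = v ∧
      ∀ t ∈ w, f t.1 = g t.2 := by
  induction u generalizing v with
  | nil =>
    cases v with
    | nil => exact ⟨[], rfl, rfl, by simp⟩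
    | cons y v => simp at h
  | cons x u ih =>
    cases v with
    | nil => simp at h
    | cons y v =>
      simp only [List.map_cons, List.cons.injEq] at h
      obtain ⟨w, h1, h2, h3⟩ := ih v h.2
      refine ⟨(x, y) :: w, by simp [h1], by simp [h2], ?_⟩
      intro t ht
      rcases List.mem_cons.mp ht with rfl | ht
      · exact h.1
      · exact h3 t ht

private theorem exb_zip2 {α β γ : Type*} (f : α → γ) (g : β → γ) (us : List (List α))
    (vs : List (List β)) (h : us.map (List.map f) = vs.map (List.map g)) :
    ∃ ws : List (List (α × β)), ws.map (List.map Prod.fst) = us ∧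
      ws.map (List.map Prod.snd) = vs ∧ ∀ w ∈ ws, ∀ t ∈ w, f t.1 = g t.2 := by
  induction us generalizing vs with
  | nil =>
    cases vs with
    | nil => exact ⟨[], rfl, rfl, by simp⟩
    | cons y v => simp at h
  | cons x u ih =>
    cases vs with
    | nil => simp at h
    | cons y v =>
      simp only [List.map_cons, List.cons.injEq] at h
      obtain ⟨ws, h1, h2, h3⟩ := ih v h.2
      obtain ⟨w, h4, h5, h6⟩ := exb_zip1 f g x y h.1
      refine ⟨w :: ws, by simp [h1, h4], by simp [h2, h5], ?_⟩
      intro t ht
      rcases List.mem_cons.mp ht with rfl | ht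
      · exact h6
      · exact h3 t ht

private theorem exb_side {α : Type*} (p : α → Bool) (ws : List (List α)) :
    ∀ (b : Bool), (∀ (i : ℕ) (B : List α), ws[i]? = some B → ∀ e ∈ B,
      p e = (b ^^ decide (i % 2 = 1))) → trueSide b ws = ws.flatten.filter p := by
  induction ws with
  | nil => intro b _; rfl
  | cons u ws ih =>
    intro b h
    have h0 : ∀ e ∈ u, p e = b := by
      intro e he
      have := h 0 u rfl e he
      simpa using this
    have h1 : trueSide (!b) ws = ws.flatten.filter p := by
      apply ih
      intro i B hB e he
      have h2 := h (i + 1) B (by simpa using hB) e he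
      rw [h2]
      have h3 : decide ((i + 1) % 2 = 1) = !decide (i % 2 = 1) := by
        rcases Nat.mod_two_eq_zero_or_one i with h4 | h4
        · have : (i + 1) % 2 = 1 := by omega
          simp [h4, this]
        · have : (i + 1) % 2 = 0 := by omega
          simp [h4, this]
      rw [h3]
      cases b <;> simp
    simp only [trueSide, List.flatten_cons, List.filter_append, h1]
    congr 1
    cases b with
    | false =>
      symm
      simp only [Bool.false_eq_true, if_false]
      rw [List.filter_eq_nil_iff]
      intro e he
      rw [h0 e he]
      simp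
    | true =>
      symm
      simp only [if_true]
      rw [List.filter_eq_self]
      exact h0

private theorem exb_dvals (v : List QSym) : (dvals v).length = (v.filter isDeq).length := by
  induction v with
  | nil => rfl
  | cons a v ih =>
    cases a with
    | enq b =>
      rw [List.filter_cons_of_neg (by show ¬ (false = true); decide)]
      exact ih
    | deq b =>
      rw [List.filter_cons_of_pos (show isDeq (deq b) = true from rfl), List.length_cons, ← ih]
      rfl

private theorem exb_glen (ω : Om K) : (gl ω).flatten.length = K * K := by
  rw [List.length_flatten]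
  have h4 : (gl ω).map List.length = List.replicate K K := by
    apply List.ext_getElem
    · simp [length_gl]
    · intro i hi1 hi2
      rw [List.getElem_map, List.getElem_replicate]
      exact length_of_mem_gl ω _ (List.getElem_mem _)
  rw [h4]
  simp

/-- annotation of the blocks of a first part of the path, and the number of `deq` symbols of the
long round read inside `S` -/
theorem exists_annB (R : Runs N K pad T) (S : ℤ → Bool) (ω : Om K)
    (l1 l2 : List (Option QSym × N.Cfg)) (hl : R.path ω = l1 ++ l2)
    (hw : N.pword l1 = headW K (yl ω) (gl ω)) :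
    ∃ vs : List (List (Fin 4 × QSym)),
      vs.map (List.map Prod.snd) = (N.blocks S N.init l1).map (List.map Prod.snd) ∧
      vs.flatten = annB K (yl ω) (gl ω) ∧
      (dvals (part 2 (trueSide (S 0) vs))).length =
        ((gpos K (N.reads N.init (R.path ω))).filter S).length := by
  obtain ⟨vs, hv1, hv2⟩ := exists_ann (Prod.snd : Fin 4 × QSym → QSym)
    ((N.blocks S N.init l1).map (List.map Prod.snd)) (annB K (yl ω) (gl ω)) (by
      rw [← List.map_flatten, N.blocks_flatten, N.reads_snd, hw, annB, List.map_append,
        exb_snd_ph, exb_snd_ph, headW])
  refine ⟨vs, hv1, hv2, ?_⟩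
  obtain ⟨ws, h1, h2, h3⟩ := exb_zip2 (Prod.snd : ℤ × QSym → QSym)
    (Prod.snd : Fin 4 × QSym → QSym) (N.blocks S N.init l1) vs hv1.symm
  have hp : N.init.pos = 0 := rfl
  have hside : trueSide (S 0) ws = ws.flatten.filter fun t => S t.1.1 := by
    apply exb_side
    intro i B hB e he
    have h4 : (N.blocks S N.init l1)[i]? = some (B.map Prod.fst) := by
      rw [← h1, List.getElem?_map, hB]
      rfl
    have h5 := N.blocks_side S N.init l1 i (B.map Prod.fst) h4 e.1
      (List.mem_map.mpr ⟨e, he, rfl⟩)
    rw [hp] at h5
    exact h5
  have hvs : trueSide (S 0) vs = (ws.flatten.filter fun t => S t.1.1).map Prod.snd := by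
    rw [← h2, trueSide_map, hside]
  have hflat : ws.flatten.map Prod.snd = annB K (yl ω) (gl ω) := by
    rw [List.map_flatten, h2, hv2]
  have hreads : N.reads N.init l1 = ws.flatten.map Prod.fst := by
    rw [List.map_flatten, h1, N.blocks_flatten]
  have hsym : ∀ t ∈ ws.flatten, t.1.2 = t.2.2 := by
    intro t ht
    rw [List.mem_flatten] at ht
    obtain ⟨w, hw, htw⟩ := ht
    exact h3 w hw t htw
  set F := ws.flatten with hF
  set A := K + K * (2 * K) with hAdef
  set B := K + K * K with hBdef
  have hlen0 : (ph 0 ((yl ω).map enq ++ ringW K (yl ω))).length = A := by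
    simp only [ph, List.length_append, List.length_map, length_ringW, length_yl]
    rfl
  have hlen2 : (ph 2 (giantW (yl ω) (gl ω))).length = B := by
    simp only [ph, List.length_map]
    rw [length_giantW _ _ (by rw [length_yl, length_gl]), length_yl, exb_glen]
  have hlenF : F.length = A + B := by
    have h4 := congrArg List.length hflat
    rw [List.length_map, annB, List.length_append, hlen0, hlen2] at h4
    exact h4
  -- cut the list
  have e0 : (F.take A).map Prod.snd = ph 0 ((yl ω).map enq ++ ringW K (yl ω)) := by
    rw [List.map_take, hflat]
    unfold annB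
    rw [List.take_append_of_le_length (by rw [hlen0]), List.take_of_length_le (by rw [hlen0])]
  have e2 : (F.drop A).map Prod.snd = ph 2 (giantW (yl ω) (gl ω)) := by
    rw [List.map_drop, hflat]
    unfold annB
    rw [List.drop_append_of_le_length (by rw [hlen0]), List.drop_of_length_le (by rw [hlen0]),
      List.nil_append]
  have hcut : F = F.take A ++ F.drop A := (List.take_append_drop _ _).symm
  have p0 : ∀ t ∈ F.take A, t.2.1 ≠ 2 := by
    intro t ht
    have h4 : t.2 ∈ (F.take A).map Prod.snd := List.mem_map.mpr ⟨t, ht, rfl⟩
    rw [e0] at h4
    simp only [ph, List.mem_map] at h4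
    obtain ⟨x, _, hx⟩ := h4
    rw [← hx]
    exact (by decide : (0 : Fin 4) ≠ 2)
  have p2 : ∀ t ∈ F.drop A, t.2.1 = 2 := by
    intro t ht
    have h4 : t.2 ∈ (F.drop A).map Prod.snd := List.mem_map.mpr ⟨t, ht, rfl⟩
    rw [e2] at h4
    simp only [ph, List.mem_map] at h4
    obtain ⟨x, _, hx⟩ := h4
    rw [← hx]
  -- both sides count the same positions
  have hL : (dvals (part 2 (trueSide (S 0) vs))).length =
      (F.filter fun t => S t.1.1 && (decide (t.2.1 = 2) && isDeq t.2.2)).length := by
    rw [exb_dvals, hvs, part]
    simp only [List.filter_map, List.length_map, List.filter_filter]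
    congr 1
    apply List.filter_congr
    intro t _
    simp only [Function.comp_apply]
    cases S t.1.1 <;> cases isDeq t.2.2 <;> simp
  have hM : (F.filter fun t => S t.1.1 && (decide (t.2.1 = 2) && isDeq t.2.2)) =
      (F.drop A).filter fun t => S t.1.1 && isDeq t.1.2 := by
    conv_lhs => rw [hcut]
    rw [List.filter_append]
    have q1 : ((F.take A).filter fun t => S t.1.1 && (decide (t.2.1 = 2) && isDeq t.2.2)) = [] := by
      rw [List.filter_eq_nil_iff]
      intro t ht
      simp [p0 t ht]
    rw [q1, List.nil_append]
    apply List.filter_congr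
    intro t ht
    have h4 : t ∈ F := List.mem_of_mem_drop ht
    rw [hsym t h4, p2 t ht]
    simp
  have hR : ((N.reads N.init (R.path ω)).drop A).take B = (F.drop A).map Prod.fst := by
    rw [hl, N.reads_append, hreads, List.drop_append_of_le_length (by
      rw [List.length_map, hlenF]
      omega), ← List.map_drop, List.take_append_of_le_length (by
      rw [List.length_map, List.length_drop, hlenF]
      omega), List.take_of_length_le (by
      rw [List.length_map, List.length_drop, hlenF]
      omega)]
  rw [hL, hM, gpos, hR]
  simp only [List.filter_map, List.length_map, List.filter_filter]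
  congr 1

private theorem exb_part_append (p : Fin 4) (u v : List (Fin 4 × QSym)) :
    part p (u ++ v) = part p u ++ part p v := by
  simp [part]

private theorem exb_part_ph_self (p : Fin 4) (w : List QSym) : part p (ph p w) = w := by
  induction w with
  | nil => rfl
  | cons a w ih => simpa [part, ph] using ih

private theorem exb_part_ph_ne (p q : Fin 4) (hpq : q ≠ p) (w : List QSym) :
    part p (ph q w) = [] := by
  induction w with
  | nil => rfl
  | cons a w ih => simp [part, ph, hpq]

private theorem exb_sum (K : ℕ) (b : Bool) (vs : List (List (Fin 4 × QSym)))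
    (h : ∀ v ∈ vs, K * (dvals (part 2 v)).length ≤ (evals (part 2 v)).length + K) :
    K * (dvals (part 2 (trueSide b vs))).length ≤
      (evals (part 2 (trueSide b vs))).length + K * vs.length := by
  induction vs generalizing b with
  | nil =>
    cases b <;> simp [trueSide, part, dvals]
  | cons v vs ih =>
    have h1 := ih (!b) (fun u hu => h u (List.mem_cons_of_mem _ hu))
    have h2 := h v List.mem_cons_self
    simp only [trueSide, exb_part_append, dvals_append, evals_append, List.length_append,
      List.length_cons]
    cases b with
    | false =>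
      have e1 : part 2 (if false = true then v else []) = [] := rfl
      rw [e1]
      have e2 : (dvals []).length = 0 := rfl
      have e3 : (evals []).length = 0 := rfl
      rw [e2, e3]
      nlinarith
    | true =>
      rw [if_pos rfl]
      nlinarith

/-- many `deq` symbols and few blocks on the `true` side force many `enq` symbols there -/
theorem annB_enq (ω : Om K) (b0 : Bool) (vs : List (List (Fin 4 × QSym)))
    (h : vs.flatten = annB K (yl ω) (gl ω)) :
    K * (dvals (part 2 (trueSide b0 vs))).length ≤
      (evals (part 2 (trueSide b0 vs))).length + K * vs.length := by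
  apply exb_sum
  intro v hv
  obtain ⟨V1, V2, rfl⟩ := List.append_of_mem hv
  have h1 : giantW (yl ω) (gl ω) = part 2 V1.flatten ++ part 2 v ++ part 2 V2.flatten := by
    have h2 := congrArg (part 2) h
    rw [annB, exb_part_append, exb_part_ph_self, exb_part_ph_ne 2 0 (by decide),
      List.flatten_append, List.flatten_cons, exb_part_append, exb_part_append] at h2
    rw [List.nil_append] at h2
    rw [← h2, List.append_assoc]
  exact giant_factor K (yl ω) (gl ω) (length_of_mem_gl ω) _ _ _ h1

end Pool.Agent.QT
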