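import Pool.Agent.QT.Runs
import Pool.Agent.QT.MIX
import Pool.Agent.QT.COREB
import Pool.Agent.QT.EXB

/-! Words in the same class agree (capacity bound). -/

namespace Pool.Agent.QT

open QSym

variable {N : TapeMachine QSym} {K pad T : ℕ}

private theorem clsb_trueSide {α β : Type*} (F : List α → List β) (h0 : F [] = [])
    (ha : ∀ u v, F (u ++ v) = F u ++ F v) (b : Bool) (us : List (List α)) :
    trueSide b (us.map F) = F (trueSide b us) := by
  induction us generalizing b with
  | nil => cases b <;> simp [trueSide, h0]
  | cons u us ih =>
    simp only [List.map_cons, trueSide, ha, ih]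
    cases b
    · simp [h0]
    · simp

private theorem clsb_flatten {α β : Type*} (F : List α → List β) (h0 : F [] = [])
    (ha : ∀ u v, F (u ++ v) = F u ++ F v) (us : List (List α)) :
    (us.map F).flatten = F us.flatten := by
  induction us with
  | nil => simp [h0]
  | cons u us ih => simp only [List.map_cons, List.flatten_cons, ha, ih]

private theorem clsb_part_append (p : Fin 4) (u v : List (Fin 4 × QSym)) :
    part p (u ++ v) = part p u ++ part p v := by
  simp [part]

private theorem clsb_part_ph_self (p : Fin 4) (w : List QSym) : part p (ph p w) = w := by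
  induction w with
  | nil => rfl
  | cons a w ih => simpa [part, ph] using ih

private theorem clsb_part_ph_ne (p q : Fin 4) (hpq : q ≠ p) (w : List QSym) :
    part p (ph q w) = [] := by
  induction w with
  | nil => rfl
  | cons a w ih => simp [part, ph, hpq]

private theorem clsb_part_ann (K : ℕ) (y : List Bool) (g : List (List Bool)) :
    part 2 (annB K y g) = giantW y g := by
  unfold annB
  rw [clsb_part_append, clsb_part_ph_self, clsb_part_ph_ne 2 0 (by decide)]
  simp

private theorem clsb_mix_init (S : ℤ → Bool) : N.mixc S N.init N.init = N.init := by
  unfold TapeMachine.mixc TapeMachine.init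
  simp

/-- the kind of a symbol -/
private def clsb_kind : QSym → Bool
  | enq _ => false
  | deq _ => true

private def clsb_shape (v : List (Fin 4 × QSym)) : List (Fin 4 × Bool) :=
  v.map fun e => (e.1, clsb_kind e.2)

private theorem clsb_shape_append (u v : List (Fin 4 × QSym)) :
    clsb_shape (u ++ v) = clsb_shape u ++ clsb_shape v := by
  simp [clsb_shape]

private theorem clsb_shape_flatten (L : List (List (Fin 4 × QSym))) :
    clsb_shape L.flatten = (L.map clsb_shape).flatten := by
  induction L with
  | nil => rfl
  | cons a L ih => simp [clsb_shape_append, ih]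

private theorem clsb_kind_enq (y y' : List Bool) (h : y.length = y'.length) :
    (y.map enq).map clsb_kind = (y'.map enq).map clsb_kind := by
  induction y generalizing y' with
  | nil =>
    cases y' with
    | nil => rfl
    | cons a l => simp at h
  | cons b y ih =>
    cases y' with
    | nil => simp at h
    | cons a l =>
      simp only [List.length_cons, add_left_inj] at h
      simp only [List.map_cons, ih l h, clsb_kind]

private theorem clsb_kind_rd (y y' : List Bool) (h : y.length = y'.length) :
    (rdW y).map clsb_kind = (rdW y').map clsb_kind := by
  induction y generalizing y' with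
  | nil =>
    cases y' with
    | nil => rfl
    | cons a l => simp at h
  | cons b y ih =>
    cases y' with
    | nil => simp at h
    | cons a l =>
      simp only [List.length_cons, add_left_inj] at h
      have := ih l h
      simp only [rdW, List.flatMap_cons, List.map_append, List.map_cons, List.map_nil, clsb_kind]
        at this ⊢
      rw [this]

private theorem clsb_kind_ring (j : ℕ) (y y' : List Bool) (h : y.length = y'.length) :
    (ringW j y).map clsb_kind = (ringW j y').map clsb_kind := by
  induction j with
  | zero => rfl
  | succ j ih =>
    simp only [ringW, List.replicate_succ, List.flatten_cons, List.map_append] at ih ⊢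
    rw [ih, clsb_kind_rd y y' h]

private theorem clsb_kind_giant (s : ℕ) (y y' : List Bool) (g g' : List (List Bool))
    (h : y.length = y'.length) (hg : y.length = g.length) (hg' : y'.length = g'.length)
    (hs : ∀ u ∈ g, u.length = s) (hs' : ∀ u ∈ g', u.length = s) :
    (giantW y g).map clsb_kind = (giantW y' g').map clsb_kind := by
  induction y generalizing y' g g' with
  | nil =>
    cases y' with
    | nil => simp [giantW]
    | cons a l => simp at h
  | cons b y ih =>
    cases y' with
    | nil => simp at h
    | cons a l =>
      cases g with
      | nil => simp at hg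
      | cons u g =>
        cases g' with
        | nil => simp at hg'
        | cons u' g' =>
          simp only [List.length_cons, add_left_inj] at h hg hg'
          have h1 := ih l g g' h hg hg' (fun v hv => hs v (List.mem_cons_of_mem _ hv))
            (fun v hv => hs' v (List.mem_cons_of_mem _ hv))
          have h2 : u.length = u'.length := by
            rw [hs u (by simp), hs' u' (by simp)]
          simp only [giantW, List.zipWith_cons_cons, List.flatten_cons, List.map_append,
            List.map_cons] at h1 ⊢
          rw [h1]
          have h3 := clsb_kind_enq u u' h2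
          rw [h3]
          simp only [clsb_kind]

private theorem clsb_shape_ph (p : Fin 4) (w w' : List QSym)
    (h : w.map clsb_kind = w'.map clsb_kind) :
    clsb_shape (ph p w) = clsb_shape (ph p w') := by
  have : ∀ v : List QSym, clsb_shape (ph p v) = (v.map clsb_kind).map fun k => (p, k) := by
    intro v
    simp [clsb_shape, ph, List.map_map, Function.comp_def]
  rw [this, this, h]

private theorem clsb_shape_annB {K : ℕ} {y y' : List Bool} {g g' : List (List Bool)}
    (hy : y.length = K) (hy' : y'.length = K) (hg : g.length = K) (hg' : g'.length = K)
    (hgs : ∀ u ∈ g, u.length = K) (hgs' : ∀ u ∈ g', u.length = K) :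
    clsb_shape (annB K y g) = clsb_shape (annB K y' g') := by
  have h : y.length = y'.length := by rw [hy, hy']
  unfold annB
  rw [clsb_shape_append, clsb_shape_append]
  congr 1
  · apply clsb_shape_ph
    rw [List.map_append, List.map_append, clsb_kind_enq y y' h, clsb_kind_ring K y y' h]
  · apply clsb_shape_ph
    exact clsb_kind_giant K y y' g g' h (by rw [hy, hg]) (by rw [hy', hg']) hgs hgs'

/-- lengths are determined by the shape -/
private theorem clsb_len_evals (w w' : List QSym) (h : w.map clsb_kind = w'.map clsb_kind) :
    (evals w).length = (evals w').length := by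
  induction w generalizing w' with
  | nil =>
    cases w' with
    | nil => rfl
    | cons a l => simp at h
  | cons a w ih =>
    cases w' with
    | nil => simp at h
    | cons a' w' =>
      simp only [List.map_cons, List.cons.injEq] at h
      have h1 := ih w' h.2
      cases a <;> cases a' <;> simp [clsb_kind] at h <;> simp [evals, h1]

private theorem clsb_part_shape (p : Fin 4) (v v' : List (Fin 4 × QSym))
    (h : clsb_shape v = clsb_shape v') :
    (part p v).map clsb_kind = (part p v').map clsb_kind := by
  have : ∀ v : List (Fin 4 × QSym), (part p v).map clsb_kind =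
      ((clsb_shape v).filter fun e => e.1 = p).map Prod.snd := by
    intro v
    induction v with
    | nil => rfl
    | cons a v ih =>
      simp only [part, clsb_shape, List.map_cons, List.filter_cons] at ih ⊢
      by_cases hp : a.1 = p
      · simp only [hp, decide_true, if_true, List.map_cons, ih]
      · simp only [hp, decide_false, Bool.false_eq_true, if_false, ih]
  rw [this, this, h]

private theorem clsb_eq_map {α β : Type*} (f : α → β) (us vs : List α)
    (h : us.map f = vs.map f) (F : α → ℕ) (hF : ∀ u v, f u = f v → F u = F v) :
    us.map F = vs.map F := by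
  induction us generalizing vs with
  | nil =>
    cases vs with
    | nil => rfl
    | cons v vs => simp at h
  | cons u us ih =>
    cases vs with
    | nil => simp at h
    | cons v vs =>
      simp only [List.map_cons, List.cons.injEq] at h ⊢
      exact ⟨hF _ _ h.1, ih vs h.2⟩


theorem class_B (hN : ∀ w, N.Accepts w ↔ w ∈ Fifo) (R : Runs N K pad T) (S : ℤ → Bool)
    (ω ω' : Om K) (l1 l2 l1' l2' : List (Option QSym × N.Cfg))
    (hl : R.path ω = l1 ++ l2) (hw : N.pword l1 = headW K (yl ω) (gl ω))
    (hl' : R.path ω' = l1' ++ l2') (hw' : N.pword l1' = headW K (yl ω') (gl ω'))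
    (vs vs' : List (List (Fin 4 × QSym)))
    (h : vs.map (List.map Prod.snd) = (N.blocks S N.init l1).map (List.map Prod.snd))
    (hf : vs.flatten = annB K (yl ω) (gl ω))
    (h' : vs'.map (List.map Prod.snd) = (N.blocks S N.init l1').map (List.map Prod.snd))
    (hf' : vs'.flatten = annB K (yl ω') (gl ω'))
    (hm : N.msgs S N.init l1 = N.msgs S N.init l1')
    (hlen : vs.map List.length = vs'.map List.length)
    (hq : (N.endc N.init l1).q = (N.endc N.init l1').q)
    (hp : (N.endc N.init l1).pos = (N.endc N.init l1').pos)
    (ht : ∀ z, S z = true → (N.endc N.init l1).tape z = (N.endc N.init l1').tape z)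
    (hfalse : evals (part 2 (trueSide (!S 0) vs)) = evals (part 2 (trueSide (!S 0) vs'))) :
    gl ω = gl ω' := by
  have hpath := R.isPath ω
  rw [hl, N.isPath_append] at hpath
  have hpath' := R.isPath ω'
  rw [hl', N.isPath_append] at hpath'
  obtain ⟨-, l3, hp3, hword, hend⟩ := N.mix_path S N.init N.init l1 l1' hpath.1 hpath'.1 rfl hm
  rw [clsb_mix_init] at hp3 hend
  have hpos : (N.init).pos = 0 := rfl
  rw [hpos] at hword
  have hend2 : N.endc N.init l3 = N.endc N.init l1 := by
    rw [hend]
    ext1
    · show (if S (N.endc N.init l1).pos then (N.endc N.init l1').q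
        else (N.endc N.init l1).q) = _
      rw [hq, ite_self]
    · show (if S (N.endc N.init l1).pos then (N.endc N.init l1').pos
        else (N.endc N.init l1).pos) = _
      rw [← hp, ite_self]
    · funext z
      show (if S z then (N.endc N.init l1').tape z else (N.endc N.init l1).tape z) = _
      split_ifs with hz
      · exact (ht z hz).symm
      · rfl
  have hw2 : N.pword l2 = tailW pad (gl ω) := by
    have h1 := R.word ω
    rw [hl, N.pword_append, hw, hardW] at h1
    exact List.append_cancel_left h1
  have hmem : N.pword (l3 ++ l2) ∈ Fifo := by
    rw [← hN]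
    refine ⟨(l3 ++ l2).length, N.endc N.init (l3 ++ l2),
      (N.reach_iff _ _ _ _).mpr ⟨l3 ++ l2, ?_, rfl, rfl, rfl⟩, ?_⟩
    · rw [N.isPath_append, hend2]
      exact ⟨hp3, hpath.2⟩
    · rw [N.endc_append, hend2, ← N.endc_append, ← hl]
      exact R.acc ω
  rw [N.pword_append, hword, hw2, List.map_flatten, mixb_map, ← h, ← h', ← mixb_map,
    ← List.map_flatten] at hmem
  have hy := length_yl ω
  have hy' := length_yl ω'
  have hg := length_gl ω
  have hg' := length_gl ω'
  have hgs := length_of_mem_gl ω
  have hgs' := length_of_mem_gl ω'
  have hcore := coreB hy hy' hg hg' hgs hgs' hf hf' hlen hmem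
  have hsh : vs.map clsb_shape = vs'.map clsb_shape := by
    rw [List.eq_iff_flatten_eq]
    constructor
    · rw [← clsb_shape_flatten, ← clsb_shape_flatten, hf, hf',
        clsb_shape_annB hy hy' hg hg' hgs hgs']
    · have e : ∀ us : List (List (Fin 4 × QSym)),
          (us.map clsb_shape).map List.length = us.map List.length := by
        intro us
        simp [List.map_map, Function.comp_def, clsb_shape]
      rw [e, e, hlen]
  -- block by block
  set F : List (Fin 4 × QSym) → List Bool := fun v => evals (part 2 v) with hF
  have hF0 : F [] = [] := rfl
  have hFa : ∀ u v, F (u ++ v) = F u ++ F v := by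
    intro u v
    simp only [hF]
    rw [clsb_part_append, evals_append]
  have hinj : vs.map F = vs'.map F := by
    apply sides_inj (S 0)
    · rw [List.map_map, List.map_map]
      exact clsb_eq_map clsb_shape vs vs' hsh _
        (fun u v huv => clsb_len_evals _ _ (clsb_part_shape 2 u v huv))
    · rw [clsb_trueSide F hF0 hFa, clsb_trueSide F hF0 hFa]
      exact hcore
    · rw [clsb_trueSide F hF0 hFa, clsb_trueSide F hF0 hFa]
      exact hfalse
  have hfl := congrArg List.flatten hinj
  rw [clsb_flatten F hF0 hFa, clsb_flatten F hF0 hFa, hf, hf'] at hfl
  simp only [hF] at hfl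
  rw [clsb_part_ann, clsb_part_ann, evals_giantW _ _ (by rw [hy, hg]),
    evals_giantW _ _ (by rw [hy', hg'])] at hfl
  -- the blocks have equal lengths
  rw [List.eq_iff_flatten_eq]
  refine ⟨hfl, ?_⟩
  have e : ∀ g : List (List Bool), g.length = K → (∀ u ∈ g, u.length = K) →
      g.map List.length = List.replicate K K := by
    intro g h1 h2
    rw [List.eq_replicate_iff]
    refine ⟨by simp [h1], ?_⟩
    intro b hb
    obtain ⟨u, hu, rfl⟩ := List.mem_map.1 hb
    exact h2 u hu
  rw [e _ hg hgs, e _ hg' hgs']

end Pool.Agent.QT
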