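import Pool.Agent.QT.Cut

/-! Definitions for the combinatorial core: words annotated with phases. -/

namespace Pool.Agent.QT

open QSym

/-- annotate a word with a phase -/
def ph (p : Fin 4) (w : List QSym) : List (Fin 4 × QSym) := w.map fun a => (p, a)

/-- the part of an annotated word with a given phase -/
def part (p : Fin 4) (v : List (Fin 4 × QSym)) : List QSym :=
  (v.filter fun e => e.1 = p).map Prod.snd

/-- net number of enqueued symbols -/
def net (w : List QSym) : ℤ := (evals w).length - (dvals w).length

/-- the hard word, annotated: phase 0 = filling of the ring and the first `r` rotations, phase 1 = the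
other rotations, phase 2 = the long round, phase 3 = the rest -/
def annA (K pad r : ℕ) (y : List Bool) (g : List (List Bool)) : List (Fin 4 × QSym) :=
  ph 0 (y.map enq ++ ringW r y) ++ ph 1 (ringW (K - r) y) ++ ph 2 (giantW y g) ++
    ph 3 (tailW pad g)

/-- the first part of the hard word, annotated: phase 0 = before the long round, phase 2 = the long
round -/
def annB (K : ℕ) (y : List Bool) (g : List (List Bool)) : List (Fin 4 × QSym) :=
  ph 0 (y.map enq ++ ringW K y) ++ ph 2 (giantW y g)

/-- Annotated blocks `vs` of a hard word, first block on side `b0`, such that the `r`-th rotation lies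
completely in block number `j0`, which is on side `false`. -/
structure AnnBlocks (K pad : ℕ) (b0 : Bool) (y : List Bool) (g : List (List Bool)) (r j0 : ℕ)
    (vs : List (List (Fin 4 × QSym))) : Prop where
  pos : 1 ≤ r
  le : r ≤ K
  flat : vs.flatten = annA K pad r y g
  side : (b0 ^^ decide (j0 % 2 = 1)) = false
  cut : ∃ V1 a b V2, vs = V1 ++ (a ++ ph 0 (rdW y) ++ b) :: V2 ∧ V1.length = j0 ∧
    (∀ e ∈ b, e.1 ≠ 0) ∧ ∀ B ∈ V2, ∀ e ∈ B, e.1 ≠ 0

end Pool.Agent.QT
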