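import Pool.Agent.QT.Defs

/-! Paths as lists, cutting a path along a set of tape cells, mixing block lists. -/

namespace Pool.Agent.QT

open QSym

namespace TapeMachine

variable {A : Type} (M : TapeMachine A)

/-- A path: the list of (label, configuration after the move). -/
abbrev Path := List (Option A × M.Cfg)

/-- `l` is a sequence of moves starting in `c`. -/
def IsPath : M.Cfg → List (Option A × M.Cfg) → Prop
  | _, [] => True
  | c, x :: l => M.Step c x.1 x.2 ∧ IsPath x.2 l

/-- last configuration -/
def endc : M.Cfg → List (Option A × M.Cfg) → M.Cfg
  | c, [] => c
  | _, x :: l => endc x.2 l

/-- the word read along a path -/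
def pword (l : List (Option A × M.Cfg)) : List A := l.filterMap Prod.fst

/-- the reading events: (head position before the move, symbol read) -/
def reads : M.Cfg → List (Option A × M.Cfg) → List (ℤ × A)
  | _, [] => []
  | c, x :: l => (x.1.toList.map fun a => (c.pos, a)) ++ reads x.2 l

/-- the crossing messages: (state, position) just after each move that changes the side of the head
with respect to the set `S` of cells -/
def msgs (S : ℤ → Bool) : M.Cfg → List (Option A × M.Cfg) → List (M.Q × ℤ)
  | _, [] => []
  | c, x :: l => if S c.pos = S x.2.pos then msgs S x.2 l else (x.2.q, x.2.pos) :: msgs S x.2 l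

/-- the reading events grouped into blocks: a new block starts after each crossing -/
def blocks (S : ℤ → Bool) : M.Cfg → List (Option A × M.Cfg) → List (List (ℤ × A))
  | _, [] => [[]]
  | c, x :: l =>
    let ev := x.1.toList.map fun a => (c.pos, a)
    if S c.pos = S x.2.pos then
      match blocks S x.2 l with
      | [] => [ev]
      | b :: bs => (ev ++ b) :: bs
    else ev :: blocks S x.2 l

/-- the configuration with the `S`-part of the tape of `c2` and the rest of the tape of `c1`; state and
head from the machine that is active -/
def mixc (S : ℤ → Bool) (c1 c2 : M.Cfg) : M.Cfg where
  q := if S c1.pos then c2.q else c1.q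
  pos := if S c1.pos then c2.pos else c1.pos
  tape := fun z => if S z then c2.tape z else c1.tape z

end TapeMachine

/-- alternate between two block lists: blocks on side `true` are taken from the second list -/
def mixb {α : Type*} : Bool → List (List α) → List (List α) → List (List α)
  | b, u :: us, v :: vs => (if b then v else u) :: mixb (!b) us vs
  | _, _, _ => []

/-- concatenation of the blocks of a list whose side is `true` (the first block has side `b`) -/
def trueSide {α : Type*} : Bool → List (List α) → List α
  | b, u :: us => (if b then u else []) ++ trueSide (!b) us
  | _, [] => []

end Pool.Agent.QT
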