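import Mathlib

/-! Project QT (MP_822e06_lc): nondeterministic on-line simulation of one queue by one tape.
Machine models and the FIFO language. -/

namespace Pool.Agent.QT

/-! ### Machines -/

/-- A nondeterministic on-line machine with one two-way infinite work tape, one head, and a
one-way read-only input.  `step q g a q' g' d`: in state `q`, scanning the work symbol `g`, and
reading the next input symbol if `a = some x` (no input is read if `a = none`), the machine may go to
state `q'`, write `g'` and move its head by `d`. -/
structure TapeMachine (A : Type) where
  Q : Type
  G : Type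
  finQ : Finite Q
  finG : Finite G
  blank : G
  start : Q
  acc : Set Q
  step : Q → G → Option A → Q → G → ℤ → Prop
  step_move : ∀ {q g a q' g' d}, step q g a q' g' d → -1 ≤ d ∧ d ≤ 1

namespace TapeMachine

variable {A : Type}

/-- A configuration: state, head position, tape content. -/
@[ext] structure Cfg (M : TapeMachine A) where
  q : M.Q
  pos : ℤ
  tape : ℤ → M.G

/-- The initial configuration: start state, blank tape. -/
def init (M : TapeMachine A) : M.Cfg := ⟨M.start, 0, fun _ => M.blank⟩

/-- One move. -/
def Step (M : TapeMachine A) (c : M.Cfg) (a : Option A) (c' : M.Cfg) : Prop :=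
  ∃ d : ℤ, M.step c.q (c.tape c.pos) a c'.q (c'.tape c.pos) d ∧ c'.pos = c.pos + d ∧
    ∀ z, z ≠ c.pos → c'.tape z = c.tape z

/-- `Reach c w n c'`: some sequence of exactly `n` moves leads from `c` to `c'` while reading
exactly the word `w`. -/
inductive Reach (M : TapeMachine A) : M.Cfg → List A → ℕ → M.Cfg → Prop
  | refl (c : M.Cfg) : Reach M c [] 0 c
  | step {c : M.Cfg} {a : Option A} {c' : M.Cfg} {w : List A} {n : ℕ} {c'' : M.Cfg} :
      M.Step c a c' → Reach M c' w n c'' → Reach M c (a.toList ++ w) (n + 1) c''

/-- `w` is accepted by a computation with exactly `n` moves. -/
def AcceptsIn (M : TapeMachine A) (w : List A) (n : ℕ) : Prop :=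
  ∃ c, M.Reach M.init w n c ∧ c.q ∈ M.acc

/-- `w` is accepted. -/
def Accepts (M : TapeMachine A) (w : List A) : Prop := ∃ n, M.AcceptsIn w n

end TapeMachine

/-- A (nondeterministic) on-line machine with one first-in-first-out queue as its only storage.
`step q a f q' del e`: in state `q`, reading the next input symbol if `a = some x` (nothing is read if
`a = none`), with `f` the symbol at the front of the queue (`none` if the queue is empty), the machine
may go to state `q'`, delete the front symbol if `del = true`, and append `x` at the rear if
`e = some x`. -/
structure QueueMachine (A : Type) where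
  Q : Type
  G : Type
  finQ : Finite Q
  finG : Finite G
  start : Q
  acc : Set Q
  step : Q → Option A → Option G → Q → Bool → Option G → Prop

namespace QueueMachine

variable {A : Type}

/-- A configuration: state and queue content (front first). -/
@[ext] structure Cfg (M : QueueMachine A) where
  q : M.Q
  queue : List M.G

def init (M : QueueMachine A) : M.Cfg := ⟨M.start, []⟩

/-- One move. -/
def Step (M : QueueMachine A) (c : M.Cfg) (a : Option A) (c' : M.Cfg) : Prop :=
  ∃ (del : Bool) (e : Option M.G), M.step c.q a c.queue.head? c'.q del e ∧
    c'.queue = (if del then c.queue.tail else c.queue) ++ e.toList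

inductive Reach (M : QueueMachine A) : M.Cfg → List A → ℕ → M.Cfg → Prop
  | refl (c : M.Cfg) : Reach M c [] 0 c
  | step {c : M.Cfg} {a : Option A} {c' : M.Cfg} {w : List A} {n : ℕ} {c'' : M.Cfg} :
      M.Step c a c' → Reach M c' w n c'' → Reach M c (a.toList ++ w) (n + 1) c''

def AcceptsIn (M : QueueMachine A) (w : List A) (n : ℕ) : Prop :=
  ∃ c, M.Reach M.init w n c ∧ c.q ∈ M.acc

def Accepts (M : QueueMachine A) (w : List A) : Prop := ∃ n, M.AcceptsIn w n

/-- Every accepted word `w` has an accepting computation with at most `k (|w| + 1)` moves.  Every
real-time machine (at most a constant number of moves for each input symbol) satisfies this for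
some `k`. -/
def LinearTime (M : QueueMachine A) (k : ℕ) : Prop :=
  ∀ w, M.Accepts w → ∃ n, n ≤ k * (w.length + 1) ∧ M.AcceptsIn w n

/-- Deterministic real time in the strictest sense: every move reads an input symbol, and for every
state, input symbol and front symbol there is exactly one possible move. -/
def StrictRealTime (M : QueueMachine A) : Prop :=
  (∀ q f q' del e, ¬ M.step q none f q' del e) ∧
  ∀ q a f, ∃! r : M.Q × Bool × Option M.G, M.step q (some a) f r.1 r.2.1 r.2.2

end QueueMachine

/-! ### The FIFO language -/

/-- `enq b`: append `b` to the queue; `deq b`: delete the front symbol, which must be `b`. -/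
inductive QSym : Type
  | enq (b : Bool) : QSym
  | deq (b : Bool) : QSym
  deriving DecidableEq, Fintype

open QSym

/-- One operation on a queue of bits. -/
def qstep : List Bool → QSym → Option (List Bool)
  | C, enq b => some (C ++ [b])
  | [], deq _ => none
  | c :: C, deq b => if c = b then some C else none

/-- Run a word of operations; `none` if an illegal operation occurs. -/
def qrun : List Bool → List QSym → Option (List Bool)
  | C, [] => some C
  | C, a :: w => (qstep C a).bind fun C' => qrun C' w

/-- The words of operations that are legal on the initially empty queue. -/
def Fifo : Set (List QSym) := {w | ∃ C, qrun [] w = some C}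

/-- enqueued bits, in order -/
def evals : List QSym → List Bool
  | [] => []
  | enq b :: w => b :: evals w
  | deq _ :: w => evals w

/-- dequeued bits, in order -/
def dvals : List QSym → List Bool
  | [] => []
  | enq _ :: w => dvals w
  | deq b :: w => b :: dvals w

/-! ### The hard words -/

/-- one rotation of the ring `y` -/
def rdW (y : List Bool) : List QSym := y.flatMap fun b => [deq b, enq b]

/-- `j` rotations of the ring -/
def ringW (j : ℕ) (y : List Bool) : List QSym := (List.replicate j (rdW y)).flatten

/-- the long round: `deq y_k` followed by the block `g_k` of enqueued bits -/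
def giantW (y : List Bool) (g : List (List Bool)) : List QSym :=
  (List.zipWith (fun b u => deq b :: u.map enq) y g).flatten

/-- the first part of a hard word -/
def headW (K : ℕ) (y : List Bool) (g : List (List Bool)) : List QSym :=
  y.map enq ++ ringW K y ++ giantW y g

/-- the last part of a hard word -/
def tailW (pad : ℕ) (g : List (List Bool)) : List QSym :=
  g.flatten.map deq ++ List.replicate pad (enq false)

/-- the hard words -/
def hardW (K pad : ℕ) (y : List Bool) (g : List (List Bool)) : List QSym :=
  headW K y g ++ tailW pad g

end Pool.Agent.QT
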