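import Pool.Agent.QT.Up

namespace Pool.Agent.QT

variable {S : Type}

theorem ep_length {u v : List (Option S)} {w : List (Op S)} {u' v' : List (Option S)} {k : ℕ}
    (h : Ep u v w u' v' k) : u'.length + v'.length = u.length + v.length := by
  induction h with
  | done u v => rfl
  | skip h ih => simp only [List.length_cons] at ih ⊢; omega
  | enq h ih => simp only [List.length_cons] at ih ⊢; omega
  | deq h ih => simp only [List.length_cons] at ih ⊢; omega
  | wrap h ih => simp only [List.length_nil, List.length_reverse] at ih ⊢; omega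

/-- `l'` is `l` with one more blank cell -/
def Ins (l l' : List (Option S)) : Prop := ∃ a b, l = a ++ b ∧ l' = a ++ none :: b

theorem EPX_ins_head (l : List (Option S)) : Ins l (none :: l) := ⟨[], l, rfl, rfl⟩

theorem EPX_ins_cons {l l' : List (Option S)} (x : Option S) (h : Ins l l') :
    Ins (x :: l) (x :: l') := by
  obtain ⟨a, b, rfl, rfl⟩ := h
  exact ⟨x :: a, b, rfl, rfl⟩

theorem EPX_ins_reverse {l l' : List (Option S)} (h : Ins l l') :
    Ins l.reverse l'.reverse := by
  obtain ⟨a, b, rfl, rfl⟩ := h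
  refine ⟨b.reverse, a.reverse, by simp, by simp⟩

theorem EPX_ins_end (l : List (Option S)) : Ins l (l ++ [none]) := ⟨l, [], by simp, rfl⟩

theorem EPX_ins_cases {l l' : List (Option S)} {x : Option S} (h : Ins (x :: l) l') :
    l' = none :: x :: l ∨ ∃ l2, l' = x :: l2 ∧ Ins l l2 := by
  obtain ⟨a, b, h1, h2⟩ := h
  cases a with
  | nil =>
    left
    rw [List.nil_append] at h1 h2
    rw [h2, ← h1]
  | cons y a =>
    right
    rw [List.cons_append, List.cons.injEq] at h1
    obtain ⟨rfl, h1⟩ := h1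
    exact ⟨a ++ none :: b, h2, a, b, h1, rfl⟩

theorem EPX_ins_nil {l' : List (Option S)} (h : Ins [] l') : l' = [none] := by
  obtain ⟨a, b, h1, h2⟩ := h
  obtain ⟨rfl, rfl⟩ := List.append_eq_nil_iff.1 h1.symm
  exact h2

/-- One more blank cell does no harm. -/
theorem ep_ins {u v : List (Option S)} {w : List (Op S)} {u' v' : List (Option S)} {k : ℕ}
    (h : Ep u v w u' v' k) (u1 v1 : List (Option S))
    (h1 : (Ins u u1 ∧ v1 = v) ∨ (u1 = u ∧ Ins v v1)) :
    ∃ u1' v1', Ep u1 v1 w u1' v1' k ∧ ((Ins u' u1' ∧ v1' = v') ∨ (u1' = u' ∧ Ins v' v1')) := by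
  induction h generalizing u1 v1 with
  | done u v => exact ⟨u1, v1, Ep.done _ _, h1⟩
  | skip h ih =>
    rcases h1 with ⟨hu, rfl⟩ | ⟨rfl, hv⟩
    · obtain ⟨a, b, hab, hc⟩ := ih _ _ (Or.inl ⟨EPX_ins_cons none hu, rfl⟩)
      exact ⟨a, b, Ep.skip hab, hc⟩
    · rcases EPX_ins_cases hv with rfl | ⟨v2, rfl, hv2⟩
      · obtain ⟨a, b, hab, hc⟩ := ih _ _ (Or.inl ⟨EPX_ins_head _, rfl⟩)
        exact ⟨a, b, Ep.skip (Ep.skip hab), hc⟩
      · obtain ⟨a, b, hab, hc⟩ := ih _ _ (Or.inr ⟨rfl, hv2⟩)
        exact ⟨a, b, Ep.skip hab, hc⟩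
  | enq h ih =>
    rcases h1 with ⟨hu, rfl⟩ | ⟨rfl, hv⟩
    · obtain ⟨a, b, hab, hc⟩ := ih _ _ (Or.inl ⟨EPX_ins_cons _ hu, rfl⟩)
      exact ⟨a, b, Ep.enq hab, hc⟩
    · rcases EPX_ins_cases hv with rfl | ⟨v2, rfl, hv2⟩
      · obtain ⟨a, b, hab, hc⟩ := ih _ _ (Or.inl ⟨EPX_ins_cons _ (EPX_ins_head _), rfl⟩)
        exact ⟨a, b, Ep.skip (Ep.enq hab), hc⟩
      · obtain ⟨a, b, hab, hc⟩ := ih _ _ (Or.inr ⟨rfl, hv2⟩)
        exact ⟨a, b, Ep.enq hab, hc⟩
  | deq h ih =>
    rcases h1 with ⟨hu, rfl⟩ | ⟨rfl, hv⟩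
    · obtain ⟨a, b, hab, hc⟩ := ih _ _ (Or.inl ⟨EPX_ins_cons _ hu, rfl⟩)
      exact ⟨a, b, Ep.deq hab, hc⟩
    · rcases EPX_ins_cases hv with rfl | ⟨v2, rfl, hv2⟩
      · obtain ⟨a, b, hab, hc⟩ := ih _ _ (Or.inl ⟨EPX_ins_cons _ (EPX_ins_head _), rfl⟩)
        exact ⟨a, b, Ep.skip (Ep.deq hab), hc⟩
      · obtain ⟨a, b, hab, hc⟩ := ih _ _ (Or.inr ⟨rfl, hv2⟩)
        exact ⟨a, b, Ep.deq hab, hc⟩
  | wrap h ih =>
    rcases h1 with ⟨hu, rfl⟩ | ⟨rfl, hv⟩
    · obtain ⟨a, b, hab, hc⟩ := ih _ _ (Or.inr ⟨rfl, EPX_ins_reverse hu⟩)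
      exact ⟨a, b, Ep.wrap hab, hc⟩
    · obtain rfl := EPX_ins_nil hv
      obtain ⟨a, b, hab, hc⟩ := ih _ _ (Or.inr ⟨rfl, EPX_ins_end _⟩)
      refine ⟨a, b, Ep.skip (Ep.wrap ?_), hc⟩
      rw [List.reverse_cons]
      exact hab

theorem EPX_cont_append (a b : List (Option S)) : cont (a ++ b) = cont a ++ cont b := by
  simp [cont]

theorem EPX_cont_none (a : List (Option S)) : cont (none :: a) = cont a := by
  simp [cont]

theorem EPX_cont_some (c : S) (a : List (Option S)) : cont (some c :: a) = c :: cont a := by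
  simp [cont]

theorem EPX_cont_nil : cont ([] : List (Option S)) = [] := rfl

theorem EPX_cont_map (a : List S) : cont (a.map some) = a := by
  induction a with
  | nil => rfl
  | cons x a ih => rw [List.map_cons, EPX_cont_some, ih]

theorem EPX_cont_replicate (j : ℕ) : cont (List.replicate j (none : Option S)) = [] := by
  induction j with
  | zero => rfl
  | succ j ih => rw [List.replicate_succ, EPX_cont_none, ih]

theorem EPX_cont_ins {l l' : List (Option S)} (h : Ins l l') : cont l' = cont l := by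
  obtain ⟨a, b, rfl, rfl⟩ := h
  rw [EPX_cont_append, EPX_cont_append, EPX_cont_none]

theorem EPX_split (u : List (Option S)) (Y : List S) (c : S) (h : cont u.reverse = Y ++ [c]) :
    ∃ (j : ℕ) (u2 : List (Option S)), u = List.replicate j none ++ some c :: u2 ∧
      cont u2.reverse = Y := by
  induction u with
  | nil =>
    rw [List.reverse_nil, EPX_cont_nil] at h
    exact absurd h.symm (by simp)
  | cons x u ih =>
    cases x with
    | none =>
      rw [List.reverse_cons, EPX_cont_append, EPX_cont_none, EPX_cont_nil,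
        List.append_nil] at h
      obtain ⟨j, u2, h1, h2⟩ := ih h
      refine ⟨j + 1, u2, ?_, h2⟩
      rw [List.replicate_succ, List.cons_append, ← h1]
    | some d =>
      rw [List.reverse_cons, EPX_cont_append, EPX_cont_some, EPX_cont_nil] at h
      obtain ⟨h1, h2⟩ := List.append_inj' h rfl
      rw [List.cons.injEq] at h2
      obtain ⟨rfl, -⟩ := h2
      exact ⟨0, u, rfl, h1⟩

theorem EPX_all_none (u : List (Option S)) (h : cont u = []) :
    u = List.replicate u.length none := by
  induction u with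
  | nil => rfl
  | cons x u ih =>
    cases x with
    | none =>
      rw [EPX_cont_none] at h
      rw [List.length_cons, List.replicate_succ, ← ih h]
    | some d =>
      rw [EPX_cont_some] at h
      exact absurd h (by simp)

theorem EPX_skips (j : ℕ) {u v : List (Option S)} {w : List (Op S)} {u' v' : List (Option S)}
    {k : ℕ} (h : Ep (List.replicate j none ++ u) v w u' v' k) :
    Ep u (List.replicate j none ++ v) w u' v' k := by
  induction j generalizing u with
  | zero => exact h
  | succ j ih =>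
    rw [List.replicate_succ, List.cons_append]
    refine Ep.skip (ih ?_)
    have h1 : List.replicate (j + 1) (none : Option S) ++ u
        = List.replicate j none ++ (none :: u) := by
      rw [List.replicate_succ', List.append_assoc]
      rfl
    rw [h1] at h
    exact h

/-- two insertions, keeping the blank cell under the head -/
theorem EPX_ins2 {u v : List (Option S)} {w : List (Op S)} {u' v' : List (Option S)} {k : ℕ}
    (h : Ep u v w u' (none :: v') k) (u1 v1 : List (Option S))
    (h1 : (Ins u u1 ∧ v1 = v) ∨ (u1 = u ∧ Ins v v1)) :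
    ∃ u1' v1', Ep u1 v1 w u1' (none :: v1') k ∧ cont u1'.reverse = cont u'.reverse ∧
      cont v1' = cont v' := by
  obtain ⟨a, b, hab, hc⟩ := ep_ins h u1 v1 h1
  rcases hc with ⟨ha, rfl⟩ | ⟨rfl, hb⟩
  · exact ⟨a, v', hab, EPX_cont_ins (EPX_ins_reverse ha), rfl⟩
  · rcases EPX_ins_cases hb with rfl | ⟨b2, rfl, hb2⟩
    · exact ⟨_, _, hab, rfl, EPX_cont_none _⟩
    · exact ⟨_, _, hab, rfl, EPX_cont_ins hb2⟩

/-- There is a layout for every greedy motion. -/
theorem ep_exists {X Y : List S} {w : List (Op S)} {X' Y' : List S} {k : ℕ}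
    (h : Gr X Y w X' Y' k) :
    ∃ u v u' v' : List (Option S), cont u.reverse = Y ∧ cont v = X ∧
      u.length + v.length ≤ X.length + Y.length + w.length + 1 ∧
      Ep u (none :: v) w u' (none :: v') k ∧ cont u'.reverse = Y' ∧ cont v' = X' := by
  induction h with
  | done X Y =>
    refine ⟨(Y.map some).reverse, X.map some, (Y.map some).reverse, X.map some, ?_,
      EPX_cont_map X, ?_, Ep.done _ _, ?_, EPX_cont_map X⟩
    · rw [List.reverse_reverse, EPX_cont_map]
    · simp only [List.length_reverse, List.length_map, List.length_nil]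
      omega
    · rw [List.reverse_reverse, EPX_cont_map]
  | @enq X Y c w X' Y' k h ih =>
    obtain ⟨u, v, u', v', h1, h2, h3, h4, h5, h6⟩ := ih
    obtain ⟨j, u2, rfl, h7⟩ := EPX_split u Y c h1
    refine ⟨u2, List.replicate j none ++ none :: v, u', v', h7, ?_, ?_, ?_, h5, h6⟩
    · rw [EPX_cont_append, EPX_cont_replicate, EPX_cont_none, List.nil_append, h2]
    · simp only [List.length_append, List.length_replicate, List.length_cons,
        List.length_nil] at h3 ⊢
      omega
    · exact Ep.enq (EPX_skips j h4)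
  | @deq X Y c w X' Y' k h ih =>
    obtain ⟨u, v, u', v', h1, h2, h3, h4, h5, h6⟩ := ih
    obtain ⟨a, b, hab, g1, g2⟩ := EPX_ins2 h4 (none :: u) (none :: v)
      (Or.inl ⟨EPX_ins_head _, rfl⟩)
    obtain ⟨a', b', hab', g1', g2'⟩ := EPX_ins2 hab (none :: none :: u) (none :: v)
      (Or.inl ⟨EPX_ins_head _, rfl⟩)
    refine ⟨u, some c :: none :: v, a', b', h1, ?_, ?_, Ep.skip (Ep.deq hab'), ?_, ?_⟩
    · rw [EPX_cont_some, EPX_cont_none, h2]
    · simp only [List.length_cons] at h3 ⊢
      omega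
    · rw [g1', g1, h5]
    · rw [g2', g2, h6]
  | @wrap Y c w X' Y' k h ih =>
    obtain ⟨u, v, u', v', h1, h2, h3, h4, h5, h6⟩ := ih
    obtain ⟨a, b, hab, g1, g2⟩ := EPX_ins2 h4 (none :: u) (none :: v)
      (Or.inl ⟨EPX_ins_head _, rfl⟩)
    obtain ⟨a', b', hab', g1', g2'⟩ := EPX_ins2 hab (none :: u) (none :: (v ++ [none]))
      (Or.inr ⟨rfl, EPX_ins_cons _ (EPX_ins_end _)⟩)
    have hu : u.reverse = List.replicate u.length none := by
      have := EPX_all_none u.reverse h1
      rwa [List.length_reverse] at this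
    have hu' : u = List.replicate u.length none := by
      have := congrArg List.reverse hu
      rwa [List.reverse_reverse, List.reverse_replicate] at this
    refine ⟨(u.reverse ++ some c :: none :: v).reverse, [], a', b', ?_, rfl, ?_, ?_, ?_, ?_⟩
    · rw [List.reverse_reverse, EPX_cont_append, h1, EPX_cont_some, EPX_cont_none, h2]
      rfl
    · simp only [List.length_reverse, List.length_append, List.length_cons,
        List.length_nil] at h3 ⊢
      omega
    · refine Ep.skip (Ep.wrap ?_)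
      rw [List.reverse_cons, List.reverse_reverse, List.append_assoc, hu]
      refine EPX_skips _ ?_
      rw [List.append_nil, ← hu']
      exact Ep.deq hab'
    · rw [g1', g1, h5]
    · rw [g2', g2, h6]

end Pool.Agent.QT
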