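import Pool.Agent.QT.Defs

/-! The FIFO language is accepted by a deterministic queue machine in strict real time. -/

namespace Pool.Agent.QT

open QSym

/-- The moves of the machine; state `true` is alive, state `false` is dead. -/
inductive FifomStep : Bool → Option QSym → Option Bool → Bool → Bool → Option Bool → Prop
  | enq (b : Bool) (f : Option Bool) : FifomStep true (some (enq b)) f true false (some b)
  | deq (b : Bool) : FifomStep true (some (deq b)) (some b) true true none
  | bad (b : Bool) (f : Option Bool) (h : f ≠ some b) :
      FifomStep true (some (deq b)) f false false none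
  | dead (a : QSym) (f : Option Bool) : FifomStep false (some a) f false false none

/-- The machine. -/
def fifomM : QueueMachine QSym where
  Q := Bool
  G := Bool
  finQ := inferInstance
  finG := inferInstance
  start := true
  acc := {true}
  step := FifomStep

theorem fifom_strict : fifomM.StrictRealTime := by
  constructor
  · intro q f q' del e h
    cases h
  · intro q a f
    change ∃! r : Bool × Bool × Option Bool, FifomStep q (some a) f r.1 r.2.1 r.2.2
    cases q with
    | false =>
      refine ⟨(false, false, none), FifomStep.dead a f, ?_⟩
      rintro ⟨q', del, e⟩ h
      change FifomStep false (some a) f q' del e at h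
      cases h
      rfl
    | true =>
      cases a with
      | enq b =>
        refine ⟨(true, false, some b), FifomStep.enq b f, ?_⟩
        rintro ⟨q', del, e⟩ h
        change FifomStep true (some (enq b)) f q' del e at h
        cases h
        rfl
      | deq b =>
        by_cases hf : f = some b
        · subst hf
          refine ⟨(true, true, none), FifomStep.deq b, ?_⟩
          rintro ⟨q', del, e⟩ h
          change FifomStep true (some (deq b)) (some b) q' del e at h
          cases h with
          | deq => rfl
          | bad _ _ h => exact absurd rfl h
        · refine ⟨(false, false, none), FifomStep.bad b f hf, ?_⟩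
          rintro ⟨q', del, e⟩ h
          change FifomStep true (some (deq b)) f q' del e at h
          cases h with
          | deq => exact absurd rfl hf
          | bad _ _ h => rfl

theorem fifom_sound {c c' : fifomM.Cfg} {w : List QSym} {n : ℕ} (h : fifomM.Reach c w n c') :
    c'.q = true → c.q = true ∧ qrun c.queue w = some c'.queue := by
  induction h with
  | refl c => exact fun h => ⟨h, rfl⟩
  | @step c a c' w n c'' hs _ ih =>
    intro h
    obtain ⟨h1, h2⟩ := ih h
    obtain ⟨q, C⟩ := c
    obtain ⟨q', C'⟩ := c'
    obtain ⟨del, e, hst, hq⟩ := hs
    change FifomStep q a C.head? q' del e at hst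
    change q' = true at h1
    subst h1
    change C' = (if del then C.tail else C) ++ e.toList at hq
    change qrun C' w = some c''.queue at h2
    change q = true ∧ qrun C (a.toList ++ w) = some c''.queue
    generalize hf : C.head? = f at hst
    cases hst with
    | enq b f =>
      refine ⟨rfl, ?_⟩
      rw [← h2, hq]
      rfl
    | deq b =>
      refine ⟨rfl, ?_⟩
      cases C with
      | nil => simp at hf
      | cons x C =>
        have hf' : x = b := Option.some.inj hf
        subst hf'
        have hq' : C' = C := hq.trans (List.append_nil C)
        rw [← h2, hq']
        change ((qstep (x :: C) (deq x)).bind fun C' => qrun C' w) = qrun C w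
        have : qstep (x :: C) (deq x) = some C := if_pos rfl
        rw [this]
        rfl

theorem fifom_complete (w : List QSym) : ∀ (C C' : List Bool), qrun C w = some C' →
    ∃ n, fifomM.Reach ⟨true, C⟩ w n ⟨true, C'⟩ := by
  induction w with
  | nil =>
    intro C C' h
    simp only [qrun, Option.some.injEq] at h
    subst h
    exact ⟨0, QueueMachine.Reach.refl _⟩
  | cons a w ih =>
    intro C C' h
    simp only [qrun, Option.bind_eq_some_iff] at h
    obtain ⟨C1, h1, h2⟩ := h
    obtain ⟨n, hn⟩ := ih C1 C' h2
    have hstep : fifomM.Step ⟨true, C⟩ (some a) ⟨true, C1⟩ := by
      cases a with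
      | enq b =>
        refine ⟨false, some b, FifomStep.enq b _, ?_⟩
        simp only [qstep, Option.some.injEq] at h1
        subst h1
        rfl
      | deq b =>
        cases C with
        | nil => simp [qstep] at h1
        | cons x C =>
          simp only [qstep] at h1
          split_ifs at h1 with hx
          · subst hx
            simp only [Option.some.injEq] at h1
            subst h1
            refine ⟨true, none, FifomStep.deq x, ?_⟩
            exact (List.append_nil C).symm
    exact ⟨n + 1, QueueMachine.Reach.step hstep hn⟩

theorem exists_fifo_machine :
    ∃ M : QueueMachine QSym, M.StrictRealTime ∧ ∀ w, M.Accepts w ↔ w ∈ Fifo := by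
  refine ⟨fifomM, fifom_strict, fun w => ⟨?_, ?_⟩⟩
  · rintro ⟨n, c, hc, hacc⟩
    exact ⟨c.queue, (fifom_sound hc hacc).2⟩
  · rintro ⟨C, hC⟩
    obtain ⟨n, hn⟩ := fifom_complete w [] C hC
    exact ⟨n, ⟨true, C⟩, hn, rfl⟩

end Pool.Agent.QT
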