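import Pool.Agent.QT.Up

namespace Pool.Agent.QT

theorem GRW_exists {S : Type} (w : List (Op S)) : ∀ (X Y C' : List S), QRun (X ++ Y) w C' →
    ∃ X' Y' k, Gr X Y w X' Y' k ∧ C' = X' ++ Y' := by
  induction w with
  | nil =>
    intro X Y C' h
    generalize hC : X ++ Y = C at h
    cases h
    exact ⟨X, Y, 0, Gr.done X Y, hC.symm⟩
  | cons o w ih =>
    intro X Y C' h
    cases o with
    | enq c =>
      generalize hC : X ++ Y = C at h
      cases h with
      | enq h =>
        rw [← hC, List.append_assoc] at h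
        obtain ⟨X', Y', k, h1, h2⟩ := ih _ _ _ h
        exact ⟨X', Y', k, Gr.enq h1, h2⟩
    | deq c =>
      cases X with
      | nil =>
        rw [List.nil_append] at h
        cases h with
        | deq h =>
          rename_i C
          rw [← List.append_nil C] at h
          obtain ⟨X', Y', k, h1, h2⟩ := ih _ _ _ h
          exact ⟨X', Y', k + 1, Gr.wrap h1, h2⟩
      | cons x X =>
        rw [List.cons_append] at h
        cases h with
        | deq h =>
          obtain ⟨X', Y', k, h1, h2⟩ := ih _ _ _ h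
          exact ⟨X', Y', k, Gr.deq h1, h2⟩

theorem GRW_append {S : Type} {X Y : List S} {w1 : List (Op S)} {X1 Y1 : List S} {k1 : ℕ}
    (h : Gr X Y w1 X1 Y1 k1) : ∀ {w2 : List (Op S)} {X2 Y2 : List S} {k2 : ℕ},
    Gr X1 Y1 w2 X2 Y2 k2 → Gr X Y (w1 ++ w2) X2 Y2 (k1 + k2) := by
  induction h with
  | done X Y =>
    intro w2 X2 Y2 k2 h2
    rw [List.nil_append, zero_add]
    exact h2
  | enq _ ih =>
    intro w2 X2 Y2 k2 h2
    exact Gr.enq (ih h2)
  | deq _ ih =>
    intro w2 X2 Y2 k2 h2
    exact Gr.deq (ih h2)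
  | wrap _ ih =>
    intro w2 X2 Y2 k2 h2
    rw [add_right_comm]
    exact Gr.wrap (ih h2)

theorem GRW_le {S : Type} {X Y : List S} {w : List (Op S)} {X1 Y1 : List S} {k : ℕ}
    (h : Gr X Y w X1 Y1 k) : k ≤ w.length := by
  induction h with
  | done X Y => simp
  | enq _ ih => simp only [List.length_cons]; omega
  | deq _ ih => simp only [List.length_cons]; omega
  | wrap _ ih => simp only [List.length_cons]; omega

/-- before every operation the content is larger than `K` -/
def GRW_big {S : Type} (K : ℕ) : List S → List (Op S) → Prop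
  | _, [] => True
  | C, Op.enq c :: w => K < C.length ∧ GRW_big K (C ++ [c]) w
  | C, Op.deq _ :: w => K < C.length ∧ GRW_big K C.tail w

theorem GRW_bound {S : Type} {K : ℕ} {X Y : List S} {w : List (Op S)} {X1 Y1 : List S} {k : ℕ}
    (h : Gr X Y w X1 Y1 k) : GRW_big K (X ++ Y) w →
    K * k + min K X.length ≤ w.length + K := by
  induction h with
  | done X Y =>
    intro _
    simp
  | enq _ ih =>
    rintro ⟨-, hb⟩
    rw [List.append_assoc] at hb
    have := ih hb
    simp only [List.length_cons]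
    omega
  | deq _ ih =>
    rintro ⟨-, hb⟩
    have := ih hb
    simp only [List.length_cons]
    omega
  | wrap _ ih =>
    rename_i Y c w X' Y' k _
    rintro ⟨hK, hb⟩
    have h1 : GRW_big K (Y ++ []) w := by
      rw [List.append_nil]
      exact hb
    have := ih h1
    simp only [List.nil_append, List.length_cons] at hK
    simp only [List.length_cons, List.length_nil, Nat.mul_succ]
    omega

theorem GRW_first {S : Type} (K : ℕ) {C : List S} {w : List (Op S)} {C' : List S}
    (h : QRun C w C') : ∃ w1 w2 C1, w = w1 ++ w2 ∧ QRun C w1 C1 ∧ QRun C1 w2 C' ∧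
      (w2 = [] ∨ C1.length ≤ K) ∧ GRW_big K C w1 := by
  induction h with
  | nil C => exact ⟨[], [], C, rfl, QRun.nil C, QRun.nil C, Or.inl rfl, trivial⟩
  | enq h ih =>
    rename_i C c w C'
    by_cases hC : C.length ≤ K
    · exact ⟨[], _, C, rfl, QRun.nil C, QRun.enq h, Or.inr hC, trivial⟩
    · obtain ⟨w1, w2, C1, h1, h2, h3, h4, h5⟩ := ih
      exact ⟨Op.enq c :: w1, w2, C1, by rw [h1]; rfl, QRun.enq h2, h3, h4, not_le.1 hC, h5⟩
  | deq h ih =>
    rename_i C c w C'
    by_cases hC : (c :: C).length ≤ K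
    · exact ⟨[], _, c :: C, rfl, QRun.nil _, QRun.deq h, Or.inr hC, trivial⟩
    · obtain ⟨w1, w2, C1, h1, h2, h3, h4, h5⟩ := ih
      exact ⟨Op.deq c :: w1, w2, C1, by rw [h1]; rfl, QRun.deq h2, h3, h4, not_le.1 hC, h5⟩

theorem GRW_split {S : Type} (w1 : List (Op S)) : ∀ (C : List S) (w2 : List (Op S)) (C' : List S),
    QRun C (w1 ++ w2) C' → ∃ C1, QRun C w1 C1 ∧ QRun C1 w2 C' := by
  induction w1 with
  | nil =>
    intro C w2 C' h
    exact ⟨C, QRun.nil C, h⟩
  | cons o w1 ih =>
    intro C w2 C' h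
    rw [List.cons_append] at h
    cases h with
    | enq h =>
      obtain ⟨C1, h1, h2⟩ := ih _ _ _ h
      exact ⟨C1, QRun.enq h1, h2⟩
    | deq h =>
      obtain ⟨C1, h1, h2⟩ := ih _ _ _ h
      exact ⟨C1, QRun.deq h1, h2⟩

/-- Splitting off one epoch: it ends at the first time, at least `K` operations after its start,
when the content is at most `K`. In it the number of returns is small. -/
theorem epoch {S : Type} {K : ℕ} (hK : 1 ≤ K) {X Y : List S} {w : List (Op S)} {C' : List S}
    (h : QRun (X ++ Y) w C') :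
    ∃ (w1 w2 : List (Op S)) (X1 Y1 : List S) (k : ℕ), w = w1 ++ w2 ∧ Gr X Y w1 X1 Y1 k ∧
      QRun (X1 ++ Y1) w2 C' ∧ (w2 = [] ∨ (K ≤ w1.length ∧ (X1 ++ Y1).length ≤ K)) ∧
      K * k ≤ K * K + w1.length + K := by
  rcases le_total w.length K with hw | hw
  · obtain ⟨X1, Y1, k, h1, h2⟩ := GRW_exists w X Y C' h
    refine ⟨w, [], X1, Y1, k, by simp, h1, ?_, Or.inl rfl, ?_⟩
    · rw [← h2]
      exact QRun.nil C'
    · have h3 := Nat.mul_le_mul_left K ((GRW_le h1).trans hw)
      omega
  · have hw' : w.take K ++ w.drop K = w := List.take_append_drop K w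
    rw [← hw'] at h
    obtain ⟨Ca, ha, hb⟩ := GRW_split _ _ _ _ h
    obtain ⟨Xa, Ya, ka, h1, h2⟩ := GRW_exists _ X Y Ca ha
    obtain ⟨w1, w2, C1, h3, h4, h5, h6, h7⟩ := GRW_first K hb
    rw [h2] at h4 h7
    obtain ⟨X1, Y1, k', h8, h9⟩ := GRW_exists _ Xa Ya C1 h4
    have hlen : (w.take K).length = K := by
      rw [List.length_take]
      omega
    refine ⟨w.take K ++ w1, w2, X1, Y1, ka + k', ?_, GRW_append h1 h8, ?_, ?_, ?_⟩
    · rw [List.append_assoc, ← h3, hw']
    · rw [← h9]
      exact h5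
    · rcases h6 with h6 | h6
      · exact Or.inl h6
      · refine Or.inr ⟨?_, ?_⟩
        · rw [List.length_append, hlen]
          omega
        · rw [← h9]
          exact h6
    · have h10 := GRW_le h1
      rw [hlen] at h10
      have h11 := Nat.mul_le_mul_left K h10
      have h12 := GRW_bound h8 h7
      rw [List.length_append, hlen, Nat.mul_add]
      omega

end Pool.Agent.QT
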