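import Pool.Agent.QT.Comb

/-! Lemmas on lists of blocks. -/

namespace Pool.Agent.QT

open QSym

theorem mixb_length {α : Type*} (b : Bool) (us vs : List (List α)) (h : us.length = vs.length) :
    (mixb b us vs).length = us.length := by
  induction us generalizing b vs with
  | nil => cases b <;> cases vs <;> simp [mixb]
  | cons u us ih =>
    cases vs with
    | nil => simp at h
    | cons v vs =>
      simp only [List.length_cons, add_left_inj] at h
      simp [mixb, ih (!b) vs h]

theorem mixb_map {α β : Type*} (f : α → β) (b : Bool) (us vs : List (List α)) :
    (mixb b us vs).map (List.map f) = mixb b (us.map (List.map f)) (vs.map (List.map f)) := by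
  induction us generalizing b vs with
  | nil => cases b <;> cases vs <;> simp [mixb]
  | cons u us ih =>
    cases vs with
    | nil => cases b <;> simp [mixb]
    | cons v vs =>
      simp only [mixb, List.map_cons, ih (!b) vs]
      cases b <;> rfl

theorem mixb_append {α : Type*} (b : Bool) (us us' vs vs' : List (List α))
    (h : us.length = vs.length) :
    mixb b (us ++ us') (vs ++ vs') =
      mixb b us vs ++ mixb (b ^^ decide (us.length % 2 = 1)) us' vs' := by
  induction us generalizing b vs with
  | nil =>
    cases vs with
    | nil =>
      have : mixb b ([] : List (List α)) [] = [] := by cases b <;> rfl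
      simp [this]
    | cons v vs => simp at h
  | cons u us ih =>
    cases vs with
    | nil => simp at h
    | cons v vs =>
      simp only [List.length_cons, add_left_inj] at h
      simp only [mixb, List.cons_append, ih (!b) vs h, List.length_cons]
      congr 3
      rcases Nat.mod_two_eq_zero_or_one us.length with h0 | h0
      · have h1 : (us.length + 1) % 2 = 1 := by omega
        simp [h0, h1]
      · have h1 : (us.length + 1) % 2 = 0 := by omega
        simp [h0, h1]

theorem mixb_mem {α : Type*} (b : Bool) (us vs : List (List α)) (B : List α)
    (h : B ∈ mixb b us vs) : B ∈ us ∨ B ∈ vs := by
  induction us generalizing b vs with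
  | nil => cases b <;> cases vs <;> simp [mixb] at h
  | cons u us ih =>
    cases vs with
    | nil => cases b <;> simp [mixb] at h
    | cons v vs =>
      simp only [mixb, List.mem_cons] at h
      rcases h with h | h
      · cases b
        · left; simp [h]
        · right; simp [h]
      · rcases ih (!b) vs h with h | h
        · left; exact List.mem_cons_of_mem _ h
        · right; exact List.mem_cons_of_mem _ h

theorem trueSide_mixb {α : Type*} (b : Bool) (us vs : List (List α)) (h : us.length = vs.length) :
    trueSide b (mixb b us vs) = trueSide b vs := by
  induction us generalizing b vs with
  | nil =>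
    cases vs with
    | nil => cases b <;> rfl
    | cons v vs => simp at h
  | cons u us ih =>
    cases vs with
    | nil => simp at h
    | cons v vs =>
      simp only [List.length_cons, add_left_inj] at h
      simp only [mixb, trueSide, ih (!b) vs h]
      cases b <;> rfl

theorem falseSide_mixb {α : Type*} (b : Bool) (us vs : List (List α))
    (h : us.length = vs.length) :
    trueSide (!b) (mixb b us vs) = trueSide (!b) us := by
  induction us generalizing b vs with
  | nil =>
    cases vs with
    | nil => cases b <;> rfl
    | cons v vs => simp at h
  | cons u us ih =>
    cases vs with
    | nil => simp at h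
    | cons v vs =>
      simp only [List.length_cons, add_left_inj] at h
      simp only [mixb, trueSide, ih (!b) vs h]
      cases b <;> rfl

theorem trueSide_map {α β : Type*} (f : α → β) (b : Bool) (us : List (List α)) :
    trueSide b (us.map (List.map f)) = (trueSide b us).map f := by
  induction us generalizing b with
  | nil => cases b <;> rfl
  | cons u us ih =>
    simp only [List.map_cons, trueSide, ih (!b), List.map_append]
    cases b <;> simp

theorem trueSide_filter {α : Type*} (p : α → Bool) (b : Bool) (us : List (List α)) :
    trueSide b (us.map (List.filter p)) = (trueSide b us).filter p := by
  induction us generalizing b with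
  | nil => cases b <;> rfl
  | cons u us ih =>
    simp only [List.map_cons, trueSide, ih (!b), List.filter_append]
    cases b <;> simp

/-- an additive function of words splits over the two sides -/
theorem flatten_sides {α : Type*} {N : Type*} [AddCommMonoid N] (f : List α → N)
    (h0 : f [] = 0) (ha : ∀ u v, f (u ++ v) = f u + f v) (b : Bool) (us : List (List α)) :
    f us.flatten = f (trueSide b us) + f (trueSide (!b) us) := by
  induction us generalizing b with
  | nil => cases b <;> simp [trueSide, h0]
  | cons u us ih =>
    simp only [List.flatten_cons, trueSide, ha, ih (!b)]
    cases b
    · simp only [Bool.not_false, Bool.not_true, Bool.false_eq_true, if_false, if_true, h0, zero_add]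
      abel
    · simp only [Bool.not_false, Bool.not_true, Bool.false_eq_true, if_false, if_true, h0, zero_add]
      abel

end Pool.Agent.QT
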