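import Mathlib

/-! The numerical step. -/

namespace Pool.Agent.QT

open Filter

private theorem num_poly (c j m : ℕ) (hm : 0 < m) :
    ∀ᶠ K : ℕ in atTop, c * K ^ j ≤ 2 ^ (K / m) := by
  have h1 : Tendsto (fun n : ℕ => (n : ℝ) ^ j / (2 : ℝ) ^ n) atTop (nhds 0) :=
    tendsto_pow_const_div_const_pow_of_one_lt j (by norm_num)
  have hc0 : (0 : ℝ) < 1 / ((c : ℝ) * (2 * m) ^ j + 1) := by positivity
  have h2 : ∀ᶠ n : ℕ in atTop, (n : ℝ) ^ j / (2 : ℝ) ^ n < 1 / ((c : ℝ) * (2 * m) ^ j + 1) :=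
    h1.eventually (gt_mem_nhds hc0)
  have h3 : Tendsto (fun K : ℕ => K / m) atTop atTop := Nat.tendsto_div_const_atTop hm.ne'
  filter_upwards [h3.eventually h2, h3.eventually (eventually_ge_atTop 1)] with K hK hK1
  have h4 : K ≤ 2 * m * (K / m) := by
    have := Nat.lt_mul_div_succ K hm
    nlinarith
  have h5 : (K : ℝ) ≤ 2 * m * (K / m : ℕ) := by exact_mod_cast h4
  have h6 : (0 : ℝ) < 2 ^ (K / m) := by positivity
  have h7 : ((c : ℝ) * (2 * m) ^ j + 1) * ((K / m : ℕ) : ℝ) ^ j < 2 ^ (K / m) := by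
    rw [div_lt_div_iff₀ h6 (by positivity)] at hK
    linarith
  have h8 : (c : ℝ) * (K : ℝ) ^ j ≤ 2 ^ (K / m) := by
    calc (c : ℝ) * (K : ℝ) ^ j ≤ c * (2 * m * (K / m : ℕ)) ^ j :=
          mul_le_mul_of_nonneg_left (pow_le_pow_left₀ (by positivity) h5 j) (by positivity)
      _ = (c : ℝ) * (2 * m) ^ j * ((K / m : ℕ) : ℝ) ^ j := by
          rw [mul_pow]
          ring
      _ ≤ ((c : ℝ) * (2 * m) ^ j + 1) * ((K / m : ℕ) : ℝ) ^ j := by
          apply mul_le_mul_of_nonneg_right _ (by positivity)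
          linarith
      _ ≤ _ := h7.le
  exact_mod_cast h8

private theorem num_half (x m : ℕ) (hm : 0 < m) (hx : m ≤ x) : x ≤ 2 * m * (x / m) := by
  have h1 := Nat.lt_mul_div_succ x hm
  have h2 : 1 ≤ x / m := (Nat.one_le_div_iff hm).mpr hx
  nlinarith

private theorem num_first (q K T n LA B : ℕ) (hB : B = (2 * q + 1) * 18 * 102)
    (hLA : 64 * (B * LA) ≤ K) (hLA1 : LA ≤ K) (hT : T ≤ K ^ 3) (hn : n ≤ 20 * K ^ 2)
    (hK : 64 ≤ K) (hpoly : 8610 * K ^ 8 ≤ 2 ^ (K / 64)) :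
    (2 * (2 * T + 3) : ℝ) *
      ((2 * q + 1) ^ LA * 18 ^ LA * (102 ^ LA * (101 / 100) ^ K) *
        (LA * (2 * n + 1) * (n + 1)) * (2 ^ (K - K / 4 + 1) * 2 ^ (K * K))) ≤
      2 ^ (K + K * K - 2) := by
  have hK1 : 1 ≤ K := by omega
  have hKr : (1 : ℝ) ≤ K := by exact_mod_cast hK1
  have e1 : ((2 * q + 1 : ℝ)) ^ LA * 18 ^ LA * (102 ^ LA * (101 / 100) ^ K) ≤
      2 ^ (K / 64) * 2 ^ (K / 64 + 1) := by
    have h1 : ((2 * q + 1 : ℝ)) ^ LA * 18 ^ LA * (102 ^ LA * (101 / 100) ^ K) =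
        (B : ℝ) ^ LA * (101 / 100) ^ K := by
      rw [hB]
      push_cast
      rw [mul_pow, mul_pow]
      ring
    rw [h1]
    have h2 : (B : ℝ) ^ LA ≤ 2 ^ (K / 64) := by
      have h3 : B ^ LA ≤ 2 ^ (K / 64) := by
        calc B ^ LA ≤ (2 ^ B) ^ LA := Nat.pow_le_pow_left Nat.lt_two_pow_self.le _
          _ = 2 ^ (B * LA) := by rw [← pow_mul]
          _ ≤ 2 ^ (K / 64) := Nat.pow_le_pow_right (by norm_num) (by omega)
      exact_mod_cast h3
    have h3 : (101 / 100 : ℝ) ^ K ≤ 2 ^ (K / 64 + 1) := by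
      calc (101 / 100 : ℝ) ^ K ≤ (101 / 100) ^ (64 * (K / 64 + 1)) :=
            pow_le_pow_right₀ (by norm_num) (by omega)
        _ = ((101 / 100) ^ 64) ^ (K / 64 + 1) := by rw [pow_mul]
        _ ≤ 2 ^ (K / 64 + 1) := pow_le_pow_left₀ (by positivity) (by norm_num) _
    exact mul_le_mul h2 h3 (by positivity) (by positivity)
  have e2 : (2 * (2 * T + 3) : ℝ) * (LA * (2 * n + 1) * (n + 1)) ≤ 2 ^ (K / 64) := by
    have hT' : (T : ℝ) ≤ (K : ℝ) ^ 3 := by exact_mod_cast hT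
    have hn' : (n : ℝ) ≤ 20 * (K : ℝ) ^ 2 := by exact_mod_cast hn
    have hLA' : (LA : ℝ) ≤ K := by exact_mod_cast hLA1
    have hK2 : (1 : ℝ) ≤ (K : ℝ) ^ 2 := one_le_pow₀ hKr
    have hK3 : (1 : ℝ) ≤ (K : ℝ) ^ 3 := one_le_pow₀ hKr
    have f1 : (2 * (2 * T + 3) : ℝ) ≤ 10 * (K : ℝ) ^ 3 := by linarith
    have f2 : (2 * n + 1 : ℝ) ≤ 41 * (K : ℝ) ^ 2 := by linarith
    have f3 : (n + 1 : ℝ) ≤ 21 * (K : ℝ) ^ 2 := by linarith
    have f4 : (LA * (2 * n + 1) * (n + 1) : ℝ) ≤ K * (41 * (K : ℝ) ^ 2) * (21 * (K : ℝ) ^ 2) :=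
      mul_le_mul (mul_le_mul hLA' f2 (by positivity) (by positivity)) f3 (by positivity)
        (by positivity)
    have f5 : (2 * (2 * T + 3) : ℝ) * (LA * (2 * n + 1) * (n + 1)) ≤
        10 * (K : ℝ) ^ 3 * (K * (41 * (K : ℝ) ^ 2) * (21 * (K : ℝ) ^ 2)) :=
      mul_le_mul f1 f4 (by positivity) (by positivity)
    refine f5.trans ?_
    have f6 : 10 * (K : ℝ) ^ 3 * (K * (41 * (K : ℝ) ^ 2) * (21 * (K : ℝ) ^ 2)) =
        8610 * (K : ℝ) ^ 8 := by ring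
    rw [f6]
    exact_mod_cast hpoly
  calc (2 * (2 * T + 3) : ℝ) *
      ((2 * q + 1) ^ LA * 18 ^ LA * (102 ^ LA * (101 / 100) ^ K) *
        (LA * (2 * n + 1) * (n + 1)) * (2 ^ (K - K / 4 + 1) * 2 ^ (K * K))) =
      ((2 * (2 * T + 3) : ℝ) * (LA * (2 * n + 1) * (n + 1))) *
      (((2 * q + 1 : ℝ)) ^ LA * 18 ^ LA * (102 ^ LA * (101 / 100) ^ K)) *
        (2 ^ (K - K / 4 + 1) * 2 ^ (K * K)) := by ring
    _ ≤ 2 ^ (K / 64) * (2 ^ (K / 64) * 2 ^ (K / 64 + 1)) *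
        (2 ^ (K - K / 4 + 1) * 2 ^ (K * K)) := by
        apply mul_le_mul_of_nonneg_right _ (by positivity)
        exact mul_le_mul e2 e1 (by positivity) (by positivity)
    _ = 2 ^ (K / 64 + (K / 64 + (K / 64 + 1)) + (K - K / 4 + 1 + K * K)) := by
        simp only [← pow_add]
    _ ≤ 2 ^ (K + K * K - 2) := pow_le_pow_right₀ (by norm_num) (by omega)

private theorem num_second (q γ K T n LB D : ℕ) (hD : 192 * (γ + 1) * D ≤ K * K)
    (hD1 : D ≤ K ^ 2) (hLB : LB ≤ K) (hT : T ≤ K ^ 3) (hn : n ≤ 20 * K ^ 2)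
    (hK : 64 ≤ K) (hpoly : 363 * q * K ^ 9 ≤ 2 ^ (K / 64))
    (hpoly2 : (4 * q + 1) * 22 * K ^ 2 ≤ 2 ^ (K / 64)) :
    ((2 * T + 6 * D + 3) ^ 2 : ℝ) *
      (q * (2 * T + 1) * γ ^ (3 * D) * (4 * q + 1) ^ LB * (n + 2) ^ LB *
        (2 ^ K * 2 ^ (K * K - K * K / 8 + 1))) ≤ 2 ^ (K + K * K - 1) := by
  have hK1 : 1 ≤ K := by omega
  have hKr : (1 : ℝ) ≤ K := by exact_mod_cast hK1
  have hT' : (T : ℝ) ≤ (K : ℝ) ^ 3 := by exact_mod_cast hT
  have hn' : (n : ℝ) ≤ 20 * (K : ℝ) ^ 2 := by exact_mod_cast hn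
  have hD' : (D : ℝ) ≤ (K : ℝ) ^ 2 := by exact_mod_cast hD1
  have hK2 : (1 : ℝ) ≤ (K : ℝ) ^ 2 := one_le_pow₀ hKr
  have hK3 : (1 : ℝ) ≤ (K : ℝ) ^ 3 := one_le_pow₀ hKr
  have hK23 : (K : ℝ) ^ 2 ≤ (K : ℝ) ^ 3 := pow_le_pow_right₀ hKr (by norm_num)
  have hdiv : (K / 64) * K ≤ K * K / 64 := by
    rw [Nat.le_div_iff_mul_le (by norm_num)]
    have := Nat.div_mul_le_self K 64
    nlinarith
  have hdiv2 : K / 64 ≤ K * K / 64 := Nat.div_le_div_right (by nlinarith)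
  have e1 : ((2 * T + 6 * D + 3) ^ 2 : ℝ) * (q * (2 * T + 1)) ≤ 2 ^ (K * K / 64) := by
    have f1 : (2 * T + 6 * D + 3 : ℝ) ≤ 11 * (K : ℝ) ^ 3 := by linarith
    have f2 : ((2 * T + 6 * D + 3) ^ 2 : ℝ) ≤ (11 * (K : ℝ) ^ 3) ^ 2 :=
      pow_le_pow_left₀ (by positivity) f1 2
    have f3 : (q * (2 * T + 1) : ℝ) ≤ q * (3 * (K : ℝ) ^ 3) :=
      mul_le_mul_of_nonneg_left (by linarith) (by positivity)
    have f4 := mul_le_mul f2 f3 (by positivity) (by positivity)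
    refine f4.trans ?_
    have f5 : (11 * (K : ℝ) ^ 3) ^ 2 * (q * (3 * (K : ℝ) ^ 3)) = 363 * q * (K : ℝ) ^ 9 := by ring
    rw [f5]
    calc (363 * q * (K : ℝ) ^ 9 : ℝ) ≤ 2 ^ (K / 64) := by exact_mod_cast hpoly
      _ ≤ _ := pow_le_pow_right₀ (by norm_num) hdiv2
  have e2 : (γ : ℝ) ^ (3 * D) ≤ 2 ^ (K * K / 64) := by
    have h3 : γ ^ (3 * D) ≤ 2 ^ (K * K / 64) := by
      calc γ ^ (3 * D) ≤ (2 ^ γ) ^ (3 * D) := Nat.pow_le_pow_left Nat.lt_two_pow_self.le _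
        _ = 2 ^ (γ * (3 * D)) := by rw [← pow_mul]
        _ ≤ 2 ^ (K * K / 64) := by
            apply Nat.pow_le_pow_right (by norm_num)
            rw [Nat.le_div_iff_mul_le (by norm_num)]
            nlinarith
    exact_mod_cast h3
  have e3 : ((4 * q + 1) ^ LB * (n + 2) ^ LB : ℝ) ≤ 2 ^ (K * K / 64) := by
    rw [← mul_pow]
    have f1 : ((4 * q + 1) * (n + 2) : ℝ) ≤ 2 ^ (K / 64) := by
      calc ((4 * q + 1) * (n + 2) : ℝ) ≤ (4 * q + 1) * (22 * (K : ℝ) ^ 2) :=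
            mul_le_mul_of_nonneg_left (by linarith) (by positivity)
        _ = (4 * q + 1) * 22 * (K : ℝ) ^ 2 := by ring
        _ ≤ 2 ^ (K / 64) := by exact_mod_cast hpoly2
    calc ((4 * q + 1) * (n + 2) : ℝ) ^ LB ≤ (2 ^ (K / 64)) ^ LB :=
          pow_le_pow_left₀ (by positivity) f1 _
      _ = 2 ^ (K / 64 * LB) := by rw [← pow_mul]
      _ ≤ 2 ^ (K * K / 64) := pow_le_pow_right₀ (by norm_num)
          ((Nat.mul_le_mul_left _ hLB).trans hdiv)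
  calc ((2 * T + 6 * D + 3) ^ 2 : ℝ) *
      (q * (2 * T + 1) * γ ^ (3 * D) * (4 * q + 1) ^ LB * (n + 2) ^ LB *
        (2 ^ K * 2 ^ (K * K - K * K / 8 + 1))) =
      (((2 * T + 6 * D + 3) ^ 2 : ℝ) * (q * (2 * T + 1))) * (γ : ℝ) ^ (3 * D) *
        ((4 * q + 1) ^ LB * (n + 2) ^ LB) * (2 ^ K * 2 ^ (K * K - K * K / 8 + 1)) := by ring
    _ ≤ 2 ^ (K * K / 64) * 2 ^ (K * K / 64) * 2 ^ (K * K / 64) *
        (2 ^ K * 2 ^ (K * K - K * K / 8 + 1)) := by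
        apply mul_le_mul_of_nonneg_right _ (by positivity)
        exact mul_le_mul (mul_le_mul e1 e2 (by positivity) (by positivity)) e3 (by positivity)
          (by positivity)
    _ = 2 ^ (K * K / 64 + K * K / 64 + K * K / 64 + (K + (K * K - K * K / 8 + 1))) := by
        simp only [← pow_add]
    _ ≤ 2 ^ (K + K * K - 1) := by
        apply pow_le_pow_right₀ (by norm_num)
        have : 64 ≤ K * K := by nlinarith
        omega

theorem fin_num (q γ : ℕ) : ∃ C0 : ℕ, 0 < C0 ∧ ∀ᶠ K : ℕ in atTop, ∀ pad T : ℕ,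
    pad ≤ 8 * K + 6 → C0 * T ≤ K ^ 3 →
    ∃ LA LB D : ℕ, LA ≤ K ∧ 8 * LB ≤ K ∧ 0 < D ∧ T < D * LA ∧ 4 * T < D * LB ∧
      ∀ n : ℕ, n = 4 * K * K + 2 * K + pad →
      (2 * (2 * T + 3) : ℝ) *
          ((2 * q + 1) ^ LA * 18 ^ LA * (102 ^ LA * (101 / 100) ^ K) *
            (LA * (2 * n + 1) * (n + 1)) * (2 ^ (K - K / 4 + 1) * 2 ^ (K * K))) +
        (2 * T + 6 * D + 3) ^ 2 *
          (q * (2 * T + 1) * γ ^ (3 * D) * (4 * q + 1) ^ LB * (n + 2) ^ LB *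
            (2 ^ K * 2 ^ (K * K - K * K / 8 + 1))) < 2 ^ (K + K * K) := by
  obtain ⟨B, hB⟩ : ∃ B : ℕ, B = (2 * q + 1) * 18 * 102 := ⟨_, rfl⟩
  have hB1 : 1 ≤ B := by
    rw [hB]
    nlinarith
  refine ⟨128 * B * (384 * (γ + 1)) + 64 * (384 * (γ + 1)) + 1, by positivity, ?_⟩
  filter_upwards [num_poly 8610 8 64 (by norm_num), num_poly (363 * q) 9 64 (by norm_num),
    num_poly ((4 * q + 1) * 22) 2 64 (by norm_num), eventually_ge_atTop (64 * B),
    eventually_ge_atTop (192 * (γ + 1))] with K p1 p2 p3 hK1 hK2 pad T hpad hT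
  have hK64 : 64 ≤ K := by nlinarith
  have hKK : K ≤ K * K := by nlinarith
  refine ⟨K / (64 * B), K / 8, K * K / (192 * (γ + 1)), Nat.div_le_self _ _,
    Nat.mul_div_le _ _, Nat.div_pos (hK2.trans hKK) (by positivity), ?_, ?_, ?_⟩
  · have h1 := num_half K (64 * B) (by positivity) hK1
    have h2 := num_half (K * K) (192 * (γ + 1)) (by positivity) (hK2.trans hKK)
    set LA := K / (64 * B) with hLA
    set D := K * K / (192 * (γ + 1)) with hD
    by_contra hcon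
    push Not at hcon
    have hDpos : 0 < D := Nat.div_pos (hK2.trans hKK) (by positivity)
    have hLpos : 0 < LA := Nat.div_pos hK1 (by positivity)
    have h3 : K ^ 3 ≤ (2 * (64 * B) * LA) * (2 * (192 * (γ + 1)) * D) := by
      calc K ^ 3 = K * (K * K) := by ring
        _ ≤ _ := Nat.mul_le_mul h1 h2
    have h4 : (128 * B * (384 * (γ + 1)) + 64 * (384 * (γ + 1)) + 1) * (D * LA) ≤
        (2 * (64 * B) * LA) * (2 * (192 * (γ + 1)) * D) :=
      (Nat.mul_le_mul_left _ hcon).trans (hT.trans h3)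
    have h5 : (2 * (64 * B) * LA) * (2 * (192 * (γ + 1)) * D) =
        128 * B * (384 * (γ + 1)) * (D * LA) := by ring
    rw [h5] at h4
    have h6 : 0 < D * LA := Nat.mul_pos hDpos hLpos
    nlinarith [Nat.zero_le (64 * (384 * (γ + 1)) * (D * LA))]
  · have h1 := num_half K 8 (by norm_num) (by omega)
    have h2 := num_half (K * K) (192 * (γ + 1)) (by positivity) (hK2.trans hKK)
    set LB := K / 8 with hLB
    set D := K * K / (192 * (γ + 1)) with hD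
    by_contra hcon
    push Not at hcon
    have hDpos : 0 < D := Nat.div_pos (hK2.trans hKK) (by positivity)
    have hLpos : 0 < LB := by omega
    have h3 : K ^ 3 ≤ (2 * 8 * LB) * (2 * (192 * (γ + 1)) * D) := by
      calc K ^ 3 = K * (K * K) := by ring
        _ ≤ _ := Nat.mul_le_mul h1 h2
    have h4 : (128 * B * (384 * (γ + 1)) + 64 * (384 * (γ + 1)) + 1) * (D * LB) ≤
        4 * ((2 * 8 * LB) * (2 * (192 * (γ + 1)) * D)) := by
      calc (128 * B * (384 * (γ + 1)) + 64 * (384 * (γ + 1)) + 1) * (D * LB) ≤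
            (128 * B * (384 * (γ + 1)) + 64 * (384 * (γ + 1)) + 1) * (4 * T) :=
            Nat.mul_le_mul_left _ hcon
        _ = 4 * ((128 * B * (384 * (γ + 1)) + 64 * (384 * (γ + 1)) + 1) * T) := by ring
        _ ≤ _ := Nat.mul_le_mul_left _ (hT.trans h3)
    have h5 : 4 * ((2 * 8 * LB) * (2 * (192 * (γ + 1)) * D)) =
        64 * (384 * (γ + 1)) * (D * LB) := by ring
    rw [h5] at h4
    have h6 : 0 < D * LB := Nat.mul_pos hDpos hLpos
    nlinarith [Nat.zero_le (128 * B * (384 * (γ + 1)) * (D * LB))]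
  · intro n hn
    have hT3 : T ≤ K ^ 3 := by
      refine le_trans ?_ hT
      nlinarith [Nat.zero_le (128 * B * (384 * (γ + 1)) * T),
        Nat.zero_le (64 * (384 * (γ + 1)) * T)]
    have hn20 : n ≤ 20 * K ^ 2 := by
      rw [hn]
      nlinarith
    have a1 := num_first q K T n (K / (64 * B)) B hB
      (by
        have := Nat.mul_div_le K (64 * B)
        rw [mul_assoc] at this
        exact this)
      (Nat.div_le_self _ _) hT3 hn20 hK64 p1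
    have a2 := num_second q γ K T n (K / 8) (K * K / (192 * (γ + 1))) (Nat.mul_div_le _ _)
      (by rw [pow_two]; exact Nat.div_le_self _ _) (Nat.div_le_self _ _) hT3 hn20 hK64 p2 p3
    have a3 : (2 : ℝ) ^ (K + K * K - 2) * 4 = 2 ^ (K + K * K) := by
      have : K + K * K = K + K * K - 2 + 2 := by omega
      conv_rhs => rw [this]
      rw [pow_add]
      norm_num
    have a4 : (2 : ℝ) ^ (K + K * K - 1) * 2 = 2 ^ (K + K * K) := by
      have : K + K * K = K + K * K - 1 + 1 := by omega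
      conv_rhs => rw [this]
      rw [pow_add]
      norm_num
    have a5 : (0 : ℝ) < 2 ^ (K + K * K) := by positivity
    linarith

end Pool.Agent.QT
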