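import Pool.Agent.QT.CARDA
import Pool.Agent.QT.CARDB
import Pool.Agent.QT.ASM
import Pool.Agent.QT.NUM

/-! Assembly of the lower bound. -/

namespace Pool.Agent.QT

open QSym Filter

variable {N : TapeMachine QSym} {K pad T : ℕ}

theorem low_card_Om (K : ℕ) : Nat.card (Om K) = 2 ^ (K + K * K) := by
  simp [Om, Nat.card_eq_fintype_card, pow_add, pow_mul]

theorem low_filter_isDeq (w : List QSym) : (w.filter isDeq).length = (dvals w).length := by
  induction w with
  | nil => rfl
  | cons a w ih => cases a <;> simp [List.filter_cons, isDeq, dvals, ih]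

theorem low_gpos_length (R : Runs N K pad T) (ω : Om K) :
    (gpos K (N.reads N.init (R.path ω))).length = K := by
  have hw : (N.reads N.init (R.path ω)).map Prod.snd = hardW K pad (yl ω) (gl ω) := by
    rw [N.reads_snd, R.word]
  have h1 : ((((N.reads N.init (R.path ω)).drop (K + K * (2 * K))).take (K + K * K)).filter
      fun e => isDeq e.2).map Prod.snd =
      (((hardW K pad (yl ω) (gl ω)).drop (K + K * (2 * K))).take (K + K * K)).filter isDeq := by
    rw [← hw, ← List.map_drop, ← List.map_take, List.filter_map]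
    rfl
  have hg : (gl ω).flatten.length = K * K := by
    rw [List.length_flatten]
    have : (gl ω).map List.length = List.replicate K K := by
      apply List.ext_getElem
      · simp [length_gl]
      · intro i h1 h2
        simp only [List.getElem_map, List.getElem_replicate]
        exact length_of_mem_gl ω _ (List.getElem_mem _)
    rw [this]
    simp
  have h2 : ((hardW K pad (yl ω) (gl ω)).drop (K + K * (2 * K))).take (K + K * K) =
      giantW (yl ω) (gl ω) := by
    have e1 : hardW K pad (yl ω) (gl ω) = ((yl ω).map enq ++ ringW K (yl ω)) ++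
        (giantW (yl ω) (gl ω) ++ tailW pad (gl ω)) := by
      simp [hardW, headW]
    have e2 : ((yl ω).map enq ++ ringW K (yl ω)).length = K + K * (2 * K) := by
      simp [length_ringW, length_yl]
    have e3 : (giantW (yl ω) (gl ω)).length = K + K * K := by
      rw [length_giantW _ _ (by rw [length_yl, length_gl]), length_yl, hg]
    rw [e1, List.drop_left' e2, List.take_left' e3]
  have h3 : (gpos K (N.reads N.init (R.path ω))).length =
      ((((N.reads N.init (R.path ω)).drop (K + K * (2 * K))).take (K + K * K)).filter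
      fun e => isDeq e.2).length := by
    simp [gpos]
  rw [h3, ← List.length_map (f := Prod.snd), h1, h2, low_filter_isDeq,
    dvals_giantW _ _ (by rw [length_yl, length_gl]), length_yl]

theorem low_gpos_bound (R : Runs N K pad T) (ω : Om K) :
    ∀ p ∈ gpos K (N.reads N.init (R.path ω)), -(T : ℤ) ≤ p ∧ p ≤ T := by
  intro p hp
  simp only [gpos, List.mem_map, List.mem_filter] at hp
  obtain ⟨e, ⟨he, _⟩, rfl⟩ := hp
  have he' : e ∈ N.reads N.init (R.path ω) := List.mem_of_mem_drop (List.mem_of_mem_take he)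
  have := (N.pos_bound N.init (R.path ω) (R.isPath ω)).2 e he'
  have hT : ((R.path ω).length : ℤ) ≤ T := by exact_mod_cast R.len ω
  simp only [TapeMachine.init, sub_zero] at this
  exact abs_le.1 (this.trans hT)

/-- the main step: no family of short accepting paths -/
theorem low_K (N : TapeMachine QSym) (hN : ∀ w, N.Accepts w ↔ w ∈ Fifo) :
    ∃ C0 : ℕ, 0 < C0 ∧ ∀ᶠ K : ℕ in atTop, ∀ pad T : ℕ, pad ≤ 8 * K + 6 → C0 * T ≤ K ^ 3 →
      IsEmpty (Runs N K pad T) := by
  obtain ⟨C0, hC0, h⟩ := fin_num (Nat.card N.Q) (Nat.card N.G)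
  refine ⟨C0, hC0, ?_⟩
  filter_upwards [h, eventually_ge_atTop 1] with K hK hK1 pad T hpad hT
  obtain ⟨LA, LB, D, hLA, hLB, hD, hTA, hTB, hnum⟩ := hK pad T hpad hT
  have hnum := hnum _ rfl
  set n := 4 * K * K + 2 * K + pad with hn
  constructor
  intro R
  -- the bad sets
  let ZA : Finset (ℤ × Bool) := (Finset.Icc (-(T : ℤ) - 1) (T + 1)) ×ˢ Finset.univ
  let IB : Finset ℤ := Finset.Icc (-(T : ℤ) - 3 * D - 1) (T + 3 * D + 1)
  let ZB : Finset (ℤ × ℤ) := (IB ×ˢ IB).filter fun p => p.2 ≤ p.1 + 3 * D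
  let Bad : Set (Om K) := (⋃ p ∈ ZA, XA R (half p.1 p.2) LA) ∪ ⋃ p ∈ ZB, XB R (itv p.1 p.2) LB
  set BA : ℝ := ((2 * Nat.card N.Q + 1) ^ LA * 18 ^ LA * (102 ^ LA * (101 / 100) ^ K) *
            (LA * (2 * n + 1) * (n + 1)) * (2 ^ (K - K / 4 + 1) * 2 ^ (K * K))) with hBA
  set BB : ℝ := (Nat.card N.Q * (2 * T + 1) * Nat.card N.G ^ (3 * D) *
    (4 * Nat.card N.Q + 1) ^ LB * (n + 2) ^ LB *
            (2 ^ K * 2 ^ (K * K - K * K / 8 + 1))) with hBB
  have hA : ∀ p ∈ ZA, ((XA R (half p.1 p.2) LA).ncard : ℝ) ≤ BA := by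
    intro p _
    have := card_A hN R p.1 p.2 LA n hn
    have h100 : (0 : ℝ) < 100 ^ K := by positivity
    have h2 : (100 : ℝ) ^ K * ((XA R (half p.1 p.2) LA).ncard : ℝ) ≤ 100 ^ K * BA := by
      have h3 : (100 : ℝ) ^ K * ((XA R (half p.1 p.2) LA).ncard : ℝ) ≤
        (2 * Nat.card N.Q + 1) ^ LA * 18 ^ LA * (102 ^ LA * 101 ^ K) *
        (LA * (2 * n + 1) * (n + 1)) * (2 ^ (K - K / 4 + 1) * 2 ^ (K * K)) := by
        exact_mod_cast this
      refine h3.trans (le_of_eq ?_)
      rw [hBA, div_pow]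
      field_simp
    exact le_of_mul_le_mul_left h2 h100
  have hB : ∀ p ∈ ZB, ((XB R (itv p.1 p.2) LB).ncard : ℝ) ≤ BB := by
    intro p hp
    have hp' : p.2 ≤ p.1 + ((3 * D : ℕ) : ℤ) := by
      have := (Finset.mem_filter.1 hp).2
      push_cast
      exact this
    have := card_B hN R p.1 p.2 LB n (3 * D) hLB hn hp'
    rw [hBB]
    exact_mod_cast this
  have hZA : (ZA.card : ℝ) = 2 * (2 * T + 3) := by
    have h1 : ZA.card = (2 * T + 3) * 2 := by
      simp only [ZA, Finset.card_product, Int.card_Icc, Finset.card_univ, Fintype.card_bool]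
      congr 1
      omega
    rw [h1]
    push_cast
    ring
  have hZB : (ZB.card : ℝ) ≤ (2 * T + 6 * D + 3) ^ 2 := by
    have h1 : IB.card = 2 * T + 6 * D + 3 := by
      simp only [IB, Int.card_Icc]
      omega
    have h2 : ZB.card ≤ IB.card * IB.card := by
      refine (Finset.card_filter_le _ _).trans ?_
      rw [Finset.card_product]
    rw [h1] at h2
    have h3 : (ZB.card : ℝ) ≤ ((2 * T + 6 * D + 3 : ℕ) : ℝ) * ((2 * T + 6 * D + 3 : ℕ) : ℝ) := by
      exact_mod_cast h2
    refine h3.trans (le_of_eq ?_)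
    push_cast
    ring
  have hBad : (Bad.ncard : ℝ) < 2 ^ (K + K * K) := by
    have h1 : Bad.ncard ≤ (⋃ p ∈ ZA, XA R (half p.1 p.2) LA).ncard +
        (⋃ p ∈ ZB, XB R (itv p.1 p.2) LB).ncard := Set.ncard_union_le _ _
    have h2 : (⋃ p ∈ ZA, XA R (half p.1 p.2) LA).ncard ≤
        ∑ p ∈ ZA, (XA R (half p.1 p.2) LA).ncard := by
      exact Finset.set_ncard_biUnion_le _ _
    have h3 : (⋃ p ∈ ZB, XB R (itv p.1 p.2) LB).ncard ≤
        ∑ p ∈ ZB, (XB R (itv p.1 p.2) LB).ncard := by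
      exact Finset.set_ncard_biUnion_le _ _
    have h4 : (Bad.ncard : ℝ) ≤ ∑ p ∈ ZA, ((XA R (half p.1 p.2) LA).ncard : ℝ) +
        ∑ p ∈ ZB, ((XB R (itv p.1 p.2) LB).ncard : ℝ) := by
      have := h1.trans (Nat.add_le_add h2 h3)
      exact_mod_cast this
    have h5 : ∑ p ∈ ZA, ((XA R (half p.1 p.2) LA).ncard : ℝ) ≤ ZA.card * BA := by
      refine (Finset.sum_le_sum hA).trans ?_
      simp
    have h6 : ∑ p ∈ ZB, ((XB R (itv p.1 p.2) LB).ncard : ℝ) ≤ ZB.card * BB := by
      refine (Finset.sum_le_sum hB).trans ?_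
      simp
    have hBB0 : 0 ≤ BB := by rw [hBB]; positivity
    have h7 : (ZB.card : ℝ) * BB ≤ (2 * T + 6 * D + 3) ^ 2 * BB :=
      mul_le_mul_of_nonneg_right hZB hBB0
    rw [hZA] at h5
    calc (Bad.ncard : ℝ) ≤ _ := h4
      _ ≤ 2 * (2 * T + 3) * BA + (2 * T + 6 * D + 3) ^ 2 * BB := by linarith
      _ < 2 ^ (K + K * K) := hnum
  -- a good word
  obtain ⟨ω, hω⟩ : ∃ ω, ω ∉ Bad := by
    by_contra hcon
    push Not at hcon
    have h1 : Bad = Set.univ := Set.eq_univ_of_forall hcon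
    rw [h1, Set.ncard_univ, low_card_Om] at hBad
    push_cast at hBad
    exact lt_irrefl _ hBad
  have hωA : ∀ z s, z ∈ Finset.Icc (-(T : ℤ) - 1) (T + 1) → ω ∉ XA R (half z s) LA := by
    intro z s hz hx
    apply hω
    left
    simp only [Set.mem_iUnion]
    exact ⟨(z, s), Finset.mem_product.2 ⟨hz, Finset.mem_univ _⟩, hx⟩
  have hωB : ∀ z1 z2, z1 ∈ IB → z2 ∈ IB → z2 ≤ z1 + 3 * D → ω ∉ XB R (itv z1 z2) LB := by
    intro z1 z2 h1 h2 h3 hx
    apply hω
    right
    simp only [Set.mem_iUnion]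
    exact ⟨(z1, z2), Finset.mem_filter.2 ⟨Finset.mem_product.2 ⟨h1, h2⟩, h3⟩, hx⟩
  set P := gpos K (N.reads N.init (R.path ω)) with hP
  have hPl : P.length = K := low_gpos_length R ω
  have hPb := low_gpos_bound R ω
  rw [← hP] at hPb
  refine assemble P (fun z => (N.msgs (fun p => decide (z < p)) N.init (R.path ω)).length)
    (R.path ω).length D LA LB (by omega) hD (fun Z => N.sum_msgs_le Z _ _ (R.isPath ω))
    ?_ ?_ (lt_of_le_of_lt (R.len ω) hTA) ?_
  · intro z h1 h2
    by_contra hcon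
    push Not at hcon
    have hhalf : half z false = fun p => decide (z < p) := by
      funext p; simp [half]
    have hhalf' : half z true = fun p => decide (p ≤ z) := by
      funext p
      by_cases hp : z < p
      · simp [half, hp]
      · simp [half, hp, not_lt.1 hp]
    have h3 : (N.msgs (half z false) N.init (R.path ω)).length < K := by
      rw [hhalf]; omega
    obtain ⟨s, r, j0, vs, hv⟩ := exists_ann_half R z ω h3
    have hmem : ∀ (f : ℤ → Bool), P.length ≤ 4 * (P.filter f).length → ∃ p ∈ P, f p = true := by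
      intro f hf
      have : 0 < (P.filter f).length := by omega
      obtain ⟨p, hp⟩ := List.exists_mem_of_length_pos this
      exact ⟨p, (List.mem_filter.1 hp).1, (List.mem_filter.1 hp).2⟩
    obtain ⟨p1, hp1, hp1'⟩ := hmem _ h1
    obtain ⟨p2, hp2, hp2'⟩ := hmem _ h2
    have hz : z ∈ Finset.Icc (-(T : ℤ) - 1) (T + 1) := by
      have b1 := hPb p1 hp1
      have b2 := hPb p2 hp2
      simp only [decide_eq_true_eq] at hp1' hp2'
      rw [Finset.mem_Icc]
      constructor <;> omega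
    refine hωA z s hz ⟨?_, ?_, r, j0, vs, hv⟩
    · cases s with
      | false => rw [hhalf]; exact hcon
      | true =>
        have : half z true = fun p => !((fun p => decide (z < p)) p) := by
          funext p; simp [half]
        rw [this, N.msgs_compl]
        exact hcon
    · cases s with
      | false => rw [hhalf, ← hP, ← hPl]; exact h1
      | true => rw [hhalf', ← hP, ← hPl]; exact h2
  · intro z1 z2 h1 h2 h3
    by_contra hcon
    push Not at hcon
    have : 0 < (P.filter fun p => decide (z1 < p) && decide (p ≤ z2)).length := by omega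
    obtain ⟨p, hp⟩ := List.exists_mem_of_length_pos this
    have hp1 := (List.mem_filter.1 hp).1
    have hp2 := (List.mem_filter.1 hp).2
    simp only [Bool.and_eq_true, decide_eq_true_eq] at hp2
    have b := hPb p hp1
    refine hωB z1 z2 ?_ ?_ h2 ⟨?_, ?_⟩
    · rw [Finset.mem_Icc]; constructor <;> omega
    · rw [Finset.mem_Icc]; constructor <;> omega
    · exact lt_of_le_of_lt (N.msgs_interval_le z1 z2 _ _) hcon
    · rw [← hP]
      show K ≤ 4 * (P.filter fun p => decide (z1 < p) && decide (p ≤ z2)).length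
      omega
  · have := R.len ω
    omega

/-- The lower bound: for every large `n` some word of length `n` has only long accepting
computations. -/
theorem lower_bound (N : TapeMachine QSym) (hN : ∀ w, N.Accepts w ↔ w ∈ Fifo) :
    ∃ c : ℝ, 0 < c ∧ ∀ᶠ n : ℕ in atTop, ∃ w : List QSym, w.length = n ∧ w ∈ Fifo ∧
      ∀ t, N.AcceptsIn w t → c * (n : ℝ) ^ (3 / 2 : ℝ) ≤ t := by
  obtain ⟨C0, hC0, h⟩ := low_K N hN
  obtain ⟨K0, hK0⟩ := eventually_atTop.1 h
  refine ⟨1 / (90 * C0), by positivity, ?_⟩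
  filter_upwards [eventually_ge_atTop (4 * (K0 + 1) * (K0 + 1) + 2 * (K0 + 1))] with n hn
  set K := (Nat.sqrt (4 * n + 1) - 1) / 4 with hKdef
  have hs1 := Nat.sqrt_le' (4 * n + 1)
  have hs2 := Nat.lt_succ_sqrt' (4 * n + 1)
  set s := Nat.sqrt (4 * n + 1) with hs
  have hsK : K0 + 1 ≤ K := by
    have h1 : 4 * (K0 + 1) + 1 ≤ s := by
      rw [hs, Nat.le_sqrt']
      nlinarith
    omega
  have h4K : 4 * K + 1 ≤ s := by omega
  have h4K' : s < 4 * (K + 1) + 1 := by omega
  have hle : 4 * K * K + 2 * K ≤ n := by nlinarith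
  have hlt : n < 4 * (K + 1) * (K + 1) + 2 * (K + 1) := by
    have : (s + 1) ^ 2 ≤ (4 * (K + 1) + 1) ^ 2 := Nat.pow_le_pow_left (by omega) 2
    have h2 : 4 * n + 1 < (s + 1) ^ 2 := by simpa [Nat.succ_eq_add_one] using hs2
    nlinarith
  obtain ⟨pad, hpad⟩ : ∃ pad, n = 4 * K * K + 2 * K + pad := ⟨n - (4 * K * K + 2 * K), by omega⟩
  have hpad' : pad ≤ 8 * K + 6 := by nlinarith
  have hE := hK0 K (by omega) pad (K ^ 3 / C0) hpad' (Nat.mul_div_le _ _)
  have hex : ∃ ω : Om K, ∀ t, N.AcceptsIn (hardW K pad (yl ω) (gl ω)) t → K ^ 3 / C0 < t := by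
    by_contra hcon
    push Not at hcon
    apply hE.false
    have h1 : ∀ ω : Om K, ∃ l, N.IsPath N.init l ∧ N.pword l = hardW K pad (yl ω) (gl ω) ∧
        (N.endc N.init l).q ∈ N.acc ∧ l.length ≤ K ^ 3 / C0 := by
      intro ω
      obtain ⟨t, ⟨c, hc1, hc2⟩, ht⟩ := hcon ω
      obtain ⟨l, hl1, hl2, hl3, hl4⟩ := (N.reach_iff _ _ _ _).1 hc1
      exact ⟨l, hl1, hl2, by rw [hl4]; exact hc2, by omega⟩
    choose path p1 p2 p3 p4 using h1
    exact ⟨path, p1, p2, p3, p4⟩
  obtain ⟨ω, hω⟩ := hex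
  refine ⟨hardW K pad (yl ω) (gl ω), ?_, hardW_mem _ _ _ _ (length_yl ω) (length_gl ω), ?_⟩
  · rw [length_hardW K pad _ _ (length_yl ω) (length_gl ω) (length_of_mem_gl ω), hpad]
  · intro t ht
    have h1 := hω t ht
    have h2 : (K : ℝ) ^ 3 ≤ C0 * t := by
      have : K ^ 3 < C0 * t := by
        calc K ^ 3 < C0 * (K ^ 3 / C0 + 1) := Nat.lt_mul_div_succ _ hC0
          _ ≤ C0 * t := Nat.mul_le_mul_left _ h1
      exact_mod_cast this.le
    have hn20 : (n : ℝ) ≤ 20 * (K : ℝ) ^ 2 := by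
      have : n ≤ 20 * K ^ 2 := by nlinarith
      exact_mod_cast this
    have h3 : (n : ℝ) ^ (3 / 2 : ℝ) ≤ 90 * (K : ℝ) ^ 3 := by
      have hKr : (0 : ℝ) ≤ K := Nat.cast_nonneg _
      calc (n : ℝ) ^ (3 / 2 : ℝ) ≤ (20 * (K : ℝ) ^ 2) ^ (3 / 2 : ℝ) := by
            apply Real.rpow_le_rpow (Nat.cast_nonneg _) hn20 (by norm_num)
        _ = 20 ^ (3 / 2 : ℝ) * (K : ℝ) ^ 3 := by
            rw [Real.mul_rpow (by norm_num) (by positivity), ← Real.rpow_natCast (K : ℝ) 2,
              ← Real.rpow_mul hKr]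
            norm_num
        _ ≤ 90 * (K : ℝ) ^ 3 := by
            have : (20 : ℝ) ^ (3 / 2 : ℝ) ≤ 90 := by
              have h20 : (20 : ℝ) ^ (3 / 2 : ℝ) = ((20 : ℝ) ^ (3 : ℕ)) ^ (1 / 2 : ℝ) := by
                rw [← Real.rpow_natCast, ← Real.rpow_mul (by norm_num)]
                norm_num
              rw [h20, ← Real.sqrt_eq_rpow]
              rw [Real.sqrt_le_left (by norm_num)]
              norm_num
            gcongr
    have hC0r : (0 : ℝ) < C0 := by exact_mod_cast hC0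
    rw [div_mul_eq_mul_div, one_mul, div_le_iff₀ (by positivity)]
    calc (n : ℝ) ^ (3 / 2 : ℝ) ≤ 90 * (K : ℝ) ^ 3 := h3
      _ ≤ 90 * (C0 * t) := by gcongr
      _ = t * (90 * C0) := by ring

end Pool.Agent.QT
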