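import Pool.Agent.QT.Cut

/-! Basic facts on paths, messages and blocks. -/

namespace Pool.Agent.QT

namespace TapeMachine

variable {A : Type} (M : TapeMachine A)

theorem reach_iff (c : M.Cfg) (w : List A) (n : ℕ) (c' : M.Cfg) :
    M.Reach c w n c' ↔ ∃ l, M.IsPath c l ∧ M.pword l = w ∧ l.length = n ∧ M.endc c l = c' := by
  constructor
  · intro h
    induction h with
    | refl c => exact ⟨[], trivial, rfl, rfl, rfl⟩
    | @step c a c1 w n c2 hs _ ih =>
      obtain ⟨l, h1, h2, h3, h4⟩ := ih
      refine ⟨(a, c1) :: l, ⟨hs, h1⟩, ?_, by simp [h3], h4⟩
      cases a <;> simp [pword, ← h2]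
  · rintro ⟨l, h1, h2, h3, h4⟩
    induction l generalizing c w n with
    | nil =>
      subst h2 h3 h4
      exact Reach.refl c
    | cons x l ih =>
      obtain ⟨a, c1⟩ := x
      subst h2 h3
      have := ih c1 (M.pword l) l.length h1.2 rfl rfl h4
      have h5 := Reach.step (a := a) h1.1 this
      have e : M.pword ((a, c1) :: l) = a.toList ++ M.pword l := by
        cases a <;> simp [pword]
      rw [e]
      exact h5

theorem isPath_append (c : M.Cfg) (l l' : List (Option A × M.Cfg)) :
    M.IsPath c (l ++ l') ↔ M.IsPath c l ∧ M.IsPath (M.endc c l) l' := by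
  induction l generalizing c with
  | nil => simp [IsPath, endc]
  | cons x l ih => simp only [List.cons_append, IsPath, endc, ih, and_assoc]

theorem endc_append (c : M.Cfg) (l l' : List (Option A × M.Cfg)) :
    M.endc c (l ++ l') = M.endc (M.endc c l) l' := by
  induction l generalizing c with
  | nil => rfl
  | cons x l ih => simp only [List.cons_append, endc, ih]

theorem pword_append (l l' : List (Option A × M.Cfg)) :
    M.pword (l ++ l') = M.pword l ++ M.pword l' := by
  simp [pword]

/-- a path can be cut according to a factorisation of the word -/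
theorem path_split (l : List (Option A × M.Cfg)) (u v : List A) (h : M.pword l = u ++ v) :
    ∃ l1 l2, l = l1 ++ l2 ∧ M.pword l1 = u ∧ M.pword l2 = v := by
  induction l generalizing u with
  | nil =>
    simp only [pword, List.filterMap_nil] at h
    have h' := h.symm
    rw [List.append_eq_nil_iff] at h'
    exact ⟨[], [], rfl, by simp [pword, h'.1], by simp [pword, h'.2]⟩
  | cons x l ih =>
    obtain ⟨a, c1⟩ := x
    cases a with
    | none =>
      have e : M.pword ((none, c1) :: l) = M.pword l := by simp [pword]
      rw [e] at h
      obtain ⟨l1, l2, h1, h2, h3⟩ := ih u h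
      exact ⟨(none, c1) :: l1, l2, by simp [h1], by simpa [pword] using h2, h3⟩
    | some b =>
      have e : M.pword ((some b, c1) :: l) = b :: M.pword l := by simp [pword]
      rw [e] at h
      cases u with
      | nil =>
        exact ⟨[], (some b, c1) :: l, rfl, rfl, by rw [e, h]; rfl⟩
      | cons b' u =>
        simp only [List.cons_append, List.cons.injEq] at h
        obtain ⟨l1, l2, h1, h2, h3⟩ := ih u h.2
        refine ⟨(some b, c1) :: l1, l2, by simp [h1], ?_, h3⟩
        have e2 : M.pword ((some b, c1) :: l1) = b :: M.pword l1 := by simp [pword]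
        rw [e2, h2, h.1]

theorem reads_snd (c : M.Cfg) (l : List (Option A × M.Cfg)) :
    (M.reads c l).map Prod.snd = M.pword l := by
  induction l generalizing c with
  | nil => rfl
  | cons x l ih =>
    obtain ⟨a, c1⟩ := x
    simp only [reads, List.map_append, ih]
    cases a <;> simp [pword]

theorem reads_append (c : M.Cfg) (l l' : List (Option A × M.Cfg)) :
    M.reads c (l ++ l') = M.reads c l ++ M.reads (M.endc c l) l' := by
  induction l generalizing c with
  | nil => rfl
  | cons x l ih => simp only [List.cons_append, reads, endc, ih, List.append_assoc]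

private theorem PATHA_blocks_ne (S : ℤ → Bool) (c : M.Cfg) (l : List (Option A × M.Cfg)) :
    M.blocks S c l ≠ [] := by
  cases l with
  | nil => simp [blocks]
  | cons x l =>
    simp only [blocks]
    split_ifs with h
    · split <;> simp
    · simp

/-- blocks of a nonempty path whose first move does not cross -/
private theorem PATHA_blocks_same (S : ℤ → Bool) (c : M.Cfg) (x : Option A × M.Cfg)
    (l : List (Option A × M.Cfg)) (h : S c.pos = S x.2.pos) :
    ∃ b bs, M.blocks S x.2 l = b :: bs ∧
      M.blocks S c (x :: l) = ((x.1.toList.map fun a => (c.pos, a)) ++ b) :: bs := by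
  rcases hb : M.blocks S x.2 l with _ | ⟨b, bs⟩
  · exact absurd hb (PATHA_blocks_ne M S x.2 l)
  · refine ⟨b, bs, rfl, ?_⟩
    simp only [blocks, h, if_true, hb]

private theorem PATHA_blocks_cross (S : ℤ → Bool) (c : M.Cfg) (x : Option A × M.Cfg)
    (l : List (Option A × M.Cfg)) (h : S c.pos ≠ S x.2.pos) :
    M.blocks S c (x :: l) = (x.1.toList.map fun a => (c.pos, a)) :: M.blocks S x.2 l := by
  simp only [blocks, h, if_false]

theorem blocks_length (S : ℤ → Bool) (c : M.Cfg) (l : List (Option A × M.Cfg)) :
    (M.blocks S c l).length = (M.msgs S c l).length + 1 := by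
  induction l generalizing c with
  | nil => simp [blocks, msgs]
  | cons x l ih =>
    by_cases h : S c.pos = S x.2.pos
    · obtain ⟨b, bs, h1, h2⟩ := PATHA_blocks_same M S c x l h
      have h3 := ih x.2
      rw [h1] at h3
      rw [h2]
      simp only [msgs, h, if_true]
      simpa using h3
    · rw [PATHA_blocks_cross M S c x l h]
      simp only [msgs, h, if_false, List.length_cons, ih]

theorem blocks_flatten (S : ℤ → Bool) (c : M.Cfg) (l : List (Option A × M.Cfg)) :
    (M.blocks S c l).flatten = M.reads c l := by
  induction l generalizing c with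
  | nil => simp [blocks, reads]
  | cons x l ih =>
    by_cases h : S c.pos = S x.2.pos
    · obtain ⟨b, bs, h1, h2⟩ := PATHA_blocks_same M S c x l h
      have h3 := ih x.2
      rw [h1] at h3
      rw [h2]
      simp only [reads, ← h3, List.flatten_cons, List.append_assoc]
    · rw [PATHA_blocks_cross M S c x l h]
      simp only [List.flatten_cons, ih, reads]

/-- the events in the `true` blocks are the events with head position in `S` -/
theorem trueSide_blocks (S : ℤ → Bool) (c : M.Cfg) (l : List (Option A × M.Cfg)) :
    trueSide (S c.pos) (M.blocks S c l) = (M.reads c l).filter fun e => S e.1 := by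
  induction l generalizing c with
  | nil => simp [blocks, reads, trueSide]
  | cons x l ih =>
    have hev : (x.1.toList.map fun a => (c.pos, a)).filter (fun e => S e.1) =
        if S c.pos then (x.1.toList.map fun a => (c.pos, a)) else [] := by
      cases hx : x.1 <;> cases hs : S c.pos <;> simp [hs]
    by_cases h : S c.pos = S x.2.pos
    · obtain ⟨b, bs, h1, h2⟩ := PATHA_blocks_same M S c x l h
      have h3 := ih x.2
      rw [h1] at h3
      rw [h2]
      simp only [reads, List.filter_append, hev, ← h3, trueSide, h]
      cases S x.2.pos <;> simp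
    · rw [PATHA_blocks_cross M S c x l h]
      simp only [reads, List.filter_append, hev, trueSide]
      have : (!S c.pos) = S x.2.pos := by
        cases h1 : S c.pos <;> cases h2 : S x.2.pos <;> simp [h1, h2] at h ⊢
      rw [this, ih]

/-- block by block version of the previous statement -/
theorem blocks_side (S : ℤ → Bool) (c : M.Cfg) (l : List (Option A × M.Cfg)) (i : ℕ)
    (B : List (ℤ × A)) (hB : (M.blocks S c l)[i]? = some B) (e : ℤ × A) (he : e ∈ B) :
    S e.1 = (S c.pos ^^ decide (i % 2 = 1)) := by
  induction l generalizing c i B with
  | nil =>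
    simp only [blocks] at hB
    cases i with
    | zero =>
      simp only [List.getElem?_cons_zero, Option.some.injEq] at hB
      subst hB
      simp at he
    | succ i => simp at hB
  | cons x l ih =>
    have hev : ∀ e ∈ (x.1.toList.map fun a => (c.pos, a)), e.1 = c.pos := by
      intro e he
      obtain ⟨a, _, rfl⟩ := List.mem_map.1 he
      rfl
    by_cases h : S c.pos = S x.2.pos
    · obtain ⟨b, bs, h1, h2⟩ := PATHA_blocks_same M S c x l h
      rw [h2] at hB
      cases i with
      | zero =>
        simp only [List.getElem?_cons_zero, Option.some.injEq] at hB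
        subst hB
        rcases List.mem_append.1 he with he | he
        · rw [hev e he]; simp
        · have := ih x.2 0 b (by rw [h1]; rfl) he
          rw [this, h]
      | succ i =>
        have := ih x.2 (i + 1) B (by rw [h1]; simpa using hB) he
        rw [this, h]
    · rw [PATHA_blocks_cross M S c x l h] at hB
      have hn : S x.2.pos = !S c.pos := by
        cases h1 : S c.pos <;> cases h2 : S x.2.pos <;> simp [h1, h2] at h ⊢
      cases i with
      | zero =>
        simp only [List.getElem?_cons_zero, Option.some.injEq] at hB
        subst hB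
        rw [hev e he]; simp
      | succ i =>
        have := ih x.2 i B (by simpa using hB) he
        rw [this, hn]
        rcases Nat.mod_two_eq_zero_or_one i with h0 | h0
        · have h1 : (i + 1) % 2 = 1 := by omega
          simp [h0, h1]
        · have h1 : (i + 1) % 2 = 0 := by omega
          simp [h0, h1]

theorem msgs_append_length (S : ℤ → Bool) (c : M.Cfg) (l l' : List (Option A × M.Cfg)) :
    (M.msgs S c (l ++ l')).length =
      (M.msgs S c l).length + (M.msgs S (M.endc c l) l').length := by
  induction l generalizing c with
  | nil => simp [msgs, endc]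
  | cons x l ih =>
    simp only [List.cons_append, msgs, endc]
    split_ifs with h
    · exact ih x.2
    · simp only [List.length_cons, ih x.2]; ring

/-- complementing the set does not change blocks and messages -/
theorem blocks_compl (S : ℤ → Bool) (c : M.Cfg) (l : List (Option A × M.Cfg)) :
    M.blocks (fun z => !S z) c l = M.blocks S c l := by
  induction l generalizing c with
  | nil => rfl
  | cons x l ih =>
    by_cases h : S c.pos = S x.2.pos
    · obtain ⟨b, bs, h1, h2⟩ := PATHA_blocks_same M S c x l h
      obtain ⟨b', bs', h1', h2'⟩ := PATHA_blocks_same M (fun z => !S z) c x l (by simp [h])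
      rw [ih] at h1'
      rw [h1] at h1'
      simp only [List.cons.injEq] at h1'
      rw [h2, h2', h1'.1, h1'.2]
    · rw [PATHA_blocks_cross M S c x l h,
        PATHA_blocks_cross M (fun z => !S z) c x l (by simpa using h), ih]

theorem msgs_compl (S : ℤ → Bool) (c : M.Cfg) (l : List (Option A × M.Cfg)) :
    M.msgs (fun z => !S z) c l = M.msgs S c l := by
  induction l generalizing c with
  | nil => rfl
  | cons x l ih =>
    simp only [msgs, ih]
    by_cases h : S c.pos = S x.2.pos
    · simp [h]
    · have : ¬ ((!S c.pos) = (!S x.2.pos)) := by simpa using h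
      rw [if_neg h, if_neg this]

end TapeMachine

end Pool.Agent.QT
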