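import Pool.Agent.QT.Up

namespace Pool.Agent.QT

theorem prod_trans {A : Type} (M : TapeMachine A) {c c' c'' : M.Cfg} {w w' : List A} {n n' : ℕ}
    (h : M.Reach c w n c') (h' : M.Reach c' w' n' c'') : M.Reach c (w ++ w') (n + n') c'' := by
  induction h with
  | refl c => simpa using h'
  | step hs _ ih =>
    have h1 := TapeMachine.Reach.step hs (ih h')
    rw [List.append_assoc, Nat.add_right_comm]
    exact h1

theorem prod_aux_sound {A S : Type} (G : FifoAut A S) (N : TapeMachine (Op S))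
    {c c' : (prodTM G N).Cfg} {w : List A} {t : ℕ} (h : (prodTM G N).Reach c w t c') :
    ∃ ops n n', G.Run c.q.1 w ops n c'.q.1 ∧
      N.Reach ⟨c.q.2, c.pos, c.tape⟩ ops n' ⟨c'.q.2, c'.pos, c'.tape⟩ := by
  induction h with
  | refl c => exact ⟨[], 0, 0, .refl _, .refl _⟩
  | @step c a c' w n c'' hs _ ih =>
    obtain ⟨ops, m, n', h1, h2⟩ := ih
    obtain ⟨d, hst, hpos, htape⟩ := hs
    rcases c with ⟨⟨g, r⟩, pos, tape⟩
    rcases c' with ⟨⟨g', r'⟩, pos', tape'⟩
    simp only at hst hpos htape h1 h2 ⊢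
    change ProdStep G N (g, r) (tape pos) a (g', r') (tape' pos) d at hst
    generalize hx : tape pos = x at hst
    generalize hy : tape' pos = y at hst
    cases hst with
    | aut h =>
      have ht : tape' = tape := by
        funext z
        by_cases hz : z = pos
        · rw [hz, hx, hy]
        · exact htape z hz
      have hp : pos' = pos := by omega
      subst ht
      subst hp
      exact ⟨ops, m + 1, n', .step (o := none) h h1, h2⟩
    | @both _ _ o _ _ _ _ _ _ h h' =>
      refine ⟨o :: ops, m + 1, n' + 1, .step (o := some o) h h1, ?_⟩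
      refine TapeMachine.Reach.step (a := some o) (c' := ⟨r', pos', tape'⟩) ?_ h2
      refine ⟨d, ?_, hpos, htape⟩
      show N.step r (tape pos) (some o) r' (tape' pos) d
      rw [hx, hy]
      exact h'
    | tape h' =>
      refine ⟨ops, m, n' + 1, h1, ?_⟩
      refine TapeMachine.Reach.step (a := none) (c' := ⟨r', pos', tape'⟩) ?_ h2
      refine ⟨d, ?_, hpos, htape⟩
      show N.step r (tape pos) none r' (tape' pos) d
      rw [hx, hy]
      exact h'

theorem prod_sound {A S : Type} (G : FifoAut A S) (N : TapeMachine (Op S)) {w : List A} {t : ℕ}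
    (h : (prodTM G N).AcceptsIn w t) :
    ∃ ops n q n', G.Run G.start w ops n q ∧ q ∈ G.acc ∧ N.AcceptsIn ops n' := by
  obtain ⟨c, h1, h2⟩ := h
  obtain ⟨ops, n, n', h3, h4⟩ := prod_aux_sound G N h1
  exact ⟨ops, n, c.q.1, n', h3, h2.1, ⟨_, h4, h2.2⟩⟩

theorem prod_silent {A S : Type} (G : FifoAut A S) (N : TapeMachine (Op S)) (g : G.Q)
    {c c' : N.Cfg} {ops : List (Op S)} {t : ℕ} (h : N.Reach c ops t c') (h0 : ops = []) :
    (prodTM G N).Reach ⟨(g, c.q), c.pos, c.tape⟩ [] t ⟨(g, c'.q), c'.pos, c'.tape⟩ := by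
  induction h with
  | refl c => exact .refl _
  | @step c a c' w n c'' hs _ ih =>
    rcases a with _ | a
    · simp only [Option.toList_none, List.nil_append] at h0
      obtain ⟨d, hst, hpos, htape⟩ := hs
      exact TapeMachine.Reach.step (M := prodTM G N) (a := none) (c' := ⟨(g, c'.q), c'.pos, c'.tape⟩)
        ⟨d, ProdStep.tape hst, hpos, htape⟩ (ih h0)
    · simp at h0

theorem prod_split {S : Type} (N : TapeMachine (Op S)) {c c' : N.Cfg} {W : List (Op S)} {t : ℕ}
    (h : N.Reach c W t c') (o : Op S) (ops : List (Op S)) (h0 : W = o :: ops) :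
    ∃ c1 c2 t0 t2, N.Reach c [] t0 c1 ∧ N.Step c1 (some o) c2 ∧ N.Reach c2 ops t2 c' ∧
      t = t0 + 1 + t2 := by
  induction h with
  | refl c => simp at h0
  | @step c a c' w n c'' hs hr ih =>
    rcases a with _ | a
    · simp only [Option.toList_none, List.nil_append] at h0
      obtain ⟨c1, c2, t0, t2, h1, h2, h3, h4⟩ := ih h0
      refine ⟨c1, c2, t0 + 1, t2, ?_, h2, h3, by omega⟩
      exact TapeMachine.Reach.step (a := none) hs h1
    · simp only [Option.toList_some, List.singleton_append, List.cons.injEq] at h0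
      obtain ⟨rfl, rfl⟩ := h0
      exact ⟨c, c', 0, n, .refl _, hs, hr, by omega⟩

theorem prod_aux_complete {A S : Type} (G : FifoAut A S) (N : TapeMachine (Op S)) {w : List A}
    {ops : List (Op S)} {n : ℕ} {g g' : G.Q} (h : G.Run g w ops n g') :
    ∀ (c c' : N.Cfg) (t : ℕ), N.Reach c ops t c' → ∃ t', t' ≤ n + t ∧
      (prodTM G N).Reach ⟨(g, c.q), c.pos, c.tape⟩ w t' ⟨(g', c'.q), c'.pos, c'.tape⟩ := by
  induction h with
  | refl g => exact fun c c' t ht => ⟨t, by omega, prod_silent G N g ht rfl⟩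
  | @step g a o g1 w ops n g' htr _ ih =>
    intro c c' t ht
    rcases o with _ | o
    · obtain ⟨t', h1, h2⟩ := ih c c' t ht
      refine ⟨t' + 1, by omega, ?_⟩
      exact TapeMachine.Reach.step (M := prodTM G N) (c' := ⟨(g1, c.q), c.pos, c.tape⟩)
        ⟨0, ProdStep.aut htr, by simp, fun z _ => rfl⟩ h2
    · obtain ⟨c1, c2, t0, t2, h1, h2, h3, h4⟩ := prod_split N ht o ops rfl
      obtain ⟨t', h5, h6⟩ := ih c2 c' t2 h3
      obtain ⟨d, hst, hpos, htape⟩ := h2
      have h7 := prod_silent G N g h1 rfl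
      have h8 : (prodTM G N).Reach ⟨(g, c1.q), c1.pos, c1.tape⟩ (a.toList ++ w) (t' + 1)
          ⟨(g', c'.q), c'.pos, c'.tape⟩ :=
        TapeMachine.Reach.step (M := prodTM G N) (c' := ⟨(g1, c2.q), c2.pos, c2.tape⟩)
          ⟨d, ProdStep.both htr hst, hpos, htape⟩ h6
      refine ⟨t0 + (t' + 1), by omega, ?_⟩
      have h9 := prod_trans _ h7 h8
      rw [List.nil_append] at h9
      exact h9

theorem prod_complete {A S : Type} (G : FifoAut A S) (N : TapeMachine (Op S)) {w : List A}
    {ops : List (Op S)} {n : ℕ} {q : G.Q} {t : ℕ} (h : G.Run G.start w ops n q) (hq : q ∈ G.acc)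
    (ht : N.AcceptsIn ops t) : ∃ t', t' ≤ n + t ∧ (prodTM G N).AcceptsIn w t' := by
  obtain ⟨c, h1, h2⟩ := ht
  obtain ⟨t', h3, h4⟩ := prod_aux_complete G N h _ c t h1
  exact ⟨t', h3, _, h4, hq, h2⟩

end Pool.Agent.QT
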