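import Pool.Agent.QT.Up

namespace Pool.Agent.QT

/-- The relation between (state of `redAut M`, its queue) and a configuration of `M`. -/
inductive RedRel {A : Type} (M : QueueMachine A) :
    M.Q × Option M.G × Job → List (Option M.G) → M.Cfg → Prop
  | st (q : M.Q) : RedRel M (q, none, .st) [] ⟨q, []⟩
  | idle (q : M.Q) (f : Option M.G) (r1 r2 : List M.G) (h : f = none → r1 = [] ∧ r2 = []) :
      RedRel M (q, f, .idle) (r1.map some ++ none :: r2.map some) ⟨q, f.toList ++ r1 ++ r2⟩
  | pop1 (q : M.Q) (r1 r2 : List M.G) :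
      RedRel M (q, none, .pop1) (r1.map some ++ none :: r2.map some) ⟨q, r1 ++ r2⟩
  | pop2 (q : M.Q) (r : List M.G) : RedRel M (q, none, .pop2) (r.map some) ⟨q, r⟩
  | pop3 (q : M.Q) (r : List M.G) : RedRel M (q, none, .pop3) (r.map some ++ [none]) ⟨q, r⟩
  | pop4 (q : M.Q) : RedRel M (q, none, .pop4) [] ⟨q, []⟩

theorem red_rel_q {A : Type} (M : QueueMachine A) {s : M.Q × Option M.G × Job}
    {C : List (Option M.G)} {c : M.Cfg} (h : RedRel M s C c) : c.q = s.1 := by
  cases h <;> rfl

theorem red_qrun_enq {S : Type} {C : List S} {x : S} {w : List (Op S)} {C' : List S}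
    (h : QRun C (Op.enq x :: w) C') : QRun (C ++ [x]) w C' := by
  cases h with
  | enq h => exact h

theorem red_qrun_deq {S : Type} {C : List S} {x : S} {w : List (Op S)} {C' : List S}
    (h : QRun C (Op.deq x :: w) C') : ∃ C0, C = x :: C0 ∧ QRun C0 w C' := by
  cases h with
  | deq h => exact ⟨_, rfl, h⟩

/-- one transition of the automaton -/
theorem red_one {A : Type} (M : QueueMachine A) {s s' : M.Q × Option M.G × Job} {a : Option A}
    {o : Option (Op (Option M.G))} (htr : RedTr M s a o s') {C C1 : List (Option M.G)}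
    {ops : List (Op (Option M.G))} (hC : QRun C (o.toList ++ ops) C1) {c : M.Cfg}
    (hr : RedRel M s C c) : ∃ C' c' m, QRun C' ops C1 ∧ RedRel M s' C' c' ∧
      M.Reach c a.toList m c' := by
  cases htr with
  | start =>
    cases hr with
    | st q =>
      have h1 := red_qrun_enq hC
      exact ⟨_, _, 0, h1, RedRel.idle _ none [] [] (fun _ => ⟨rfl, rfl⟩), .refl _⟩
  | @empty q _ q' del e h =>
    cases hr with
    | idle _ _ r1 r2 h0 =>
      obtain ⟨rfl, rfl⟩ := h0 rfl
      refine ⟨_, ⟨q', e.toList ++ [] ++ []⟩, 1, hC,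
        RedRel.idle _ e [] [] (fun _ => ⟨rfl, rfl⟩), ?_⟩
      have h1 : M.Step ⟨q, (none : Option M.G).toList ++ [] ++ []⟩ a
          ⟨q', e.toList ++ [] ++ []⟩ := by
        refine ⟨del, e, h, ?_⟩
        cases del <;> simp
      have h2 := QueueMachine.Reach.step h1 (.refl _)
      simpa using h2
  | @keep q _ x q' e h =>
    cases hr with
    | idle _ _ r1 r2 h0 =>
      have h1 : M.Step ⟨q, (some x).toList ++ r1 ++ r2⟩ a
          ⟨q', (some x).toList ++ r1 ++ (r2 ++ e.toList)⟩ := by
        refine ⟨false, e, h, ?_⟩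
        simp
      have h2 := QueueMachine.Reach.step h1 (.refl _)
      rw [List.append_nil] at h2
      rcases e with _ | y
      · refine ⟨_, _, _, hC, ?_, h2⟩
        have := RedRel.idle (M := M) q' (some x) r1 (r2 ++ (none : Option M.G).toList) (by simp)
        simpa using this
      · refine ⟨_, _, _, red_qrun_enq hC, ?_, h2⟩
        have := RedRel.idle (M := M) q' (some x) r1 (r2 ++ (some y).toList) (by simp)
        simpa using this
  | @del q _ x q' e h =>
    cases hr with
    | idle _ _ r1 r2 h0 =>
      have h1 : M.Step ⟨q, (some x).toList ++ r1 ++ r2⟩ a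
          ⟨q', r1 ++ (r2 ++ e.toList)⟩ := by
        refine ⟨true, e, h, ?_⟩
        simp
      have h2 := QueueMachine.Reach.step h1 (.refl _)
      rw [List.append_nil] at h2
      rcases e with _ | y
      · refine ⟨_, _, _, hC, ?_, h2⟩
        have := RedRel.pop1 (M := M) q' r1 (r2 ++ (none : Option M.G).toList)
        simpa using this
      · refine ⟨_, _, _, red_qrun_enq hC, ?_, h2⟩
        have := RedRel.pop1 (M := M) q' r1 (r2 ++ (some y).toList)
        simpa using this
  | @pop1 q x =>
    cases hr with
    | pop1 _ r1 r2 =>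
      obtain ⟨C0, h1, h2⟩ := red_qrun_deq hC
      rcases r1 with _ | ⟨y, r1⟩
      · simp at h1
      · simp only [List.map_cons, List.cons_append, List.cons.injEq, Option.some.injEq] at h1
        obtain ⟨rfl, rfl⟩ := h1
        refine ⟨_, _, 0, h2, ?_, .refl _⟩
        exact RedRel.idle (M := M) q (some y) r1 r2 (by simp)
  | @pop1' q =>
    cases hr with
    | pop1 _ r1 r2 =>
      obtain ⟨C0, h1, h2⟩ := red_qrun_deq hC
      rcases r1 with _ | ⟨y, r1⟩
      · simp only [List.map_nil, List.nil_append, List.cons.injEq, true_and] at h1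
        subst h1
        exact ⟨_, _, 0, h2, RedRel.pop2 _ r2, .refl _⟩
      · simp at h1
  | @pop2 q =>
    cases hr with
    | pop2 _ r => exact ⟨_, _, 0, red_qrun_enq hC, RedRel.pop3 _ r, .refl _⟩
  | @pop3 q x =>
    cases hr with
    | pop3 _ r =>
      obtain ⟨C0, h1, h2⟩ := red_qrun_deq hC
      rcases r with _ | ⟨y, r⟩
      · simp at h1
      · simp only [List.map_cons, List.cons_append, List.cons.injEq, Option.some.injEq] at h1
        obtain ⟨rfl, rfl⟩ := h1
        refine ⟨_, _, 0, h2, ?_, .refl _⟩
        have := RedRel.idle (M := M) q (some y) r [] (by simp)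
        simpa using this
  | @pop3' q =>
    cases hr with
    | pop3 _ r =>
      obtain ⟨C0, h1, h2⟩ := red_qrun_deq hC
      rcases r with _ | ⟨y, r⟩
      · simp only [List.map_nil, List.nil_append, List.cons.injEq, true_and] at h1
        subst h1
        exact ⟨_, _, 0, h2, RedRel.pop4 _, .refl _⟩
      · simp at h1
  | @pop4 q =>
    cases hr with
    | pop4 _ =>
      exact ⟨_, _, 0, red_qrun_enq hC, RedRel.idle _ none [] [] (fun _ => ⟨rfl, rfl⟩), .refl _⟩

theorem red_trans {A : Type} (M : QueueMachine A) {c c' c'' : M.Cfg} {w w' : List A} {n n' : ℕ}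
    (h : M.Reach c w n c') (h' : M.Reach c' w' n' c'') : M.Reach c (w ++ w') (n + n') c'' := by
  induction h with
  | refl c => simpa using h'
  | step hs _ ih =>
    have h1 := QueueMachine.Reach.step hs (ih h')
    rw [List.append_assoc, Nat.add_right_comm]
    exact h1

theorem red_aux_sound {A : Type} (M : QueueMachine A) {w : List A}
    {ops : List (Op (Option M.G))} {n : ℕ} {s s' : (redAut M).Q}
    (h : (redAut M).Run s w ops n s') : ∀ (C C1 : List (Option M.G)) (c : M.Cfg),
      QRun C ops C1 → RedRel M s C c → ∃ c' m, RedRel M s' C1 c' ∧ M.Reach c w m c' := by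
  induction h with
  | refl s =>
    intro C C1 c hC hr
    cases hC
    exact ⟨c, 0, hr, .refl _⟩
  | step htr _ ih =>
    intro C C1 c hC hr
    obtain ⟨C', c', m, h1, h2, h3⟩ := red_one M htr hC hr
    obtain ⟨c2, m2, h4, h5⟩ := ih C' C1 c' h1 h2
    exact ⟨c2, m + m2, h4, red_trans M h3 h5⟩

theorem red_sound {A : Type} (M : QueueMachine A) {w : List A} {ops : List (Op (Option M.G))}
    {n : ℕ} {q : M.Q × Option M.G × Job} {C : List (Option M.G)}
    (h : (redAut M).Run (redAut M).start w ops n q) (hC : QRun [] ops C)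
    (hq : q ∈ (redAut M).acc) : M.Accepts w := by
  obtain ⟨c', m, h1, h2⟩ := red_aux_sound M h [] C M.init hC (RedRel.st M.start)
  refine ⟨m, c', h2, ?_⟩
  rw [red_rel_q M h1]
  exact hq.1

theorem red_qtrans {S : Type} {C C1 C2 : List S} {w w' : List (Op S)} (h : QRun C w C1)
    (h' : QRun C1 w' C2) : QRun C (w ++ w') C2 := by
  induction h with
  | nil C => exact h'
  | enq _ ih => exact .enq (ih h')
  | deq _ ih => exact .deq (ih h')

theorem red_run_trans {A S : Type} (G : FifoAut A S) {s s' s'' : G.Q} {w w' : List A}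
    {ops ops' : List (Op S)} {n n' : ℕ} (h : G.Run s w ops n s') (h' : G.Run s' w' ops' n' s'') :
    G.Run s (w ++ w') (ops ++ ops') (n + n') s'' := by
  induction h with
  | refl s => simpa using h'
  | step htr _ ih =>
    have h1 := FifoAut.Run.step htr (ih h')
    rw [List.append_assoc, List.append_assoc, Nat.add_right_comm]
    exact h1

/-- from `pop1` back to the idle state in at most four transitions -/
theorem red_pop {A : Type} (M : QueueMachine A) (q : M.Q) (r1 r2 : List M.G) :
    ∃ (f : Option M.G) (C : List (Option M.G)) (ops : List (Op (Option M.G))) (n' : ℕ), n' ≤ 4 ∧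
      RedRel M (q, f, .idle) C ⟨q, r1 ++ r2⟩ ∧
      (redAut M).Run (q, none, .pop1) [] ops n' (q, f, .idle) ∧
      QRun (r1.map some ++ none :: r2.map some) ops C := by
  rcases r1 with _ | ⟨y, r1⟩
  · rcases r2 with _ | ⟨y, r2⟩
    · refine ⟨none, [none], _, 4, le_rfl,
        RedRel.idle (M := M) q none [] [] (fun _ => ⟨rfl, rfl⟩),
        .step (a := none) RedTr.pop1' (.step (a := none) RedTr.pop2 (.step (a := none) RedTr.pop3'
          (.step (a := none) RedTr.pop4 (.refl _)))), ?_⟩
      exact .deq (.enq (.deq (.enq (.nil _))))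
    · refine ⟨some y, r2.map some ++ [none], _, 3, by norm_num, ?_,
        .step (a := none) RedTr.pop1' (.step (a := none) RedTr.pop2 (.step (a := none)
          (RedTr.pop3 (c := y)) (.refl _))), ?_⟩
      · have := RedRel.idle (M := M) q (some y) r2 [] (by simp)
        simpa using this
      · exact .deq (.enq (.deq (.nil _)))
  · refine ⟨some y, r1.map some ++ none :: r2.map some, _, 1, by norm_num,
      RedRel.idle (M := M) q (some y) r1 r2 (by simp),
      .step (a := none) (RedTr.pop1 (c := y)) (.refl _), ?_⟩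
    exact .deq (.nil _)

theorem red_aux_complete {A : Type} (M : QueueMachine A) {w : List A} {n : ℕ} {c c' : M.Cfg}
    (h : M.Reach c w n c') : ∀ (f : Option M.G) (C : List (Option M.G)),
      RedRel M (c.q, f, .idle) C c → ∃ ops n' f' C', n' ≤ 5 * n ∧
        (redAut M).Run (c.q, f, .idle) w ops n' (c'.q, f', .idle) ∧ QRun C ops C' := by
  induction h with
  | refl c =>
    intro f C _
    exact ⟨[], 0, f, C, by omega, .refl _, .nil _⟩
  | @step c a c1 w n c' hs _ ih =>
    intro f C hr
    obtain ⟨del, e, hst, hq⟩ := hs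
    rcases c with ⟨q, Qu⟩
    rcases c1 with ⟨q1, Qu1⟩
    simp only at hst hq hr ih ⊢
    cases hr with
    | idle _ _ r1 r2 h0 =>
      rcases f with _ | x
      · obtain ⟨rfl, rfl⟩ := h0 rfl
        have hst' : M.step q a none q1 del e := by simpa using hst
        have hq' : Qu1 = e.toList := by
          rw [hq]
          cases del <;> simp
        subst hq'
        obtain ⟨ops, n', f', C', h1, h2, h3⟩ := ih e [none] (by
          have := RedRel.idle (M := M) q1 e [] [] (fun _ => ⟨rfl, rfl⟩)
          simpa using this)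
        exact ⟨ops, n' + 1, f', C', by omega, .step (o := none) (RedTr.empty hst') h2, h3⟩
      · have hst' : M.step q a (some x) q1 del e := by simpa using hst
        rcases del with _ | _
        · have hq' : Qu1 = (some x).toList ++ r1 ++ (r2 ++ e.toList) := by
            rw [hq]
            simp
          subst hq'
          obtain ⟨ops, n', f', C', h1, h2, h3⟩ := ih (some x) _
            (RedRel.idle (M := M) q1 (some x) r1 (r2 ++ e.toList) (by simp))
          refine ⟨_, n' + 1, f', C', by omega, .step (RedTr.keep hst') h2, ?_⟩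
          rcases e with _ | y
          · simpa using h3
          · refine .enq ?_
            simpa using h3
        · have hq' : Qu1 = r1 ++ (r2 ++ e.toList) := by
            rw [hq]
            simp
          subst hq'
          obtain ⟨f1, C1, ops1, n1, g1, g2, g3, g4⟩ := red_pop M q1 r1 (r2 ++ e.toList)
          obtain ⟨ops, n', f', C', h1, h2, h3⟩ := ih f1 C1 g2
          refine ⟨_, n1 + n' + 1, f', C', by omega,
            .step (RedTr.del hst') (red_run_trans _ g3 h2), ?_⟩
          have h4 := red_qtrans g4 h3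
          rcases e with _ | y
          · simpa using h4
          · refine .enq ?_
            simpa using h4

theorem red_complete {A : Type} (M : QueueMachine A) {w : List A} {n : ℕ}
    (h : M.AcceptsIn w n) :
    ∃ (ops : List (Op (Option M.G))) (n' : ℕ) (q : M.Q × Option M.G × Job)
      (C : List (Option M.G)), n' ≤ 5 * n + 1 ∧ (redAut M).Run (redAut M).start w ops n' q ∧
      QRun [] ops C ∧ q ∈ (redAut M).acc := by
  obtain ⟨c, h1, h2⟩ := h
  obtain ⟨ops, n', f', C', h3, h4, h5⟩ := red_aux_complete M h1 none [none]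
    (RedRel.idle (M := M) M.start none [] [] (fun _ => ⟨rfl, rfl⟩))
  refine ⟨_, n' + 1, (c.q, f', .idle), C', by omega, .step (a := none) RedTr.start h4, ?_, ?_⟩
  · exact .enq h5
  · exact ⟨h2, rfl⟩

end Pool.Agent.QT
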