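import Pool.Agent.QT.Comb

/-! Families of accepting paths for the hard words, and the bad events. -/

namespace Pool.Agent.QT

open QSym

/-- the parameters of a hard word: the ring and the `K` blocks of the long round -/
abbrev Om (K : ℕ) := (Fin K → Bool) × (Fin K → Fin K → Bool)

/-- the ring as a list -/
def yl {K : ℕ} (ω : Om K) : List Bool := List.ofFn ω.1

/-- the blocks as a list of lists -/
def gl {K : ℕ} (ω : Om K) : List (List Bool) := List.ofFn fun i => List.ofFn (ω.2 i)

/-- accepting paths with at most `T` moves for all hard words with parameter `K` -/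
structure Runs (N : TapeMachine QSym) (K pad T : ℕ) where
  path : Om K → List (Option QSym × N.Cfg)
  isPath : ∀ ω, N.IsPath N.init (path ω)
  word : ∀ ω, N.pword (path ω) = hardW K pad (yl ω) (gl ω)
  acc : ∀ ω, (N.endc N.init (path ω)).q ∈ N.acc
  len : ∀ ω, (path ω).length ≤ T

def isDeq : QSym → Bool
  | enq _ => false
  | deq _ => true

/-- head positions at the reading of the `deq` symbols of the long round, given all reading events -/
def gpos (K : ℕ) (rd : List (ℤ × QSym)) : List ℤ :=
  (((rd.drop (K + K * (2 * K))).take (K + K * K)).filter fun e => isDeq e.2).map Prod.fst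

/-- half line `z < p` (`s = false`) or its complement (`s = true`) -/
def half (z : ℤ) (s : Bool) : ℤ → Bool := fun p => decide (z < p) ^^ s

/-- the interval `z1 < p ≤ z2` -/
def itv (z1 z2 : ℤ) : ℤ → Bool := fun p => decide (z1 < p) && decide (p ≤ z2)

/-- the blocks of the path of `ω` admit an annotation with an intact rotation on the `false` side -/
def HasAnn {N : TapeMachine QSym} {K pad T : ℕ} (R : Runs N K pad T) (S : ℤ → Bool) (ω : Om K)
    (r j0 : ℕ) (vs : List (List (Fin 4 × QSym))) : Prop :=
  AnnBlocks K pad (S 0) (yl ω) (gl ω) r j0 vs ∧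
    vs.map (List.map Prod.snd) = (N.blocks S N.init (R.path ω)).map (List.map Prod.snd)

/-- bad event A: few crossings of the half line, many `deq` symbols of the long round read inside,
an intact rotation read outside -/
def XA {N : TapeMachine QSym} {K pad T : ℕ} (R : Runs N K pad T) (S : ℤ → Bool) (L : ℕ) :
    Set (Om K) :=
  {ω | (N.msgs S N.init (R.path ω)).length < L ∧
    K ≤ 4 * ((gpos K (N.reads N.init (R.path ω))).filter S).length ∧
    ∃ r j0 vs, HasAnn R S ω r j0 vs}

/-- bad event B: few crossings of an interval, many `deq` symbols of the long round read inside -/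
def XB {N : TapeMachine QSym} {K pad T : ℕ} (R : Runs N K pad T) (S : ℤ → Bool) (L : ℕ) :
    Set (Om K) :=
  {ω | (N.msgs S N.init (R.path ω)).length < L ∧
    K ≤ 4 * ((gpos K (N.reads N.init (R.path ω))).filter S).length}

end Pool.Agent.QT
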