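import Pool.Agent.QT.ZIP

namespace Pool.Agent.QT

variable {S : Type} [Finite S]

theorem lay_right (l u v : List (Cell S)) :
    TZ S .lay u (l ++ v) [] l.length .lay (l.reverse ++ u) v := by
  induction l generalizing u with
  | nil => exact tz_refl
  | cons g l ih =>
    have h1 : TZ S .lay u (g :: (l ++ v)) [] 1 .lay (g :: u) (l ++ v) :=
      tz_right (TStep.right g)
    have h2 := tz_trans h1 (ih (g :: u))
    have e1 : (g :: l).length = 1 + l.length := by rw [List.length_cons, add_comm]
    have e2 : (g :: l).reverse ++ u = l.reverse ++ g :: u := by simp
    rw [e1, e2]
    exact h2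

private theorem lay_left (l u : List (Cell S)) (g : Cell S) (v : List (Cell S)) :
    TZ S .lay (l ++ u) (g :: v) [] l.length .lay u (l.reverse ++ g :: v) := by
  induction l generalizing g v with
  | nil => exact tz_refl
  | cons y l ih =>
    have h1 : TZ S .lay (y :: (l ++ u)) (g :: v) [] 1 .lay (l ++ u) (y :: g :: v) :=
      tz_left (TStep.left g)
    have h2 := tz_trans h1 (ih y (g :: v))
    have e1 : (y :: l).length = 1 + l.length := by rw [List.length_cons, add_comm]
    have e2 : (y :: l).reverse ++ g :: v = l.reverse ++ y :: g :: v := by simp
    rw [e1, e2]
    exact h2

private theorem car_right (x : Cell S) (n : ℕ) (u v : List (Cell S)) :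
    TZ S (.car x) u (List.replicate n .blank ++ v) [] n (.car x)
      (List.replicate n .blank ++ u) v := by
  induction n generalizing u with
  | zero => exact tz_refl
  | succ n ih =>
    have h1 : TZ S (.car x) u (.blank :: (List.replicate n .blank ++ v)) [] 1 (.car x)
        (.blank :: u) (List.replicate n .blank ++ v) := tz_right (TStep.cright x)
    have h2 := tz_trans h1 (ih (.blank :: u))
    have e1 : n + 1 = 1 + n := add_comm _ _
    have e2 : List.replicate (n + 1) Cell.blank ++ u =
        List.replicate n Cell.blank ++ .blank :: u := by
      rw [List.replicate_succ', List.append_assoc]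
      rfl
    have e3 : (List.replicate (n + 1) Cell.blank ++ v : List (Cell S)) =
        .blank :: (List.replicate n .blank ++ v) := by
      rw [List.replicate_succ]
      rfl
    rw [e2, e3, e1]
    exact h2

omit [Finite S] in
private theorem nb_append (l l' : List (Cell S)) : nb (l ++ l') = nb l ++ nb l' := by
  simp [nb]

omit [Finite S] in
private theorem nb_nil_iff (B : List (Cell S)) (h : nb B = []) :
    B = List.replicate B.length .blank := by
  rw [List.eq_replicate_iff]
  refine ⟨rfl, ?_⟩
  intro b hb
  have h1 : ¬ (nbl b = true) := by
    intro h2
    have : b ∈ nb B := List.mem_filter.mpr ⟨hb, h2⟩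
    rw [h] at this
    simp at this
  cases b with
  | blank => rfl
  | wall => exact absurd rfl h1
  | cut => exact absurd rfl h1
  | sym c => exact absurd rfl h1

omit [Finite S] in
private theorem nb_split (B : List (Cell S)) (w : List (Cell S)) (x : Cell S)
    (h : nb B = w ++ [x]) :
    ∃ B' j, B = B' ++ x :: List.replicate j .blank ∧ nb B' = w := by
  induction B using List.reverseRecOn generalizing w x with
  | nil => simp [nb] at h
  | append_singleton B y ih =>
    by_cases hy : nbl y = true
    · rw [nb_append] at h
      have h1 : nb [y] = [y] := by simp [nb, hy]
      rw [h1] at h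
      obtain ⟨h2, h3⟩ := List.append_inj' h rfl
      refine ⟨B, 0, ?_, h2⟩
      have h4 : y = x := by simpa using h3
      rw [h4]
      rfl
    · rw [nb_append] at h
      have h1 : nb [y] = [] := by simp [nb, hy]
      rw [h1, List.append_nil] at h
      obtain ⟨B', j, h2, h3⟩ := ih w x h
      have h4 : y = .blank := by
        cases y with
        | blank => rfl
        | wall => exact absurd rfl hy
        | cut => exact absurd rfl hy
        | sym c => exact absurd rfl hy
      refine ⟨B', j + 1, ?_, h3⟩
      rw [h2, h4, List.replicate_succ']
      simp

/-- Moving all symbols to the right, one after the other, the last one first. -/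
theorem lay_move (l B : List (Cell S)) (h : nb l = nb B) (hB : 0 < B.length)
    (u0 rest : List (Cell S)) :
    ∃ t, t ≤ l.length + (nb l).length * (2 * (l.length + B.length) + 5) ∧
      TZ S .lay (l.reverse ++ u0) (List.replicate B.length .blank ++ rest) [] t
        .lay u0 (List.replicate l.length .blank ++ (B ++ rest)) := by
  induction l using List.reverseRecOn generalizing B rest with
  | nil =>
    refine ⟨0, Nat.zero_le _, ?_⟩
    have h1 := nb_nil_iff B h.symm
    have h2 : TZ S .lay ([] ++ u0) (List.replicate B.length .blank ++ rest) [] 0
        .lay u0 (List.replicate B.length .blank ++ rest) := tz_refl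
    rw [← h1] at h2 ⊢
    exact h2
  | append_singleton l x ih =>
    obtain ⟨b, hb⟩ : ∃ b, B.length = b + 1 := ⟨B.length - 1, by omega⟩
    have e0 : (l ++ [x]).reverse ++ u0 = x :: (l.reverse ++ u0) := by simp
    have s1 : TZ S .lay (x :: (l.reverse ++ u0)) (.blank :: (List.replicate b .blank ++ rest)) []
        1 .lay (l.reverse ++ u0) (x :: .blank :: (List.replicate b .blank ++ rest)) :=
      tz_left (TStep.left _)
    have e1 : (List.replicate B.length Cell.blank ++ rest : List (Cell S)) =
        .blank :: (List.replicate b .blank ++ rest) := by
      rw [hb, List.replicate_succ]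
      rfl
    rw [e0, e1]
    by_cases hx : nbl x = true
    · -- a nonblank symbol is carried to its new place
      have hnx : nb [x] = [x] := by simp [nb, hx]
      have hxb : x ≠ .blank := by
        rintro rfl
        exact absurd hx (by simp [nbl])
      have h1 : nb B = nb l ++ [x] := by rw [← h, nb_append, hnx]
      obtain ⟨B', j, hB', hnB'⟩ := nb_split B (nb l) x h1
      have hlen : B.length = B'.length + 1 + j := by
        rw [hB']
        simp
        omega
      have hbj : b = B'.length + j := by omega
      -- pick the symbol
      have s2 : TZ S .lay (l.reverse ++ u0) (x :: .blank :: (List.replicate b .blank ++ rest)) []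
          1 (.car x) (l.reverse ++ u0) (.blank :: .blank :: (List.replicate b .blank ++ rest)) :=
        tz_stay (TStep.pick hxb)
      -- carry it
      have e2 : (.blank :: .blank :: (List.replicate b .blank ++ rest) : List (Cell S)) =
          List.replicate (B'.length + 1) .blank ++
            (.blank :: (List.replicate j .blank ++ rest)) := by
        have h2 : (.blank :: .blank :: (List.replicate b .blank ++ rest) : List (Cell S)) =
            List.replicate (b + 2) .blank ++ rest := by
          rw [List.replicate_succ, List.replicate_succ]
          rfl
        have h3 : (.blank :: (List.replicate j .blank ++ rest) : List (Cell S)) =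
            List.replicate (j + 1) .blank ++ rest := by
          rw [List.replicate_succ]
          rfl
        rw [h2, h3, ← List.append_assoc, List.replicate_append_replicate]
        congr 2
        omega
      have s3 := car_right x (B'.length + 1) (l.reverse ++ u0)
        (.blank :: (List.replicate j .blank ++ rest))
      -- put it
      have s4 : TZ S (.car x) (List.replicate (B'.length + 1) .blank ++ (l.reverse ++ u0))
          (.blank :: (List.replicate j .blank ++ rest)) [] 1 .lay
          (List.replicate (B'.length + 1) .blank ++ (l.reverse ++ u0))
          (x :: (List.replicate j .blank ++ rest)) := tz_stay (TStep.put x)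
      -- walk back
      have s5 := lay_left (List.replicate (B'.length + 1) .blank) (l.reverse ++ u0) x
        (List.replicate j .blank ++ rest)
      rw [List.length_replicate, List.reverse_replicate] at s5
      -- the other symbols
      obtain ⟨t, ht, s6⟩ := ih (.blank :: B') (by
        have : nb (.blank :: B') = nb B' := by simp [nb, nbl]
        rw [this, hnB']) (by simp) (x :: (List.replicate j .blank ++ rest))
      rw [List.length_cons] at s6 ht
      rw [e2] at s2
      have S1 := tz_trans (tz_trans (tz_trans (tz_trans (tz_trans s1 s2) s3) s4) s5) s6
      refine ⟨1 + 1 + (B'.length + 1) + 1 + (B'.length + 1) + t, ?_, ?_⟩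
      · rw [nb_append, hnx, List.length_append, List.length_append, hlen, List.length_singleton]
        have h3 : (nb l).length * (2 * (l.length + (B'.length + 1)) + 5) ≤
            (nb l).length * (2 * (l.length + 1 + (B'.length + 1 + j)) + 5) :=
          Nat.mul_le_mul_left _ (by omega)
        have h4 : ((nb l).length + 1) * (2 * (l.length + 1 + (B'.length + 1 + j)) + 5) =
            (nb l).length * (2 * (l.length + 1 + (B'.length + 1 + j)) + 5) +
              (2 * (l.length + 1 + (B'.length + 1 + j)) + 5) := by ring
        rw [h4]
        omega
      · have e3 : (List.replicate (l ++ [x]).length Cell.blank ++ (B ++ rest) : List (Cell S)) =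
            List.replicate l.length .blank ++
              (.blank :: B' ++ (x :: (List.replicate j .blank ++ rest))) := by
          rw [hB', List.length_append, List.length_singleton, List.replicate_succ']
          simp
        rw [e3]
        exact S1
    · -- a blank cell
      have hxb : x = .blank := by
        cases x with
        | blank => rfl
        | wall => exact absurd rfl hx
        | cut => exact absurd rfl hx
        | sym c => exact absurd rfl hx
      subst hxb
      have hnx : nb [(.blank : Cell S)] = [] := rfl
      have hnb : nb (l ++ [.blank]) = nb l := by rw [nb_append, hnx, List.append_nil]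
      obtain ⟨t, ht, s2⟩ := ih (.blank :: B) (by
        have : nb (.blank :: B) = nb B := by simp [nb, nbl]
        rw [this, ← h, hnb]) (by simp) rest
      have e2 : (List.replicate (Cell.blank :: B).length Cell.blank ++ rest : List (Cell S)) =
          .blank :: .blank :: (List.replicate b .blank ++ rest) := by
        rw [List.length_cons, hb, List.replicate_succ, List.replicate_succ]
        rfl
      rw [e2] at s2
      refine ⟨1 + t, ?_, ?_⟩
      · rw [hnb, List.length_append, List.length_singleton]
        rw [List.length_cons] at ht
        have h3 : 2 * (l.length + 1 + B.length) + 5 = 2 * (l.length + (B.length + 1)) + 5 := by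
          ring
        rw [h3]
        omega
      · have e3 : (List.replicate (l ++ [Cell.blank]).length Cell.blank ++ (B ++ rest) :
            List (Cell S)) = List.replicate l.length .blank ++ (.blank :: B ++ rest) := by
          rw [List.length_append, List.length_singleton, List.replicate_succ']
          simp
        rw [e3]
        exact tz_trans s1 s2

omit [Finite S] in
private theorem nb_map_cell (v : List (Option S)) : nb (v.map cell) = (cont v).map .sym := by
  induction v with
  | nil => rfl
  | cons a v ih =>
    cases a with
    | none =>
      have h1 : nb ((none :: v).map cell) = nb (v.map cell : List (Cell S)) := by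
        simp [nb, cell, nbl]
      have h2 : cont (none :: v) = cont v := by simp [cont]
      rw [h1, h2, ih]
    | some c =>
      have h1 : nb ((some c :: v).map cell) = .sym c :: nb (v.map cell : List (Cell S)) := by
        simp [nb, cell, nbl]
      have h2 : cont (some c :: v) = c :: cont v := by simp [cont]
      rw [h1, h2, ih, List.map_cons]

omit [Finite S] in
private theorem nb_region (u v : List (Option S)) :
    nb (.wall :: ((u.map cell).reverse ++ (.cut :: (v.map cell ++ [.wall])))) =
      .wall :: ((cont u.reverse).map .sym ++ (.cut :: ((cont v).map .sym ++ [.wall]))) := by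
  have h1 : nb ((.wall : Cell S) :: ((u.map cell).reverse ++ (.cut :: (v.map cell ++ [.wall])))) =
      nb [.wall] ++ (nb ((u.reverse).map cell) ++ (nb [.cut] ++ (nb (v.map cell) ++ nb [.wall]))) := by
    rw [← nb_append, ← nb_append, ← nb_append, ← nb_append, List.map_reverse]
    rfl
  rw [h1, nb_map_cell, nb_map_cell]
  rfl

/-- From one layout of the region to another one. -/
theorem layout {u v u1 v1 : List (Option S)} (hu : cont u.reverse = cont u1.reverse)
    (hv : cont v = cont v1) (u0 : List (Cell S)) :
    ∃ t u0', t ≤ ((cont u.reverse).length + (cont v).length + 3) *
        (2 * (u.length + v.length + u1.length + v1.length) + 17) +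
        3 * (u.length + v.length + u1.length + v1.length) + 18 ∧
      TZ S .lay (u.map cell ++ .wall :: u0) (.cut :: (v.map cell ++ [.wall])) [] t
        .lay (u1.map cell ++ .wall :: u0') (.cut :: (v1.map cell ++ [.wall])) := by
  set l : List (Cell S) := .wall :: ((u.map cell).reverse ++ (.cut :: (v.map cell ++ [.wall])))
    with hl
  set B : List (Cell S) := .wall :: ((u1.map cell).reverse ++ (.cut :: (v1.map cell ++ [.wall])))
    with hB
  have hnb : nb l = nb B := by rw [hl, hB, nb_region, nb_region, hu, hv]
  have hll : l.length = u.length + v.length + 3 := by
    rw [hl]
    simp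
    omega
  have hBl : B.length = u1.length + v1.length + 3 := by
    rw [hB]
    simp
    omega
  have hnl : (nb l).length = (cont u.reverse).length + (cont v).length + 3 := by
    rw [hl, nb_region]
    simp
    omega
  obtain ⟨t, ht, s2⟩ := lay_move l B hnb (by rw [hBl]; omega) u0 []
  -- to the right end of the old region
  have s1 := lay_right (.cut :: (v.map cell ++ [.wall])) (u.map cell ++ .wall :: u0) []
  have e1 : (.cut :: (v.map cell ++ [.wall]) : List (Cell S)).reverse ++
      (u.map cell ++ .wall :: u0) = l.reverse ++ u0 := by
    rw [hl]
    simp
  rw [e1, List.append_nil] at s1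
  -- padding
  have s2' : TZ S .lay (l.reverse ++ u0) [] [] t .lay u0
      (List.replicate l.length .blank ++ B) := by
    refine tz_pad 0 B.length 0 0 ?_
    simp only [List.replicate_zero, List.append_nil, List.nil_append] at s2 ⊢
    exact s2
  -- to the new mark
  have s3 := lay_right (List.replicate l.length .blank ++ .wall :: (u1.map cell).reverse) u0
    (.cut :: (v1.map cell ++ [.wall]))
  have e2 : (List.replicate l.length .blank ++ .wall :: (u1.map cell).reverse : List (Cell S)) ++
      (.cut :: (v1.map cell ++ [.wall])) = List.replicate l.length .blank ++ B := by
    rw [hB]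
    simp
  have e3 : (List.replicate l.length .blank ++ .wall :: (u1.map cell).reverse :
      List (Cell S)).reverse ++ u0 =
      u1.map cell ++ .wall :: (List.replicate l.length .blank ++ u0) := by
    simp
  rw [e2, e3] at s3
  have S1 := tz_trans (tz_trans s1 s2') s3
  simp only [List.append_nil] at S1
  refine ⟨(.cut :: (v.map cell ++ [.wall]) : List (Cell S)).length + t +
    (List.replicate l.length .blank ++ .wall :: (u1.map cell).reverse : List (Cell S)).length,
    List.replicate l.length .blank ++ u0, ?_, S1⟩
  rw [hll, hBl, hnl] at ht
  have h5 : 2 * (u.length + v.length + 3 + (u1.length + v1.length + 3)) + 5 =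
      2 * (u.length + v.length + u1.length + v1.length) + 17 := by ring
  rw [h5] at ht
  simp only [List.length_cons, List.length_append, List.length_map, List.length_replicate,
    List.length_reverse, List.length_nil, hll]
  omega

end Pool.Agent.QT
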