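import Pool.Agent.QT.ZIP

namespace Pool.Agent.QT

theorem tmain_cell_ne_wall {S : Type} (c : Option S) : cell c ≠ .wall := by
  cases c <;> simp [cell]

theorem tmain_back {S : Type} [Finite S] (u0 : List (Cell S)) (l : List (Option S)) :
    ∀ (V : List (Cell S)) (x : Cell S) (rest : List (Cell S)),
      l.map cell ++ .wall :: u0 = x :: rest →
      TZ S .back rest (x :: V) [] l.length .back u0 (.wall :: (l.reverse.map cell ++ V)) := by
  induction l with
  | nil =>
    intro V x rest h
    simp only [List.map_nil, List.nil_append, List.cons.injEq] at h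
    obtain ⟨rfl, rfl⟩ := h
    exact tz_refl
  | cons a l ih =>
    intro V x rest h
    simp only [List.map_cons, List.cons_append, List.cons.injEq] at h
    obtain ⟨rfl, rfl⟩ := h
    obtain ⟨x', rest', h'⟩ : ∃ x' rest', l.map cell ++ .wall :: u0 = x' :: rest' := by
      cases hl : l.map cell ++ .wall :: u0 with
      | nil => simp at hl
      | cons x' rest' => exact ⟨x', rest', rfl⟩
    have h1 := ih (cell a :: V) x' rest' h'
    rw [h']
    have h2 : TZ S .back (x' :: rest') (cell a :: V) (none : Option (Op S)).toList 1 .back
        rest' (x' :: cell a :: V) := tz_left (TStep.back (tmain_cell_ne_wall a))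
    have h3 := tz_trans h2 h1
    have e1 : (a :: l).length = 1 + l.length := by simp [add_comm]
    have e2 : ((a :: l).reverse.map cell ++ V) = (l.reverse.map cell ++ cell a :: V) := by
      simp
    rw [e1, e2]
    exact h3

theorem main_run {S : Type} [Finite S] {u v : List (Option S)} {w : List (Op S)}
    {u' v' : List (Option S)} {k : ℕ} (h : Ep u v w u' v' k) (u0 v0 : List (Cell S)) :
    ∃ t, t + u.length = u'.length + k * (2 * (u.length + v.length) + 2) ∧
      TZ S .main (u.map cell ++ .wall :: u0) (v.map cell ++ .wall :: v0) w t
        .main (u'.map cell ++ .wall :: u0) (v'.map cell ++ .wall :: v0) := by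
  induction h with
  | done u v => exact ⟨0, by simp, tz_refl⟩
  | @skip u v w u' v' k _ ih =>
    obtain ⟨t, ht, hz⟩ := ih
    refine ⟨1 + t, ?_, ?_⟩
    · simp only [List.length_cons] at ht ⊢
      have e : u.length + 1 + v.length = u.length + (v.length + 1) := by ring
      rw [e] at ht
      omega
    · have h2 := tz_right (S := S) (u := u.map cell ++ .wall :: u0)
        (v := v.map cell ++ .wall :: v0) TStep.skip
      exact tz_trans h2 hz
  | @enq u v c w u' v' k _ ih =>
    obtain ⟨t, ht, hz⟩ := ih
    refine ⟨1 + t, ?_, ?_⟩
    · simp only [List.length_cons] at ht ⊢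
      have e : u.length + 1 + v.length = u.length + (v.length + 1) := by ring
      rw [e] at ht
      omega
    · have h2 := tz_right (S := S) (u := u.map cell ++ .wall :: u0)
        (v := v.map cell ++ .wall :: v0) (TStep.enq c)
      exact tz_trans h2 hz
  | @deq u v c w u' v' k _ ih =>
    obtain ⟨t, ht, hz⟩ := ih
    refine ⟨1 + t, ?_, ?_⟩
    · simp only [List.length_cons] at ht ⊢
      have e : u.length + 1 + v.length = u.length + (v.length + 1) := by ring
      rw [e] at ht
      omega
    · have h2 := tz_right (S := S) (u := u.map cell ++ .wall :: u0)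
        (v := v.map cell ++ .wall :: v0) (TStep.deq c)
      exact tz_trans h2 hz
  | @wrap u w u' v' k _ ih =>
    obtain ⟨t, ht, hz⟩ := ih
    refine ⟨1 + u.length + 1 + t, ?_, ?_⟩
    · simp only [List.length_nil, List.length_reverse, zero_add, add_zero] at ht ⊢
      rw [add_mul, one_mul]
      omega
    · obtain ⟨x, rest, hx⟩ : ∃ x rest, u.map cell ++ .wall :: u0 = x :: rest := by
        cases hl : u.map cell ++ .wall :: u0 with
        | nil => simp at hl
        | cons x' rest' => exact ⟨x', rest', rfl⟩
      have h1 := tmain_back u0 u (.wall :: v0) x rest hx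
      have h2 : TZ S .main (x :: rest) (.wall :: v0) (none : Option (Op S)).toList 1 .back
          rest (x :: .wall :: v0) := tz_left TStep.wrap
      have h3 : TZ S .back u0 (.wall :: (u.reverse.map cell ++ .wall :: v0))
          (none : Option (Op S)).toList 1 .main (.wall :: u0)
          (u.reverse.map cell ++ .wall :: v0) := tz_right TStep.turn
      rw [hx]
      exact tz_trans (tz_trans (tz_trans h2 h1) h3) hz

end Pool.Agent.QT
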