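import Pool.Agent.QT.ZIP

/-! Project QT, soundness of `fifoTM`: every accepted word is a legal sequence of operations. -/

namespace Pool.Agent.QT

theorem TSND_nb_nil {S : Type} : nb ([] : List (Cell S)) = [] := rfl

theorem TSND_nb_append {S : Type} (l l' : List (Cell S)) : nb (l ++ l') = nb l ++ nb l' := by
  simp [nb]

theorem TSND_nb_blank {S : Type} (l : List (Cell S)) : nb (.blank :: l) = nb l := by
  simp [nb, nbl]

theorem TSND_nb_wall {S : Type} (l : List (Cell S)) : nb (.wall :: l) = .wall :: nb l := by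
  simp [nb, nbl]

theorem TSND_nb_cut {S : Type} (l : List (Cell S)) : nb (.cut :: l) = .cut :: nb l := by
  simp [nb, nbl]

theorem TSND_nb_sym {S : Type} (c : S) (l : List (Cell S)) :
    nb (.sym c :: l) = .sym c :: nb l := by
  simp [nb, nbl]

theorem TSND_nb_ne {S : Type} {g : Cell S} (hg : g ≠ .blank) (l : List (Cell S)) :
    nb (g :: l) = g :: nb l := by
  cases g <;> simp_all [nb, nbl]

theorem TSND_nb_cons {S : Type} (g : Cell S) (l : List (Cell S)) :
    nb (g :: l) = nb [g] ++ nb l := TSND_nb_append [g] l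

theorem TSND_nb_rev {S : Type} (g : Cell S) (l : List (Cell S)) :
    nb (g :: l).reverse = nb l.reverse ++ nb [g] := by
  rw [List.reverse_cons, TSND_nb_append]

/-- The invariant of the computation: state, left part, right part, content of the queue. -/
def TSNDInv {S : Type} : Ph S → List (Cell S) → List (Cell S) → List S → Prop
  | .st0, u, v, C => nb u.reverse = [] ∧ nb v = [] ∧ C = []
  | .st1, u, v, C => nb u.reverse = [.wall] ∧ nb v = [] ∧ C = []
  | .st2, u, v, C => nb u.reverse = [.wall, .cut] ∧ nb v = [] ∧ C = []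
  | .main, u, v, C => ∃ X Y : List S, nb u.reverse = .wall :: Y.map .sym ∧
      nb v = X.map .sym ++ [.wall] ∧ C = X ++ Y
  | .back, u, v, C => nb u.reverse ++ nb v = .wall :: (C.map .sym ++ [.wall]) ∧ nb v.tail ≠ []
  | .lay, u, v, C => ∃ X Y : List S, nb u.reverse ++ nb v =
      (.wall :: Y.map .sym) ++ .cut :: (X.map .sym ++ [.wall]) ∧ C = X ++ Y
  | .car x, u, v, C => v.headD .blank ≠ .blank ∨ (x ≠ .blank ∧ ∃ X Y : List S,
      nb u.reverse ++ x :: nb v =
      (.wall :: Y.map .sym) ++ .cut :: (X.map .sym ++ [.wall]) ∧ C = X ++ Y)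

theorem TSND_pad {S : Type} {q : Ph S} {u v : List (Cell S)} {C : List S} {x g : Cell S}
    {u1 v1 : List (Cell S)}
    (hu : u = x :: u1 ∨ (u = [] ∧ x = .blank ∧ u1 = []))
    (hv : v = g :: v1 ∨ (v = [] ∧ g = .blank ∧ v1 = []))
    (h : TSNDInv q u v C) : TSNDInv q (x :: u1) (g :: v1) C := by
  have hu' : nb (x :: u1).reverse = nb u.reverse := by
    rcases hu with rfl | ⟨rfl, rfl, rfl⟩
    · rfl
    · simp [nb, nbl]
  have hv' : nb (g :: v1) = nb v := by
    rcases hv with rfl | ⟨rfl, rfl, rfl⟩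
    · rfl
    · simp [nb, nbl]
  have ht : nb (g :: v1).tail = nb v.tail := by
    rcases hv with rfl | ⟨rfl, rfl, rfl⟩
    · rfl
    · rfl
  have hh : (g :: v1).headD .blank = v.headD .blank := by
    rcases hv with rfl | ⟨rfl, rfl, rfl⟩
    · rfl
    · rfl
  cases q <;> simp only [TSNDInv] at h ⊢ <;> rw [hu'] <;> (try rw [hv']) <;>
    (try rw [ht]) <;> (try rw [hh]) <;> exact h

/-- The conclusion for one move. -/
def TSNDRes {S : Type} (a : Option (Op S)) (q : Ph S) (C : List S) (u v : List (Cell S)) : Prop :=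
  (a = none ∧ TSNDInv q u v C) ∨ ∃ o C', a = some o ∧ QRun C [o] C' ∧ TSNDInv q u v C'

theorem TSND_core {S : Type} {q q' : Ph S} {g g' x : Cell S} {a : Option (Op S)} {d : ℤ}
    {u v : List (Cell S)} {C : List S} (h : TStep q g a q' g' d)
    (hI : TSNDInv q (x :: u) (g :: v) C) :
    (d = 0 → TSNDRes a q' C (x :: u) (g' :: v)) ∧
    (d = 1 → TSNDRes a q' C (g' :: x :: u) v) ∧
    (d = -1 → TSNDRes a q' C u (x :: g' :: v)) := by
  cases h with
  | st0 =>
    refine ⟨fun h => absurd h (by norm_num), fun _ => .inl ⟨rfl, ?_⟩,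
      fun h => absurd h (by norm_num)⟩
    obtain ⟨h1, h2, h3⟩ := hI
    refine ⟨?_, ?_, h3⟩
    · rw [TSND_nb_rev, h1]; rfl
    · rwa [TSND_nb_blank] at h2
  | st1 =>
    refine ⟨fun h => absurd h (by norm_num), fun _ => .inl ⟨rfl, ?_⟩,
      fun h => absurd h (by norm_num)⟩
    obtain ⟨h1, h2, h3⟩ := hI
    refine ⟨?_, ?_, h3⟩
    · rw [TSND_nb_rev, h1]; rfl
    · rwa [TSND_nb_blank] at h2
  | st2 =>
    refine ⟨fun h => absurd h (by norm_num), fun h => absurd h (by norm_num),
      fun _ => .inl ⟨rfl, ?_⟩⟩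
    obtain ⟨h1, h2, h3⟩ := hI
    refine ⟨[], [], ?_, h3⟩
    rw [TSND_nb_blank] at h2
    rw [TSND_nb_rev] at h1
    rw [TSND_nb_cons x, ← List.append_assoc, h1, TSND_nb_wall, h2]
    rfl
  | skip =>
    refine ⟨fun h => absurd h (by norm_num), fun _ => .inl ⟨rfl, ?_⟩,
      fun h => absurd h (by norm_num)⟩
    obtain ⟨X, Y, h1, h2, h3⟩ := hI
    refine ⟨X, Y, ?_, ?_, h3⟩
    · rw [TSND_nb_rev, h1]; simp [nb, nbl]
    · rwa [TSND_nb_blank] at h2
  | enq c =>
    refine ⟨fun h => absurd h (by norm_num), fun _ => .inr ⟨_, C ++ [c], rfl,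
      QRun.enq (QRun.nil _), ?_⟩, fun h => absurd h (by norm_num)⟩
    obtain ⟨X, Y, h1, h2, h3⟩ := hI
    refine ⟨X, Y ++ [c], ?_, ?_, ?_⟩
    · rw [TSND_nb_rev, h1]; simp [nb, nbl]
    · rwa [TSND_nb_blank] at h2
    · rw [h3, List.append_assoc]
  | deq c =>
    refine ⟨fun h => absurd h (by norm_num), fun _ => ?_, fun h => absurd h (by norm_num)⟩
    obtain ⟨X, Y, h1, h2, h3⟩ := hI
    rw [TSND_nb_sym] at h2
    cases X with
    | nil => simp at h2
    | cons c' X =>
      simp only [List.map_cons, List.cons_append, List.cons.injEq, Cell.sym.injEq] at h2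
      obtain ⟨rfl, h2⟩ := h2
      refine .inr ⟨_, X ++ Y, rfl, ?_, X, Y, ?_, h2, rfl⟩
      · rw [h3]
        exact QRun.deq (QRun.nil _)
      · rw [TSND_nb_rev, h1]; simp [nb, nbl]
  | wrap =>
    refine ⟨fun h => absurd h (by norm_num), fun h => absurd h (by norm_num),
      fun _ => .inl ⟨rfl, ?_⟩⟩
    obtain ⟨X, Y, h1, h2, h3⟩ := hI
    rw [TSND_nb_wall] at h2
    cases X with
    | cons c' X => simp at h2
    | nil =>
      simp only [List.map_nil, List.nil_append, List.cons.injEq, true_and] at h2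
      simp only [List.nil_append] at h3
      refine ⟨?_, ?_⟩
      · rw [TSND_nb_rev] at h1
        rw [TSND_nb_cons x, ← List.append_assoc, h1, TSND_nb_wall, h2, h3]
        rfl
      · simp [nb, nbl]
  | cut =>
    refine ⟨fun _ => .inl ⟨rfl, ?_⟩, fun h => absurd h (by norm_num),
      fun h => absurd h (by norm_num)⟩
    obtain ⟨X, Y, h1, h2, h3⟩ := hI
    rw [TSND_nb_blank] at h2
    refine ⟨X, Y, ?_, h3⟩
    rw [h1, TSND_nb_cut, h2]
  | back hg =>
    refine ⟨fun h => absurd h (by norm_num), fun h => absurd h (by norm_num),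
      fun _ => .inl ⟨rfl, ?_⟩⟩
    obtain ⟨h1, h2⟩ := hI
    refine ⟨?_, ?_⟩
    · rw [TSND_nb_rev, List.append_assoc] at h1
      rw [TSND_nb_cons x]
      exact h1
    · simp only [List.tail_cons] at h2 ⊢
      rw [TSND_nb_cons]
      intro h
      exact h2 (List.append_eq_nil_iff.1 h).2
  | turn =>
    refine ⟨fun h => absurd h (by norm_num), fun _ => .inl ⟨rfl, ?_⟩,
      fun h => absurd h (by norm_num)⟩
    obtain ⟨h1, h2⟩ := hI
    simp only [List.tail_cons] at h2
    rw [TSND_nb_wall] at h1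
    refine ⟨C, [], ?_, ?_, by simp⟩
    · rw [TSND_nb_rev]
      cases hP : nb (x :: u).reverse with
      | nil => rfl
      | cons p P =>
        exfalso
        rw [hP] at h1
        simp only [List.cons_append, List.cons.injEq] at h1
        obtain ⟨R, r, hR⟩ : ∃ R r, nb v = R ++ [r] := by
          rcases List.eq_nil_or_concat (nb v) with h | ⟨R, r, h⟩
          · exact absurd h h2
          · exact ⟨R, r, by simpa using h⟩
        have h3 := h1.2
        rw [hR, ← List.cons_append, ← List.append_assoc] at h3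
        have h4 := (List.append_inj' h3 rfl).1
        have h5 : Cell.wall ∈ C.map (Cell.sym (S := S)) := by
          rw [← h4]; simp
        simp at h5
    · cases hP : nb (x :: u).reverse with
      | nil =>
        rw [hP] at h1
        simpa using h1
      | cons p P =>
        exfalso
        rw [hP] at h1
        simp only [List.cons_append, List.cons.injEq] at h1
        obtain ⟨R, r, hR⟩ : ∃ R r, nb v = R ++ [r] := by
          rcases List.eq_nil_or_concat (nb v) with h | ⟨R, r, h⟩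
          · exact absurd h h2
          · exact ⟨R, r, by simpa using h⟩
        have h3 := h1.2
        rw [hR, ← List.cons_append, ← List.append_assoc] at h3
        have h4 := (List.append_inj' h3 rfl).1
        have h5 : Cell.wall ∈ C.map (Cell.sym (S := S)) := by
          rw [← h4]; simp
        simp at h5
  | right g =>
    refine ⟨fun h => absurd h (by norm_num), fun _ => .inl ⟨rfl, ?_⟩,
      fun h => absurd h (by norm_num)⟩
    obtain ⟨X, Y, h1, h2⟩ := hI
    refine ⟨X, Y, ?_, h2⟩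
    rw [← h1, TSND_nb_rev, TSND_nb_cons g v, List.append_assoc]
  | left g =>
    refine ⟨fun h => absurd h (by norm_num), fun h => absurd h (by norm_num),
      fun _ => .inl ⟨rfl, ?_⟩⟩
    obtain ⟨X, Y, h1, h2⟩ := hI
    refine ⟨X, Y, ?_, h2⟩
    rw [← h1, TSND_nb_rev, TSND_nb_cons x, List.append_assoc]
  | pick hg =>
    refine ⟨fun _ => .inl ⟨rfl, ?_⟩, fun h => absurd h (by norm_num),
      fun h => absurd h (by norm_num)⟩
    obtain ⟨X, Y, h1, h2⟩ := hI
    refine .inr ⟨hg, X, Y, ?_, h2⟩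
    rw [← h1, TSND_nb_blank, TSND_nb_ne hg]
  | uncut =>
    refine ⟨fun _ => .inl ⟨rfl, ?_⟩, fun h => absurd h (by norm_num),
      fun h => absurd h (by norm_num)⟩
    obtain ⟨X, Y, h1, h2⟩ := hI
    rw [TSND_nb_cut] at h1
    have h3 := (List.append_cons_inj_of_notMem (a₁ := Cell.cut (S := S)) (a₂ := .cut)
      (x₁ := .wall :: Y.map Cell.sym) (z₁ := X.map Cell.sym ++ [.wall]) (by simp)
      (by simp)).1 h1.symm
    refine ⟨X, Y, h3.1.symm, ?_, h2⟩
    rw [TSND_nb_blank, h3.2.2]
  | cright y =>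
    refine ⟨fun h => absurd h (by norm_num), fun _ => .inl ⟨rfl, ?_⟩,
      fun h => absurd h (by norm_num)⟩
    rcases hI with hI | ⟨hy, X, Y, h1, h2⟩
    · exact absurd rfl hI
    · refine .inr ⟨hy, X, Y, ?_, h2⟩
      rw [← h1, TSND_nb_rev, TSND_nb_blank]
      simp [nb, nbl]
  | cleft y =>
    refine ⟨fun h => absurd h (by norm_num), fun h => absurd h (by norm_num),
      fun _ => .inl ⟨rfl, ?_⟩⟩
    rcases hI with hI | ⟨hy, X, Y, h1, h2⟩
    · exact absurd rfl hI
    · by_cases hx : x = .blank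
      · refine .inr ⟨hy, X, Y, ?_, h2⟩
        subst hx
        rw [← h1, TSND_nb_rev, TSND_nb_blank]
        simp [nb, nbl]
      · exact .inl hx
  | put y =>
    refine ⟨fun _ => .inl ⟨rfl, ?_⟩, fun h => absurd h (by norm_num),
      fun h => absurd h (by norm_num)⟩
    rcases hI with hI | ⟨hy, X, Y, h1, h2⟩
    · exact absurd rfl hI
    · refine ⟨X, Y, ?_, h2⟩
      rw [← h1, TSND_nb_blank, TSND_nb_ne hy]

theorem TSND_step {S : Type} [Finite S] {c c' : (fifoTM S).Cfg} {a : Option (Op S)}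
    {u v : List (Cell S)} {C : List S} (h : (fifoTM S).Step c a c')
    (hc : c.tape = mk Cell.blank c.pos u v) (hI : TSNDInv c.q u v C) :
    ∃ u' v' : List (Cell S), c'.tape = mk Cell.blank c'.pos u' v' ∧ TSNDRes a c'.q C u' v' := by
  obtain ⟨x, u1, g, v1, g', hu, hv, h3⟩ := step_zip (N := fifoTM S) h hc
  have hI' := TSND_pad hu hv hI
  rcases h3 with ⟨hs, ht⟩ | ⟨hs, ht⟩ | ⟨hs, ht⟩
  · exact ⟨_, _, ht, (TSND_core hs hI').1 rfl⟩
  · exact ⟨_, _, ht, (TSND_core hs hI').2.1 rfl⟩
  · exact ⟨_, _, ht, (TSND_core hs hI').2.2 rfl⟩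

theorem TSND_run_nil {S : Type} {C C' : List S} (h : QRun C [] C') : C = C' := by
  generalize hw : ([] : List (Op S)) = w at h
  cases h with
  | nil => rfl
  | enq h => simp at hw
  | deq h => simp at hw

theorem TSND_run {S : Type} {C C' C'' : List S} {o : Op S} {w : List (Op S)}
    (h : QRun C [o] C') (h' : QRun C' w C'') : QRun C (o :: w) C'' := by
  cases h with
  | enq h =>
    have := TSND_run_nil h
    subst this
    exact QRun.enq h'
  | deq h =>
    have := TSND_run_nil h
    subst this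
    exact QRun.deq h'

theorem TSND_reach {S : Type} [Finite S] {c c' : (fifoTM S).Cfg} {w : List (Op S)} {n : ℕ}
    (h : (fifoTM S).Reach c w n c') : ∀ {u v : List (Cell S)} {C : List S},
    c.tape = mk Cell.blank c.pos u v → TSNDInv c.q u v C → ∃ C', QRun C w C' := by
  induction h with
  | refl c => exact fun _ _ => ⟨_, QRun.nil _⟩
  | step hs _ ih =>
    intro u v C hc hI
    obtain ⟨u', v', ht, hr⟩ := TSND_step hs hc hI
    rcases hr with ⟨rfl, hI'⟩ | ⟨o, C1, rfl, hq, hI'⟩
    · exact ih ht hI'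
    · obtain ⟨C2, h2⟩ := ih ht hI'
      exact ⟨C2, TSND_run hq h2⟩

theorem fifoTM_sound (S : Type) [Finite S] {w : List (Op S)} {n : ℕ}
    (h : (fifoTM S).AcceptsIn w n) : ∃ C, QRun [] w C := by
  obtain ⟨c, hr, -⟩ := h
  refine TSND_reach hr (u := []) (v := []) (C := []) ?_ ?_
  · exact (mk_nil _ _).symm
  · exact ⟨rfl, rfl, rfl⟩

end Pool.Agent.QT
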