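import Pool.Agent.QT.RED
import Pool.Agent.QT.PROD
import Pool.Agent.QT.TSND
import Pool.Agent.QT.TMAIN
import Pool.Agent.QT.TLAY
import Pool.Agent.QT.EPX
import Pool.Agent.QT.GRW

/-! Project QT: assembly of the upper bound. -/

namespace Pool.Agent.QT

theorem upa_ops_length {A S : Type} (G : FifoAut A S) {q : G.Q} {w : List A} {ops : List (Op S)}
    {n : ℕ} {q' : G.Q} (h : G.Run q w ops n q') : ops.length ≤ n := by
  induction h with
  | refl => simp
  | @step _ _ o _ _ _ _ _ _ _ ih =>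
    rw [List.length_append]
    have : o.toList.length ≤ 1 := by cases o <;> simp
    omega

variable {S : Type} [Finite S]

/-- the layout state: region `u`, `cut`, `v` between two walls -/
theorem upa_all (K : ℕ) (hK : 1 ≤ K) : ∀ (m : ℕ) (w : List (Op S)) (u v : List (Option S))
    (u0 : List (Cell S)) (C' : List S), w.length ≤ m → w.length ≤ K * K →
    (cont v ++ cont u.reverse).length ≤ K → QRun (cont v ++ cont u.reverse) w C' →
    ∃ t q u' v', t ≤ K * (202 * w.length + 11 * (u.length + v.length) + 151 * K) ∧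
      TZ S .lay (u.map cell ++ .wall :: u0) (.cut :: (v.map cell ++ [.wall])) w t q u' v' := by
  intro m
  induction m with
  | zero =>
    intro w u v u0 C' hw _ _ _
    have : w = [] := List.length_eq_zero_iff.1 (by omega)
    subst this
    exact ⟨0, _, _, _, Nat.zero_le _, tz_refl⟩
  | succ m ih =>
    intro w u v u0 C' hw hwK hc hQ
    obtain ⟨w1, w2, X1, Y1, k, hw12, hG, hQ2, hor, hk⟩ := epoch hK hQ
    obtain ⟨u1, v1, u', v', h1, h2, h3, h4, h5, h6⟩ := ep_exists hG
    obtain ⟨t1, u0', ht1, hT1⟩ := layout (u := u) (v := v) (u1 := u1) (v1 := v1) h1.symm h2.symm u0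
    obtain ⟨t2, ht2, hT2⟩ := main_run h4 u0' ([] : List (Cell S))
    have hlen := ep_length h4
    have hwl : w.length = w1.length + w2.length := by rw [hw12, List.length_append]
    -- uncut
    have hU : TZ S .lay (u1.map cell ++ .wall :: u0') (.cut :: (v1.map cell ++ [.wall])) [] 1
        .main (u1.map cell ++ .wall :: u0') (.blank :: (v1.map cell ++ [.wall])) :=
      tz_stay TStep.uncut
    have hCut : TZ S .main (u'.map cell ++ .wall :: u0') (.blank :: (v'.map cell ++ [.wall])) [] 1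
        .lay (u'.map cell ++ .wall :: u0') (.cut :: (v'.map cell ++ [.wall])) :=
      tz_stay TStep.cut
    have hT2' : TZ S .main (u1.map cell ++ .wall :: u0') (.blank :: (v1.map cell ++ [.wall])) w1 t2
        .main (u'.map cell ++ .wall :: u0') (.blank :: (v'.map cell ++ [.wall])) := by
      simpa [cell] using hT2
    have hall := tz_trans (tz_trans (tz_trans hT1 hU) hT2') hCut
    simp only [List.nil_append, List.append_nil] at hall
    have hklt : k ≤ 2 * K + 1 := by
      have h7 : K * k ≤ K * (2 * K + 1) := by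
        calc K * k ≤ K * K + w1.length + K := hk
          _ ≤ K * K + K * K + K := by omega
          _ = K * (2 * K + 1) := by ring
      exact Nat.le_of_mul_le_mul_left h7 (by omega)
    have hcl : (cont u.reverse).length + (cont v).length ≤ K := by
      rw [List.length_append] at hc
      omega
    simp only [List.length_cons] at hlen ht2
    set s := u.length + v.length with hs
    set s1 := u1.length + v1.length with hs1
    have hs1le : s1 ≤ K + w1.length + 1 := by omega
    have hs' : u'.length + v'.length = s1 := by omega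
    -- the cost of the layout
    have hL : t1 ≤ K * (11 * s + 11 * s1 + 86) := by
      have e1 : u.length + v.length + u1.length + v1.length = s + s1 := by omega
      rw [e1] at ht1
      have e2 : ((cont u.reverse).length + (cont v).length + 3) ≤ 4 * K := by omega
      calc t1 ≤ _ := ht1
        _ ≤ 4 * K * (2 * (s + s1) + 17) + 3 * (s + s1) + 18 := by gcongr
        _ ≤ 4 * K * (2 * (s + s1) + 17) + K * (3 * (s + s1)) + K * 18 := by
            have := Nat.mul_le_mul_right (3 * (s + s1)) hK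
            have := Nat.mul_le_mul_right 18 hK
            omega
        _ = K * (11 * s + 11 * s1 + 86) := by ring
    have hM : t2 ≤ K * (7 * s1 + 14) := by
      have h8 : t2 ≤ s1 + 1 + k * (2 * (s1 + 1) + 2) := by
        have : u1.length + (v1.length + 1) = s1 + 1 := by omega
        rw [this] at ht2
        omega
      calc t2 ≤ s1 + 1 + k * (2 * (s1 + 1) + 2) := h8
        _ ≤ s1 + 1 + (2 * K + 1) * (2 * (s1 + 1) + 2) := by gcongr
        _ = (s1 + 1) + 2 * K * (2 * (s1 + 1) + 2) + (2 * (s1 + 1) + 2) := by ring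
        _ ≤ K * (s1 + 1) + 2 * K * (2 * (s1 + 1) + 2) + K * (2 * (s1 + 1) + 2) := by
            have := Nat.mul_le_mul_right (s1 + 1) hK
            have := Nat.mul_le_mul_right (2 * (s1 + 1) + 2) hK
            omega
        _ = K * (7 * s1 + 13) := by ring
        _ ≤ K * (7 * s1 + 14) := by gcongr; omega
    have hcost : t1 + 1 + t2 + 1 ≤ K * (11 * s + 18 * s1 + 102) := by
      have : K * (11 * s + 18 * s1 + 102) = K * (11 * s + 11 * s1 + 86) + K * (7 * s1 + 14) + K * 2 := by
        ring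
      omega
    rcases hor with hor | ⟨hKw, hX1⟩
    · subst hor
      refine ⟨t1 + 1 + t2 + 1, _, _, _, ?_, by simpa [hw12] using hall⟩
      refine hcost.trans (Nat.mul_le_mul_left K ?_)
      simp only [List.length_nil, add_zero] at hwl
      omega
    · obtain ⟨t3, q, u'', v'', ht3, hT3⟩ := ih w2 u' v' u0' C' (by omega) (by omega)
        (by rw [h5, h6]; exact hX1) (by rw [h5, h6]; exact hQ2)
      have hfin := tz_trans hall hT3
      refine ⟨t1 + 1 + t2 + 1 + t3, _, _, _, ?_, by rw [hw12]; exact hfin⟩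
      have h9 : K * (11 * s + 18 * s1 + 102) +
          K * (202 * w2.length + 11 * (u'.length + v'.length) + 151 * K) ≤
          K * (202 * w.length + 11 * s + 151 * K) := by
        rw [← Nat.mul_add]
        refine Nat.mul_le_mul_left K ?_
        rw [hs']
        omega
      omega

/-- The legal sequences of operations are accepted in time `O(n^(3/2))`. -/
theorem fifoTM_time (S : Type) [Finite S] (w : List (Op S)) (C : List S) (h : QRun [] w C) :
    ∃ t, (fifoTM S).AcceptsIn w t ∧ (t : ℝ) ≤ 1100 * ((w.length : ℝ) + 1) ^ (3 / 2 : ℝ) := by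
  set m := w.length with hm
  set K := Nat.sqrt m + 1 with hKdef
  have hK1 : 1 ≤ K := by omega
  have hmK : m ≤ K * K := (Nat.lt_succ_sqrt m).le
  obtain ⟨t, q, u', v', ht, hT⟩ := upa_all (S := S) K hK1 m w [] [] [] C le_rfl hmK
    (by simp [cont]) (by simpa [cont] using h)
  have h0 : TZ S .st0 [] [] [] 3 .lay [.wall] [.cut, .wall] := by
    have s0 : TZ S .st0 [] [.blank] [] 1 .st1 [.wall] [] := tz_right TStep.st0
    have s1 : TZ S .st1 [.wall] [.blank] [] 1 .st2 [.cut, .wall] [] := tz_right TStep.st1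
    have s2 : TZ S .st2 [.cut, .wall] [.blank] [] 1 .lay [.wall] [.cut, .wall] :=
      tz_left TStep.st2
    have s0' : TZ S .st0 [] [] [] 1 .st1 [.wall] [] := tz_pad 0 1 0 0 (by simpa using s0)
    have s1' : TZ S .st1 [.wall] [] [] 1 .st2 [.cut, .wall] [] := tz_pad 0 1 0 0 (by simpa using s1)
    have s2' : TZ S .st2 [.cut, .wall] [] [] 1 .lay [.wall] [.cut, .wall] :=
      tz_pad 0 1 0 0 (by simpa using s2)
    simpa using tz_trans (tz_trans s0' s1') s2'
  have h1 := tz_trans h0 (by simpa using hT)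
  refine ⟨3 + t, zr_accepts (N := fifoTM S) h1 (Set.mem_univ _), ?_⟩
  simp only [List.length_nil, add_zero, mul_zero] at ht
  have hKr : (K : ℝ) ≤ 2 * Real.sqrt (m + 1) := by
    have h2 : ((Nat.sqrt m : ℕ) : ℝ) ≤ Real.sqrt m := Real.nat_sqrt_le_real_sqrt
    have h3 : Real.sqrt m ≤ Real.sqrt (m + 1) := Real.sqrt_le_sqrt (by linarith)
    have h4 : (1 : ℝ) ≤ Real.sqrt (m + 1) := by
      rw [Real.one_le_sqrt]
      have : (0 : ℝ) ≤ m := Nat.cast_nonneg _
      linarith
    rw [hKdef]
    push_cast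
    linarith
  have htr : (t : ℝ) ≤ K * (202 * m + 151 * K) := by exact_mod_cast ht
  set r := Real.sqrt (m + 1) with hr
  have hm0 : (0 : ℝ) ≤ m := Nat.cast_nonneg _
  have hr1 : (1 : ℝ) ≤ r := by
    rw [hr, Real.one_le_sqrt]
    linarith
  have hr2 : r * r = m + 1 := Real.mul_self_sqrt (by linarith)
  have hpow : ((m : ℝ) + 1) ^ (3 / 2 : ℝ) = r ^ 3 := by
    rw [hr, Real.sqrt_eq_rpow, ← Real.rpow_natCast, ← Real.rpow_mul (by linarith)]
    norm_num
  rw [hpow]
  push_cast
  have hK0 : (0 : ℝ) ≤ K := Nat.cast_nonneg _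
  have hb : (K : ℝ) * (202 * m + 151 * K) ≤ 2 * r * (202 * (r * r) + 151 * (2 * r)) := by
    gcongr
    linarith
  have hr3 : r * r ≤ r ^ 3 := by nlinarith
  have hr4 : 1 ≤ r ^ 3 := one_le_pow₀ hr1
  nlinarith

/-- **Upper bound.** -/
theorem upper_bound {A : Type} (M : QueueMachine A) (k : ℕ) (hM : M.LinearTime k) :
    ∃ (N : TapeMachine A) (C : ℝ), (∀ w, N.Accepts w ↔ M.Accepts w) ∧
      ∀ w, M.Accepts w → ∃ t, N.AcceptsIn w t ∧ (t : ℝ) ≤ C * ((w.length : ℝ) + 1) ^ (3 / 2 : ℝ) := by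
  have := M.finG
  have hcomp : ∀ w n, M.AcceptsIn w n → ∃ t, (prodTM (redAut M) (fifoTM (Option M.G))).AcceptsIn w t ∧
      (t : ℝ) ≤ (5 * n + 1 : ℕ) + 1100 * (((5 * n + 1 : ℕ) : ℝ) + 1) ^ (3 / 2 : ℝ) := by
    intro w n h
    obtain ⟨ops, n', q, C, hn', hrun, hQ, hq⟩ := red_complete M h
    obtain ⟨t, ht, htb⟩ := fifoTM_time (Option M.G) ops C hQ
    obtain ⟨t', ht', hacc⟩ := prod_complete (redAut M) (fifoTM (Option M.G)) hrun hq ht
    have hops : ops.length ≤ n' := upa_ops_length _ hrun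
    refine ⟨t', hacc, ?_⟩
    have h1 : (t' : ℝ) ≤ n' + t := by exact_mod_cast ht'
    have h2 : (n' : ℝ) ≤ (5 * n + 1 : ℕ) := by exact_mod_cast hn'
    have h3 : (ops.length : ℝ) ≤ (5 * n + 1 : ℕ) := by exact_mod_cast hops.trans hn'
    refine h1.trans (add_le_add h2 (htb.trans ?_))
    gcongr
  refine ⟨prodTM (redAut M) (fifoTM (Option M.G)), (5 * k + 1) + 1100 * (5 * k + 2) ^ (3 / 2 : ℝ), ?_, ?_⟩
  · intro w
    constructor
    · rintro ⟨t, ht⟩
      obtain ⟨ops, n, q, n', h1, h2, h3⟩ := prod_sound _ _ ht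
      obtain ⟨C, hC⟩ := fifoTM_sound _ h3
      exact red_sound M h1 hC h2
    · rintro ⟨n, hn⟩
      obtain ⟨t, ht, _⟩ := hcomp w n hn
      exact ⟨t, ht⟩
  · intro w hw
    obtain ⟨n, hn, hacc⟩ := hM w hw
    obtain ⟨t, ht, htb⟩ := hcomp w n hacc
    refine ⟨t, ht, htb.trans ?_⟩
    have hL : (1 : ℝ) ≤ (w.length : ℝ) + 1 := by
      have : (0 : ℝ) ≤ w.length := Nat.cast_nonneg _
      linarith
    have hn' : (n : ℝ) ≤ k * ((w.length : ℝ) + 1) := by exact_mod_cast hn
    have h5 : ((5 * n + 1 : ℕ) : ℝ) ≤ (5 * k + 1) * ((w.length : ℝ) + 1) := by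
      push_cast
      nlinarith
    have h6 : ((w.length : ℝ) + 1) ≤ ((w.length : ℝ) + 1) ^ (3 / 2 : ℝ) := by
      conv_lhs => rw [← Real.rpow_one ((w.length : ℝ) + 1)]
      exact Real.rpow_le_rpow_of_exponent_le hL (by norm_num)
    have h7 : (((5 * n + 1 : ℕ) : ℝ) + 1) ^ (3 / 2 : ℝ) ≤
        (5 * k + 2) ^ (3 / 2 : ℝ) * ((w.length : ℝ) + 1) ^ (3 / 2 : ℝ) := by
      rw [← Real.mul_rpow (by positivity) (by positivity)]
      apply Real.rpow_le_rpow (by positivity) _ (by norm_num)
      linarith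
    have hk0 : (0 : ℝ) ≤ 5 * k + 1 := by positivity
    calc ((5 * n + 1 : ℕ) : ℝ) + 1100 * (((5 * n + 1 : ℕ) : ℝ) + 1) ^ (3 / 2 : ℝ)
        ≤ (5 * k + 1) * ((w.length : ℝ) + 1) ^ (3 / 2 : ℝ) +
          1100 * ((5 * k + 2) ^ (3 / 2 : ℝ) * ((w.length : ℝ) + 1) ^ (3 / 2 : ℝ)) := by
          refine add_le_add (h5.trans (mul_le_mul_of_nonneg_left h6 hk0)) ?_
          exact mul_le_mul_of_nonneg_left h7 (by norm_num)
      _ = _ := by ring

end Pool.Agent.QT
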