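import Pool.Agent.QT.Defs

/-! Project QT, upper bound: definitions.

* `Op`, `QRun`: operations on a queue and legal sequences of operations.
* `FifoAut`: finite automata whose transitions may perform a queue operation.
* `redAut M`: the automaton simulating the queue machine `M` (the front symbol is cached in the
  control; an endmarker `none` circulates in the queue, to test emptiness).
* `prodTM G N`: the tape machine which simulates the automaton `G`, with the tape machine `N`
  checking that the sequence of operations is legal.
* `fifoTM S`: a tape machine which accepts exactly the legal sequences of operations.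
* `mk`, `ZReach`: tapes given by two lists, and computations between such tapes.
* `Ep`, `Gr`: the motion on a region of cells, and its abstract version. -/

namespace Pool.Agent.QT

/-- Operations on a queue over the alphabet `S`. -/
inductive Op (S : Type) : Type
  | enq (c : S) : Op S
  | deq (c : S) : Op S

/-- `QRun C w C'`: the operations `w` are legal on the content `C` and lead to `C'`. -/
inductive QRun {S : Type} : List S → List (Op S) → List S → Prop
  | nil (C : List S) : QRun C [] C
  | enq {C : List S} {c : S} {w : List (Op S)} {C' : List S} :
      QRun (C ++ [c]) w C' → QRun C (Op.enq c :: w) C'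
  | deq {C : List S} {c : S} {w : List (Op S)} {C' : List S} :
      QRun C w C' → QRun (c :: C) (Op.deq c :: w) C'

/-! ### Automata with queue operations -/

/-- A finite automaton over `A` whose transitions may perform an operation on a queue over `S`. -/
structure FifoAut (A S : Type) where
  Q : Type
  finQ : Finite Q
  start : Q
  acc : Set Q
  tr : Q → Option A → Option (Op S) → Q → Prop

/-- `G.Run q w ops n q'`: `n` transitions lead from `q` to `q'`, reading `w`, performing `ops`. -/
inductive FifoAut.Run {A S : Type} (G : FifoAut A S) : G.Q → List A → List (Op S) → ℕ → G.Q → Prop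
  | refl (q : G.Q) : FifoAut.Run G q [] [] 0 q
  | step {q : G.Q} {a : Option A} {o : Option (Op S)} {q' : G.Q} {w : List A} {ops : List (Op S)}
      {n : ℕ} {q'' : G.Q} : G.tr q a o q' → FifoAut.Run G q' w ops n q'' →
      FifoAut.Run G q (a.toList ++ w) (o.toList ++ ops) (n + 1) q''

/-! ### From a queue machine to an automaton -/

/-- program counter of `redAut` -/
inductive Job : Type
  | st | idle | pop1 | pop2 | pop3 | pop4

instance finite_Job : Finite Job := by
  refine Finite.of_injective (β := Fin 6)
    (fun c => match c with
      | .st => 0
      | .idle => 1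
      | .pop1 => 2
      | .pop2 => 3
      | .pop3 => 4
      | .pop4 => 5) ?_
  intro a b h
  cases a <;> cases b <;> simp_all

/-- The transitions of `redAut M`. State: (state of `M`, cached front symbol, program counter). -/
inductive RedTr {A : Type} (M : QueueMachine A) :
    M.Q × Option M.G × Job → Option A → Option (Op (Option M.G)) → M.Q × Option M.G × Job → Prop
  | start {q : M.Q} : RedTr M (q, none, .st) none (some (.enq none)) (q, none, .idle)
  | empty {q : M.Q} {a : Option A} {q' : M.Q} {del : Bool} {e : Option M.G}
      (h : M.step q a none q' del e) : RedTr M (q, none, .idle) a none (q', e, .idle)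
  | keep {q : M.Q} {a : Option A} {x : M.G} {q' : M.Q} {e : Option M.G}
      (h : M.step q a (some x) q' false e) :
      RedTr M (q, some x, .idle) a (e.map fun c => .enq (some c)) (q', some x, .idle)
  | del {q : M.Q} {a : Option A} {x : M.G} {q' : M.Q} {e : Option M.G}
      (h : M.step q a (some x) q' true e) :
      RedTr M (q, some x, .idle) a (e.map fun c => .enq (some c)) (q', none, .pop1)
  | pop1 {q : M.Q} {c : M.G} :
      RedTr M (q, none, .pop1) none (some (.deq (some c))) (q, some c, .idle)
  | pop1' {q : M.Q} : RedTr M (q, none, .pop1) none (some (.deq none)) (q, none, .pop2)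
  | pop2 {q : M.Q} : RedTr M (q, none, .pop2) none (some (.enq none)) (q, none, .pop3)
  | pop3 {q : M.Q} {c : M.G} :
      RedTr M (q, none, .pop3) none (some (.deq (some c))) (q, some c, .idle)
  | pop3' {q : M.Q} : RedTr M (q, none, .pop3) none (some (.deq none)) (q, none, .pop4)
  | pop4 {q : M.Q} : RedTr M (q, none, .pop4) none (some (.enq none)) (q, none, .idle)

/-- The automaton simulating the queue machine `M`. -/
def redAut {A : Type} (M : QueueMachine A) : FifoAut A (Option M.G) where
  Q := M.Q × Option M.G × Job
  finQ := by
    have := M.finQ
    have := M.finG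
    infer_instance
  start := (M.start, none, .st)
  acc := {x | x.1 ∈ M.acc ∧ x.2.2 = .idle}
  tr := RedTr M

/-! ### The product of an automaton and a tape machine -/

/-- The moves of `prodTM G N`. -/
inductive ProdStep {A S : Type} (G : FifoAut A S) (N : TapeMachine (Op S)) :
    G.Q × N.Q → N.G → Option A → G.Q × N.Q → N.G → ℤ → Prop
  | aut {q : G.Q} {a : Option A} {q' : G.Q} {r : N.Q} {g : N.G} (h : G.tr q a none q') :
      ProdStep G N (q, r) g a (q', r) g 0
  | both {q : G.Q} {a : Option A} {o : Op S} {q' : G.Q} {r : N.Q} {g : N.G} {r' : N.Q} {g' : N.G}
      {d : ℤ} (h : G.tr q a (some o) q') (h' : N.step r g (some o) r' g' d) :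
      ProdStep G N (q, r) g a (q', r') g' d
  | tape {q : G.Q} {r : N.Q} {g : N.G} {r' : N.Q} {g' : N.G} {d : ℤ}
      (h' : N.step r g none r' g' d) : ProdStep G N (q, r) g none (q, r') g' d

/-- The product machine. -/
def prodTM {A S : Type} (G : FifoAut A S) (N : TapeMachine (Op S)) : TapeMachine A where
  Q := G.Q × N.Q
  G := N.G
  finQ := by
    have := G.finQ
    have := N.finQ
    infer_instance
  finG := N.finG
  blank := N.blank
  start := (G.start, N.start)
  acc := {x | x.1 ∈ G.acc ∧ x.2 ∈ N.acc}
  step := ProdStep G N
  step_move := by
    intro q g a q' g' d h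
    cases h with
    | aut h => exact ⟨by norm_num, by norm_num⟩
    | both h h' => exact N.step_move h'
    | tape h' => exact N.step_move h'

/-! ### The tape machine for legal sequences of operations -/

/-- tape symbols -/
inductive Cell (S : Type) : Type
  | blank | wall | cut
  | sym (c : S)

/-- states: three start states, the main state, the state walking back to the left wall, the
layout state (empty-handed), the layout states carrying a symbol -/
inductive Ph (S : Type) : Type
  | st0 | st1 | st2 | main | back | lay
  | car (x : Cell S)

/-- the moves -/
inductive TStep {S : Type} : Ph S → Cell S → Option (Op S) → Ph S → Cell S → ℤ → Prop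
  | st0 : TStep .st0 .blank none .st1 .wall 1
  | st1 : TStep .st1 .blank none .st2 .cut 1
  | st2 : TStep .st2 .blank none .lay .wall (-1)
  | skip : TStep .main .blank none .main .blank 1
  | enq (c : S) : TStep .main .blank (some (.enq c)) .main (.sym c) 1
  | deq (c : S) : TStep .main (.sym c) (some (.deq c)) .main .blank 1
  | wrap : TStep .main .wall none .back .wall (-1)
  | cut : TStep .main .blank none .lay .cut 0
  | back {g : Cell S} (h : g ≠ .wall) : TStep .back g none .back g (-1)
  | turn : TStep .back .wall none .main .wall 1
  | right (g : Cell S) : TStep .lay g none .lay g 1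
  | left (g : Cell S) : TStep .lay g none .lay g (-1)
  | pick {g : Cell S} (h : g ≠ .blank) : TStep .lay g none (.car g) .blank 0
  | uncut : TStep .lay .cut none .main .blank 0
  | cright (x : Cell S) : TStep (.car x) .blank none (.car x) .blank 1
  | cleft (x : Cell S) : TStep (.car x) .blank none (.car x) .blank (-1)
  | put (x : Cell S) : TStep (.car x) .blank none .lay x 0

theorem finite_Cell (S : Type) [Finite S] : Finite (Cell S) := by
  refine Finite.of_injective (β := Option (Option (Option S)))
    (fun c => match c with
      | .blank => none
      | .wall => some none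
      | .cut => some (some none)
      | .sym c => some (some (some c))) ?_
  intro a b h
  cases a <;> cases b <;> simp_all

theorem finite_Ph (S : Type) [Finite S] : Finite (Ph S) := by
  have := finite_Cell S
  refine Finite.of_injective (β := Fin 6 ⊕ Cell S)
    (fun c => match c with
      | .st0 => .inl 0
      | .st1 => .inl 1
      | .st2 => .inl 2
      | .main => .inl 3
      | .back => .inl 4
      | .lay => .inl 5
      | .car x => .inr x) ?_
  intro a b h
  cases a <;> cases b <;> simp_all

/-- The tape machine for the legal sequences of operations; every state is accepting. -/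
def fifoTM (S : Type) [Finite S] : TapeMachine (Op S) where
  Q := Ph S
  G := Cell S
  finQ := finite_Ph S
  finG := finite_Cell S
  blank := .blank
  start := .st0
  acc := Set.univ
  step := TStep
  step_move := by
    intro q g a q' g' d h
    cases h <;> norm_num

/-! ### Tapes given by two lists -/

/-- The tape with the cells `v` at `p, p + 1, …`, the cells `u` at `p - 1, p - 2, …` and blanks
elsewhere. -/
def mk {G : Type} (b : G) (p : ℤ) (u v : List G) : ℤ → G := fun z =>
  if p ≤ z then v.getD (z - p).toNat b else u.getD (p - 1 - z).toNat b

/-- For every head position there is a computation from state `q` on the tape `(u, v)` to state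
`q'` on the tape `(u', v')`, reading `w`, with `n` moves. -/
def ZReach {A : Type} (N : TapeMachine A) (q : N.Q) (u v : List N.G) (w : List A) (n : ℕ)
    (q' : N.Q) (u' v' : List N.G) : Prop :=
  ∀ p : ℤ, ∃ p' : ℤ, N.Reach ⟨q, p, mk N.blank p u v⟩ w n ⟨q', p', mk N.blank p' u' v'⟩

/-- `ZReach` for the machine `fifoTM S`. -/
def TZ (S : Type) [Finite S] (q : Ph S) (u v : List (Cell S)) (w : List (Op S)) (n : ℕ)
    (q' : Ph S) (u' v' : List (Cell S)) : Prop :=
  ZReach (fifoTM S) q u v w n q' u' v'

/-- is this a nonblank symbol? -/
def nbl {S : Type} : Cell S → Bool
  | .blank => false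
  | _ => true

/-- the nonblank symbols of a list -/
def nb {S : Type} (l : List (Cell S)) : List (Cell S) := l.filter nbl

/-! ### The motion on a region of cells -/

/-- contents of a list of cells -/
def cont {S : Type} (l : List (Option S)) : List S := l.filterMap id

/-- a cell as a tape symbol -/
def cell {S : Type} : Option S → Cell S
  | none => .blank
  | some c => .sym c

/-- `Ep u v w u' v' k`: in a region between two walls, with the cells `u` (nearest first) to the left
of the head and the cells `v` under the head and to its right, the main state performs the
operations `w` with `k` returns from the right wall to the left wall, and leaves the cells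
`u'`, `v'`. -/
inductive Ep {S : Type} : List (Option S) → List (Option S) → List (Op S) →
    List (Option S) → List (Option S) → ℕ → Prop
  | done (u v : List (Option S)) : Ep u v [] u v 0
  | skip {u v : List (Option S)} {w : List (Op S)} {u' v' : List (Option S)} {k : ℕ} :
      Ep (none :: u) v w u' v' k → Ep u (none :: v) w u' v' k
  | enq {u v : List (Option S)} {c : S} {w : List (Op S)} {u' v' : List (Option S)} {k : ℕ} :
      Ep (some c :: u) v w u' v' k → Ep u (none :: v) (Op.enq c :: w) u' v' k
  | deq {u v : List (Option S)} {c : S} {w : List (Op S)} {u' v' : List (Option S)} {k : ℕ} :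
      Ep (none :: u) v w u' v' k → Ep u (some c :: v) (Op.deq c :: w) u' v' k
  | wrap {u : List (Option S)} {w : List (Op S)} {u' v' : List (Option S)} {k : ℕ} :
      Ep [] u.reverse w u' v' k → Ep u [] w u' v' (k + 1)

/-- The greedy motion: the queue is `X ++ Y`, with `X` to the right and `Y` to the left of the
head; a return takes place only if a symbol has to be removed and `X` is empty. -/
inductive Gr {S : Type} : List S → List S → List (Op S) → List S → List S → ℕ → Prop
  | done (X Y : List S) : Gr X Y [] X Y 0
  | enq {X Y : List S} {c : S} {w : List (Op S)} {X' Y' : List S} {k : ℕ} :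
      Gr X (Y ++ [c]) w X' Y' k → Gr X Y (Op.enq c :: w) X' Y' k
  | deq {X Y : List S} {c : S} {w : List (Op S)} {X' Y' : List S} {k : ℕ} :
      Gr X Y w X' Y' k → Gr (c :: X) Y (Op.deq c :: w) X' Y' k
  | wrap {Y : List S} {c : S} {w : List (Op S)} {X' Y' : List S} {k : ℕ} :
      Gr Y [] w X' Y' k → Gr [] (c :: Y) (Op.deq c :: w) X' Y' (k + 1)

end Pool.Agent.QT
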