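import Pool.Agent.QT.Up

namespace Pool.Agent.QT

theorem mk_nil {G : Type} (b : G) (p : ℤ) : mk b p [] [] = fun _ => b := by
  funext z
  simp [mk]

theorem mk_self {G : Type} (b : G) (p : ℤ) (u : List G) (g : G) (v : List G) :
    mk b p u (g :: v) p = g := by
  simp [mk]

theorem mk_move {G : Type} (b : G) (p : ℤ) (u : List G) (g : G) (v : List G) :
    mk b (p + 1) (g :: u) v = mk b p u (g :: v) := by
  funext z
  unfold mk
  rcases lt_trichotomy z p with h | h | h
  · rw [if_neg (by omega), if_neg (by omega)]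
    have h1 : (p + 1 - 1 - z).toNat = (p - 1 - z).toNat + 1 := by omega
    rw [h1, List.getD_cons_succ]
  · subst h
    rw [if_neg (by omega), if_pos le_rfl]
    have h1 : (z + 1 - 1 - z).toNat = 0 := by omega
    have h2 : (z - z).toNat = 0 := by omega
    rw [h1, h2, List.getD_cons_zero, List.getD_cons_zero]
  · rw [if_pos (by omega), if_pos (by omega)]
    have h1 : (z - p).toNat = (z - (p + 1)).toNat + 1 := by omega
    rw [h1, List.getD_cons_succ]

theorem mk_write {G : Type} (b : G) (p : ℤ) (u : List G) (g g' : G) (v : List G) (z : ℤ)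
    (hz : z ≠ p) : mk b p u (g' :: v) z = mk b p u (g :: v) z := by
  unfold mk
  by_cases h : p ≤ z
  · rw [if_pos h, if_pos h]
    have h1 : (z - p).toNat = (z - p - 1).toNat + 1 := by omega
    rw [h1, List.getD_cons_succ, List.getD_cons_succ]
  · rw [if_neg h, if_neg h]

theorem zip_getD_pad {G : Type} (b : G) (u : List G) (i n : ℕ) :
    (u ++ List.replicate i b).getD n b = u.getD n b := by
  simp only [List.getD_eq_getElem?_getD]
  by_cases h : n < u.length
  · rw [List.getElem?_append_left h]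
  · rw [List.getElem?_append_right (by omega), List.getElem?_replicate,
      List.getElem?_eq_none (by omega)]
    split_ifs <;> rfl

theorem mk_pad {G : Type} (b : G) (p : ℤ) (u v : List G) (i j : ℕ) :
    mk b p (u ++ List.replicate i b) (v ++ List.replicate j b) = mk b p u v := by
  funext z
  unfold mk
  rw [zip_getD_pad, zip_getD_pad]

section
variable {A : Type} {N : TapeMachine A} {q q' q'' : N.Q} {u v u' v' u'' v'' : List N.G}
  {w w' : List A} {n n' : ℕ} {a : Option A} {g g' x : N.G}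

theorem zr_refl : ZReach N q u v [] 0 q u v := by
  intro p
  exact ⟨p, TapeMachine.Reach.refl _⟩

theorem zip_reach_trans {c c' c'' : N.Cfg} (h : N.Reach c w n c') (h' : N.Reach c' w' n' c'') :
    N.Reach c (w ++ w') (n + n') c'' := by
  induction h with
  | refl c => simpa using h'
  | @step c a c1 w1 n1 c2 hs _ ih =>
    have := TapeMachine.Reach.step hs (ih h')
    rw [← List.append_assoc] at this
    have hn : n1 + 1 + n' = n1 + n' + 1 := by omega
    rw [hn]
    exact this

theorem zr_trans (h : ZReach N q u v w n q' u' v') (h' : ZReach N q' u' v' w' n' q'' u'' v'') :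
    ZReach N q u v (w ++ w') (n + n') q'' u'' v'' := by
  intro p
  obtain ⟨p', h1⟩ := h p
  obtain ⟨p'', h2⟩ := h' p'
  exact ⟨p'', zip_reach_trans h1 h2⟩

theorem zip_one {c c' : N.Cfg} (h : N.Step c a c') : N.Reach c a.toList 1 c' := by
  have := TapeMachine.Reach.step h (TapeMachine.Reach.refl c')
  simpa using this

theorem zr_right (h : N.step q g a q' g' 1) :
    ZReach N q u (g :: v) a.toList 1 q' (g' :: u) v := by
  intro p
  refine ⟨p + 1, zip_one ⟨1, ?_, rfl, ?_⟩⟩
  · change N.step q (mk N.blank p u (g :: v) p) a q' (mk N.blank (p + 1) (g' :: u) v p) 1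
    rw [mk_move, mk_self, mk_self]
    exact h
  · intro z hz
    change mk N.blank (p + 1) (g' :: u) v z = mk N.blank p u (g :: v) z
    rw [mk_move]
    exact mk_write _ _ _ _ _ _ _ hz

theorem zr_left (h : N.step q g a q' g' (-1)) :
    ZReach N q (x :: u) (g :: v) a.toList 1 q' u (x :: g' :: v) := by
  intro p
  have hm : mk N.blank (p + -1) u (x :: g' :: v) = mk N.blank p (x :: u) (g' :: v) := by
    rw [← mk_move]
    congr 1
    ring
  refine ⟨p + -1, zip_one ⟨-1, ?_, rfl, ?_⟩⟩
  · change N.step q (mk N.blank p (x :: u) (g :: v) p) a q' (mk N.blank (p + -1) u (x :: g' :: v) p) (-1)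
    rw [hm, mk_self, mk_self]
    exact h
  · intro z hz
    change mk N.blank (p + -1) u (x :: g' :: v) z = mk N.blank p (x :: u) (g :: v) z
    rw [hm]
    exact mk_write _ _ _ _ _ _ _ hz

theorem zr_stay (h : N.step q g a q' g' 0) :
    ZReach N q u (g :: v) a.toList 1 q' u (g' :: v) := by
  intro p
  refine ⟨p, zip_one ⟨0, ?_, (add_zero p).symm, ?_⟩⟩
  · change N.step q (mk N.blank p u (g :: v) p) a q' (mk N.blank p u (g' :: v) p) 0
    rw [mk_self, mk_self]
    exact h
  · intro z hz
    exact mk_write _ _ _ _ _ _ _ hz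

theorem zr_pad (i j i' j' : ℕ)
    (h : ZReach N q (u ++ List.replicate i N.blank) (v ++ List.replicate j N.blank) w n
      q' (u' ++ List.replicate i' N.blank) (v' ++ List.replicate j' N.blank)) :
    ZReach N q u v w n q' u' v' := by
  intro p
  obtain ⟨p', h1⟩ := h p
  rw [mk_pad, mk_pad] at h1
  exact ⟨p', h1⟩

theorem zr_accepts (h : ZReach N N.start [] [] w n q u v) (hq : q ∈ N.acc) :
    N.AcceptsIn w n := by
  obtain ⟨p', h1⟩ := h 0
  rw [mk_nil] at h1
  exact ⟨_, h1, hq⟩

theorem zip_left_cons (p : ℤ) (u v : List N.G) : ∃ (x : N.G) (u1 : List N.G),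
    (u = x :: u1 ∨ (u = [] ∧ x = N.blank ∧ u1 = [])) ∧
      mk N.blank p u v = mk N.blank p (x :: u1) v := by
  cases u with
  | nil =>
    refine ⟨N.blank, [], Or.inr ⟨rfl, rfl, rfl⟩, ?_⟩
    have := mk_pad N.blank p [] v 1 0
    simpa using this.symm
  | cons x u => exact ⟨x, u, Or.inl rfl, rfl⟩

theorem zip_right_cons (p : ℤ) (u v : List N.G) : ∃ (x : N.G) (v1 : List N.G),
    (v = x :: v1 ∨ (v = [] ∧ x = N.blank ∧ v1 = [])) ∧
      mk N.blank p u v = mk N.blank p u (x :: v1) := by
  cases v with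
  | nil =>
    refine ⟨N.blank, [], Or.inr ⟨rfl, rfl, rfl⟩, ?_⟩
    have := mk_pad N.blank p u [] 0 1
    simpa using this.symm
  | cons x u => exact ⟨x, u, Or.inl rfl, rfl⟩

/-- One step, seen on two lists (used for soundness). -/
theorem step_zip {c c' : N.Cfg} (h : N.Step c a c') (hc : c.tape = mk N.blank c.pos u v) :
    ∃ (x : N.G) (u1 : List N.G) (g : N.G) (v1 : List N.G) (g' : N.G),
      (u = x :: u1 ∨ (u = [] ∧ x = N.blank ∧ u1 = [])) ∧
      (v = g :: v1 ∨ (v = [] ∧ g = N.blank ∧ v1 = [])) ∧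
      ((N.step c.q g a c'.q g' 0 ∧ c'.tape = mk N.blank c'.pos (x :: u1) (g' :: v1)) ∨
       (N.step c.q g a c'.q g' 1 ∧ c'.tape = mk N.blank c'.pos (g' :: x :: u1) v1) ∨
       (N.step c.q g a c'.q g' (-1) ∧ c'.tape = mk N.blank c'.pos u1 (x :: g' :: v1))) := by
  obtain ⟨d, hs, hpos, htape⟩ := h
  obtain ⟨x, u1, hu, hmu⟩ := zip_left_cons (N := N) c.pos u v
  obtain ⟨g, v1, hv, hmv⟩ := zip_right_cons (N := N) c.pos (x :: u1) v
  refine ⟨x, u1, g, v1, c'.tape c.pos, hu, hv, ?_⟩
  rw [hmu, hmv] at hc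
  have hg : c.tape c.pos = g := by rw [hc, mk_self]
  rw [hg] at hs
  have ht : c'.tape = mk N.blank c.pos (x :: u1) (c'.tape c.pos :: v1) := by
    funext z
    by_cases hz : z = c.pos
    · rw [hz, mk_self]
    · rw [htape z hz, hc]
      exact (mk_write _ _ _ _ _ _ _ hz).symm
  obtain ⟨hd1, hd2⟩ := N.step_move hs
  have hd : d = 0 ∨ d = 1 ∨ d = -1 := by omega
  rcases hd with rfl | rfl | rfl
  · refine Or.inl ⟨hs, ?_⟩
    have : c'.pos = c.pos := by rw [hpos, add_zero]
    rw [this]
    exact ht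
  · refine Or.inr (Or.inl ⟨hs, ?_⟩)
    rw [hpos, mk_move]
    exact ht
  · refine Or.inr (Or.inr ⟨hs, ?_⟩)
    have : mk N.blank c'.pos u1 (x :: c'.tape c.pos :: v1) =
        mk N.blank c.pos (x :: u1) (c'.tape c.pos :: v1) := by
      rw [← mk_move]
      congr 1
      rw [hpos]
      ring
    rw [this]
    exact ht

end

section
variable {S : Type} [Finite S] {q q' q'' : Ph S} {u v u' v' u'' v'' : List (Cell S)}
  {w w' : List (Op S)} {n n' : ℕ} {a : Option (Op S)} {g g' x : Cell S}

theorem tz_refl : TZ S q u v [] 0 q u v := zr_refl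

theorem tz_trans (h : TZ S q u v w n q' u' v') (h' : TZ S q' u' v' w' n' q'' u'' v'') :
    TZ S q u v (w ++ w') (n + n') q'' u'' v'' := zr_trans h h'

theorem tz_right (h : TStep q g a q' g' 1) :
    TZ S q u (g :: v) a.toList 1 q' (g' :: u) v := zr_right (N := fifoTM S) h

theorem tz_left (h : TStep q g a q' g' (-1)) :
    TZ S q (x :: u) (g :: v) a.toList 1 q' u (x :: g' :: v) := zr_left (N := fifoTM S) h

theorem tz_stay (h : TStep q g a q' g' 0) :
    TZ S q u (g :: v) a.toList 1 q' u (g' :: v) := zr_stay (N := fifoTM S) h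

theorem tz_pad (i j i' j' : ℕ)
    (h : TZ S q (u ++ List.replicate i .blank) (v ++ List.replicate j .blank) w n
      q' (u' ++ List.replicate i' .blank) (v' ++ List.replicate j' .blank)) :
    TZ S q u v w n q' u' v' := zr_pad (N := fifoTM S) i j i' j' h

end

end Pool.Agent.QT
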